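import Mathlib

/-!
The C*-algebra of germs of bounded families along a filter.
-/

open Filter Topology
open scoped ENNReal

namespace Pool.Agent.Lib.MP_1cc3c1_an

namespace GermAux

section quot

variable {P : Type} [NormedRing P] [StarRing P] [CStarRing P] [CompleteSpace P]
  [NormedAlgebra ℂ P] [StarModule ℂ P]

/-- the star of the quotient by a star invariant ideal -/
noncomputable def qstar (I : Ideal P) (hstar : ∀ f ∈ I, star f ∈ I) : P ⧸ I → P ⧸ I :=
  Quotient.map' star (fun a b h => by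
    rw [Submodule.quotientRel_def] at h ⊢
    rw [← star_sub]
    exact hstar _ h)

omit [StarRing P] [CStarRing P] [CompleteSpace P] [NormedAlgebra ℂ P] [StarModule ℂ P] in
theorem norm_lt_iff (I : Ideal P) (f : P) (c : ℝ) :
    ‖(Submodule.Quotient.mk f : P ⧸ I)‖ < c ↔ ∃ g ∈ I, ‖f + g‖ < c := by
  constructor
  · intro h
    obtain ⟨m, hm, hlt⟩ := Submodule.Quotient.norm_mk_lt (Submodule.Quotient.mk f : P ⧸ I)
      (sub_pos.2 h)
    refine ⟨m - f, ?_, ?_⟩
    · exact (Submodule.Quotient.eq I).1 hm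
    · rw [add_sub_cancel]
      linarith
  · rintro ⟨g, hg, hlt⟩
    have h : (Submodule.Quotient.mk f : P ⧸ I) = Submodule.Quotient.mk (f + g) := by
      rw [Submodule.Quotient.eq, sub_add_cancel_left]
      exact I.neg_mem hg
    rw [h]
    exact (Submodule.Quotient.norm_mk_le I (f + g)).trans_lt hlt

omit [CStarRing P] in
theorem exists_quot (I : Ideal P) [I.IsTwoSided] (hcl : IsClosed (I : Set P))
    (hstar : ∀ f ∈ I, star f ∈ I)
    (hC : ∀ f : P, ‖(Submodule.Quotient.mk f : P ⧸ I)‖ * ‖(Submodule.Quotient.mk f : P ⧸ I)‖ ≤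
      ‖(Submodule.Quotient.mk (star f * f) : P ⧸ I)‖) :
    ∃ (Q : Type) (_ : CStarAlgebra Q) (mk : P →⋆ₐ[ℂ] Q), Function.Surjective mk ∧
      ∀ (f : P) (c : ℝ), ‖mk f‖ < c ↔ ∃ g ∈ I, ‖f + g‖ < c := by
  have : IsClosed (I : Set P) := hcl
  let nr : NormedRing (P ⧸ I) :=
    { Ideal.Quotient.ring I, Submodule.Quotient.normedAddCommGroup I with
      norm_mul_le := by
        intro x y
        refine le_of_forall_pos_le_add (fun ε hε => ?_)
        have h1 : Tendsto (fun d : ℝ => (‖x‖ + d) * (‖y‖ + d)) (𝓝[>] 0) (𝓝 (‖x‖ * ‖y‖)) := by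
          have h2 : Continuous (fun d : ℝ => (‖x‖ + d) * (‖y‖ + d)) := by fun_prop
          have h3 := h2.tendsto 0
          simp only [add_zero] at h3
          exact h3.mono_left nhdsWithin_le_nhds
        have h4 : ∀ᶠ d in 𝓝[>] (0 : ℝ), (‖x‖ + d) * (‖y‖ + d) < ‖x‖ * ‖y‖ + ε :=
          h1.eventually_lt_const (by linarith)
        obtain ⟨d, hd1, hd2⟩ := (h4.and self_mem_nhdsWithin).exists
        obtain ⟨a, rfl, ha⟩ := Submodule.Quotient.norm_mk_lt x (Set.mem_Ioi.1 hd2)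
        obtain ⟨b, rfl, hb⟩ := Submodule.Quotient.norm_mk_lt y (Set.mem_Ioi.1 hd2)
        have h5 : ‖(Submodule.Quotient.mk (a * b) : P ⧸ I)‖ ≤ ‖a * b‖ :=
          Submodule.Quotient.norm_mk_le I (a * b)
        calc ‖(Submodule.Quotient.mk (a * b) : P ⧸ I)‖ ≤ ‖a‖ * ‖b‖ := h5.trans (norm_mul_le a b)
          _ ≤ _ := by
            refine le_trans ?_ hd1.le
            gcongr }
  let sr : StarRing (P ⧸ I) :=
    { star := qstar I hstar
      star_involutive := by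
        rintro ⟨x⟩
        exact congrArg Submodule.Quotient.mk (star_star x)
      star_mul := by
        rintro ⟨x⟩ ⟨y⟩
        exact congrArg Submodule.Quotient.mk (star_mul x y)
      star_add := by
        rintro ⟨x⟩ ⟨y⟩
        exact congrArg Submodule.Quotient.mk (star_add x y) }
  let na : NormedAlgebra ℂ (P ⧸ I) :=
    { Ideal.Quotient.algebra ℂ with
      norm_smul_le := fun a x => (Submodule.Quotient.normedSpace I ℂ).norm_smul_le a x }
  have cs : CStarRing (P ⧸ I) :=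
    ⟨by
      rintro ⟨x⟩
      exact hC x⟩
  have cp : CompleteSpace (P ⧸ I) := Submodule.Quotient.completeSpace I
  have sm : StarModule ℂ (P ⧸ I) :=
    ⟨by
      rintro a ⟨x⟩
      exact congrArg Submodule.Quotient.mk (star_smul a x)⟩
  let cstar : CStarAlgebra (P ⧸ I) :=
    { nr, sr, na, cs, cp, sm with }
  refine ⟨P ⧸ I, cstar, { Ideal.Quotient.mkₐ ℂ I with map_star' := fun x => rfl }, ?_, ?_⟩
  · exact Ideal.Quotient.mk_surjective
  · exact norm_lt_iff I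

end quot

section main

variable {Ω : Type} (A : Ω → Type) [∀ ω, CStarAlgebra (A ω)] [∀ ω, Nontrivial (A ω)]
  (𝓕 : Filter Ω)

/-- the families which tend to `0` along the filter -/
noncomputable def idl : Ideal (lp A ∞) where
  carrier := {f | Tendsto (fun ω => ‖f ω‖) 𝓕 (𝓝 0)}
  add_mem' := by
    intro f g hf hg
    refine squeeze_zero (fun ω => norm_nonneg _) (fun ω => norm_add_le (f ω) (g ω)) ?_
    simpa using hf.add hg
  zero_mem' := by
    refine Tendsto.congr (fun ω => ?_) tendsto_const_nhds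
    exact norm_zero.symm
  smul_mem' := by
    intro r f hf
    refine squeeze_zero (fun ω => norm_nonneg _)
      (fun ω => (norm_mul_le (r ω) (f ω)).trans (mul_le_mul_of_nonneg_right
        (lp.norm_apply_le_norm ENNReal.top_ne_zero r ω) (norm_nonneg _))) ?_
    simpa using hf.const_mul ‖r‖

theorem mem_idl (f : lp A ∞) : f ∈ idl A 𝓕 ↔ Tendsto (fun ω => ‖f ω‖) 𝓕 (𝓝 0) := Iff.rfl

instance : (idl A 𝓕).IsTwoSided := ⟨by
  intro f r hf
  refine squeeze_zero (fun ω => norm_nonneg _)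
    (fun ω => (norm_mul_le (f ω) (r ω)).trans (mul_le_mul_of_nonneg_left
      (lp.norm_apply_le_norm ENNReal.top_ne_zero r ω) (norm_nonneg _))) ?_
  simpa using ((mem_idl A 𝓕 f).1 hf).mul_const ‖r‖⟩

theorem star_mem_idl (f : lp A ∞) (hf : f ∈ idl A 𝓕) : star f ∈ idl A 𝓕 := by
  rw [mem_idl] at hf ⊢
  have h : (fun ω => ‖(star f : lp A ∞) ω‖) = fun ω => ‖f ω‖ := by
    funext ω
    exact norm_star (f ω)
  rw [h]
  exact hf

theorem isClosed_idl : IsClosed (idl A 𝓕 : Set (lp A ∞)) := by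
  rw [← isSeqClosed_iff_isClosed]
  intro u f hu huf
  rw [SetLike.mem_coe, mem_idl, Metric.tendsto_nhds]
  intro ε hε
  obtain ⟨n, hn⟩ := ((Metric.tendsto_nhds.1 huf) (ε / 2) (half_pos hε)).exists
  have h1 := (Metric.tendsto_nhds.1 ((mem_idl A 𝓕 (u n)).1 (hu n))) (ε / 2) (half_pos hε)
  filter_upwards [h1] with ω hω
  rw [dist_zero_right, norm_norm] at hω ⊢
  have h2 : ‖f ω - u n ω‖ < ε / 2 := by
    refine lt_of_le_of_lt (lp.norm_apply_le_norm ENNReal.top_ne_zero (f - u n) ω) ?_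
    rw [dist_eq_norm, norm_sub_rev] at hn
    exact hn
  calc ‖f ω‖ = ‖(f ω - u n ω) + u n ω‖ := by rw [sub_add_cancel]
    _ ≤ ‖f ω - u n ω‖ + ‖u n ω‖ := norm_add_le _ _
    _ < ε := by linarith

theorem eventually_of_lt (f : lp A ∞) (c : ℝ) (h : ∃ g ∈ idl A 𝓕, ‖f + g‖ < c) :
    ∀ᶠ ω in 𝓕, ‖f ω‖ < c := by
  obtain ⟨g, hg, hc⟩ := h
  have h1 := (Metric.tendsto_nhds.1 ((mem_idl A 𝓕 g).1 hg)) (c - ‖f + g‖) (sub_pos.2 hc)
  filter_upwards [h1] with ω hω
  rw [dist_zero_right, norm_norm] at hω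
  have h2 := lp.norm_apply_le_norm ENNReal.top_ne_zero (f + g) ω
  calc ‖f ω‖ = ‖(f ω + g ω) - g ω‖ := by rw [add_sub_cancel_right]
    _ ≤ ‖f ω + g ω‖ + ‖g ω‖ := norm_sub_le _ _
    _ < c := by
      have h3 : ‖f ω + g ω‖ ≤ ‖f + g‖ := h2
      linarith

theorem lt_of_eventually (f : lp A ∞) (c d : ℝ) (hc : 0 ≤ c) (hcd : c < d)
    (h : ∀ᶠ ω in 𝓕, ‖f ω‖ ≤ c) : ∃ g ∈ idl A 𝓕, ‖f + g‖ < d := by
  classical
  have hmem : Memℓp (fun ω => if ‖f ω‖ ≤ c then (0 : A ω) else - f ω) ∞ := by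
    refine memℓp_infty ⟨‖f‖, ?_⟩
    rintro _ ⟨ω, rfl⟩
    by_cases hω : ‖f ω‖ ≤ c
    · simp [hω]
    · simp only [hω, if_false, norm_neg]
      exact lp.norm_apply_le_norm ENNReal.top_ne_zero f ω
  refine ⟨⟨_, hmem⟩, ?_, ?_⟩
  · rw [mem_idl]
    refine Tendsto.congr' ?_ tendsto_const_nhds
    filter_upwards [h] with ω hω
    simp [hω]
  · refine lt_of_le_of_lt (lp.norm_le_of_forall_le hc (fun ω => ?_)) hcd
    have h1 : (f + (⟨_, hmem⟩ : lp A ∞)) ω = f ω + (if ‖f ω‖ ≤ c then (0 : A ω) else - f ω) := rfl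
    rw [h1]
    by_cases hω : ‖f ω‖ ≤ c
    · simpa [hω] using hω
    · simp [hω, hc]

end main

end GermAux

open GermAux

theorem exists_germ_algebra {Ω : Type} (A : Ω → Type) [∀ ω, CStarAlgebra (A ω)]
    [∀ ω, Nontrivial (A ω)] (𝓕 : Filter Ω) :
    ∃ (Q : Type) (_ : CStarAlgebra Q) (mk : lp A ∞ →⋆ₐ[ℂ] Q), Function.Surjective mk ∧
      (∀ (f : lp A ∞) (c : ℝ), 0 ≤ c → (∀ᶠ ω in 𝓕, ‖f ω‖ ≤ c) → ‖mk f‖ ≤ c) ∧
      (∀ (f : lp A ∞) (c : ℝ), ‖mk f‖ < c → ∀ᶠ ω in 𝓕, ‖f ω‖ < c) := by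
  obtain ⟨Q, inst, mk, hs, hn⟩ := exists_quot (P := lp A ∞) (idl A 𝓕) (isClosed_idl A 𝓕)
    (star_mem_idl A 𝓕) (by
      intro f
      set N : ℝ := ‖(Submodule.Quotient.mk (star f * f) : lp A ∞ ⧸ idl A 𝓕)‖ with hN
      refine le_of_forall_pos_le_add (fun ε hε => ?_)
      have hN0 : 0 ≤ N := norm_nonneg _
      have h1 := (norm_lt_iff (idl A 𝓕) (star f * f) (N + ε)).1 (by rw [← hN]; linarith)
      have h2 := eventually_of_lt A 𝓕 _ _ h1
      have h3 : ∀ᶠ ω in 𝓕, ‖f ω‖ ≤ √(N + ε) := by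
        filter_upwards [h2] with ω hω
        have h4 : ‖(star f * f : lp A ∞) ω‖ = ‖f ω‖ * ‖f ω‖ := CStarRing.norm_star_mul_self
        rw [h4] at hω
        refine Real.le_sqrt_of_sq_le ?_
        rw [sq]
        exact hω.le
      have h5 : ‖(Submodule.Quotient.mk f : lp A ∞ ⧸ idl A 𝓕)‖ ≤ √(N + ε) := by
        refine le_of_forall_pos_lt_add (fun δ hδ => ?_)
        exact (norm_lt_iff (idl A 𝓕) f _).2
          (lt_of_eventually A 𝓕 f _ _ (Real.sqrt_nonneg _) (by linarith) h3)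
      calc _ ≤ √(N + ε) * √(N + ε) := by gcongr
        _ = N + ε := Real.mul_self_sqrt (by linarith))
  refine ⟨Q, inst, mk, hs, ?_, ?_⟩
  · intro f c hc h
    refine le_of_forall_pos_lt_add (fun ε hε => ?_)
    exact (hn f _).2 (lt_of_eventually A 𝓕 f c _ hc (by linarith) h)
  · intro f c h
    exact eventually_of_lt A 𝓕 f c ((hn f c).1 h)

end Pool.Agent.Lib.MP_1cc3c1_an
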