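import Mathlib

/-!
The odd dimensional spheres used as base spaces.
-/

namespace Pool.Agent.Lib.MP_1cc3c1_an

/-- The unit sphere of the complex space of dimension `n + 1`. -/
abbrev Sph (n : ℕ) : Type := Metric.sphere (0 : EuclideanSpace ℂ (Fin (n + 1))) 1

instance (n : ℕ) : Nonempty (Sph n) :=
  ⟨⟨EuclideanSpace.single 0 1, by simp⟩⟩

end Pool.Agent.Lib.MP_1cc3c1_an
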