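import Pool.Agent.Lib.MP_1cc3c1_an.Kappa
import Pool.Agent.Lib.MP_1cc3c1_an.Sphere
import Pool.Agent.Lib.MP_1cc3c1_an.Germ

/-!
The C*-algebra generated by the germs of all terms.
-/

open scoped ENNReal

namespace Pool.Agent.Lib.MP_1cc3c1_an

open Tm

section Generic

variable {Ω : Type} (A : Ω → Type) [∀ ω, CStarAlgebra (A ω)] [∀ ω, Nontrivial (A ω)]
  (ρ : ∀ ω, Rep (A ω))

/-- The family of the values of a term. -/
noncomputable def fam (t : Tm) : lp A ∞ :=
  ⟨fun ω => (ρ ω).ev t, by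
    refine memℓp_infty ⟨Rep.bd t, ?_⟩
    rintro _ ⟨ω, rfl⟩
    exact Rep.norm_ev_le _ _⟩

theorem fam_apply (t : Tm) (ω : Ω) : fam A ρ t ω = (ρ ω).ev t := rfl

/-- Translation of bounded families. -/
noncomputable def lsh (σ : Ω → Ω) (θ : ∀ ω, A (σ ω) →⋆ₐ[ℂ] A ω) : lp A ∞ →⋆ₐ[ℂ] lp A ∞ where
  toFun f := ⟨fun ω => θ ω (f (σ ω)), by
    refine memℓp_infty ⟨‖f‖, ?_⟩
    rintro _ ⟨ω, rfl⟩
    exact (NonUnitalStarAlgHom.norm_apply_le (θ ω) _).trans
      (lp.norm_apply_le_norm ENNReal.top_ne_zero f _)⟩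
  map_one' := by
    ext ω : 2
    exact map_one (θ ω)
  map_mul' f g := by
    ext ω : 2
    exact map_mul (θ ω) _ _
  map_zero' := by
    ext ω : 2
    exact map_zero (θ ω)
  map_add' f g := by
    ext ω : 2
    exact map_add (θ ω) _ _
  commutes' c := by
    ext ω : 2
    exact AlgHomClass.commutes (θ ω) c
  map_star' f := by
    ext ω : 2
    exact map_star (θ ω) _

theorem lsh_apply (σ : Ω → Ω) (θ : ∀ ω, A (σ ω) →⋆ₐ[ℂ] A ω) (f : lp A ∞) (ω : Ω) :
    lsh A σ θ f ω = θ ω (f (σ ω)) := rfl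

theorem exists_lift {T Q : Type} [CStarAlgebra Q] [Ring T] [Algebra ℂ T] [StarRing T]
    (mk : T →⋆ₐ[ℂ] Q)
    (hs : Function.Surjective mk) (s : T →⋆ₐ[ℂ] T) (h : ∀ f, mk f = 0 → mk (s f) = 0) :
    ∃ α : Q →⋆ₐ[ℂ] Q, ∀ f, α (mk f) = mk (s f) := by
  have key : ∀ f g, mk f = mk g → mk (s f) = mk (s g) := by
    intro f g hfg
    have h1 : mk (f - g) = 0 := by rw [map_sub, hfg, sub_self]
    have h2 := h _ h1
    rw [map_sub, map_sub, sub_eq_zero] at h2
    exact h2
  let a : Q → Q := fun y => mk (s (Function.surjInv hs y))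
  have ha : ∀ f, a (mk f) = mk (s f) := fun f => key _ _ (Function.surjInv_eq hs _)
  refine ⟨{ toFun := a
            map_one' := ?_
            map_mul' := ?_
            map_zero' := ?_
            map_add' := ?_
            commutes' := ?_
            map_star' := ?_ }, ha⟩
  · rw [← map_one mk, ha, map_one]
  · intro x y
    obtain ⟨f, rfl⟩ := hs x
    obtain ⟨g, rfl⟩ := hs y
    rw [← map_mul, ha, ha, ha, map_mul, map_mul]
  · change a 0 = 0
    rw [← map_zero mk, ha, map_zero]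
  · intro x y
    obtain ⟨f, rfl⟩ := hs x
    obtain ⟨g, rfl⟩ := hs y
    change a _ = a _ + a _
    rw [← map_add, ha, ha, ha, map_add, map_add]
  · intro c
    change a _ = _
    rw [← AlgHomClass.commutes mk c, ha, AlgHomClass.commutes]
  · intro x
    obtain ⟨f, rfl⟩ := hs x
    change a _ = star (a _)
    rw [← map_star, ha, ha, map_star, map_star]

theorem dense_gauss (c : ℂ) : c ∈ closure (Set.range fun p : ℚ × ℚ => (p.1 + p.2 * Complex.I : ℂ)) := by
  have h1 : Dense (Set.range fun p : ℚ × ℚ => ((p.1 : ℝ), (p.2 : ℝ))) := by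
    have := (Rat.isDenseEmbedding_coe_real.dense).prodMap (Rat.isDenseEmbedding_coe_real.dense)
    exact this
  have h2 : Continuous (fun p : ℝ × ℝ => (p.1 + p.2 * Complex.I : ℂ)) := by fun_prop
  have h3 : c = (fun p : ℝ × ℝ => (p.1 + p.2 * Complex.I : ℂ)) (c.re, c.im) := by
    simp [Complex.re_add_im]
  rw [h3]
  have h4 := h1 (c.re, c.im)
  have h5 := map_mem_closure h2 h4 (t := Set.range fun p : ℚ × ℚ => (p.1 + p.2 * Complex.I : ℂ)) (by
    rintro _ ⟨p, rfl⟩
    exact ⟨p, by simp⟩)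
  exact h5

theorem exists_generic (𝓕 : Filter Ω) (σ : ℤ → Ω → Ω) (hσ : ∀ h, Filter.Tendsto (σ h) 𝓕 𝓕)
    (θ : ∀ h ω, A (σ h ω) →⋆ₐ[ℂ] A ω)
    (hθ : ∀ h ω t, θ h ω ((ρ (σ h ω)).ev t) = (ρ ω).ev (sh h t)) :
    ∃ (D : Type) (_ : CStarAlgebra D) (E : Tm → D), DenseRange E ∧
    (∀ a b : ℚ, E (c a b) = algebraMap ℂ D (a + b * Complex.I)) ∧
    (∀ s t, E (add s t) = E s + E t) ∧ (∀ s t, E (mul s t) = E s * E t) ∧
    (∀ t, E (st t) = star (E t)) ∧
    (∀ (t : Tm) (c : ℝ), ‖E t‖ < c → ∀ᶠ ω in 𝓕, ‖(ρ ω).ev t‖ < c) ∧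
    (∀ (t : Tm) (c : ℝ), 0 ≤ c → (∀ᶠ ω in 𝓕, ‖(ρ ω).ev t‖ ≤ c) → ‖E t‖ ≤ c) ∧
    ∀ h : ℤ, ∃ φ : D →⋆ₐ[ℂ] D, ∀ t, φ (E t) = E (sh h t) := by
  obtain ⟨Q, hQ, mk, hs, h1, h2⟩ := exists_germ_algebra A 𝓕
  let e : Tm → Q := fun t => mk (fam A ρ t)
  have ec : ∀ a b : ℚ, e (c a b) = algebraMap ℂ Q (a + b * Complex.I) := by
    intro a b
    have : fam A ρ (c a b) = algebraMap ℂ (lp A ∞) (a + b * Complex.I) := by
      ext ω : 2
      rfl
    simp only [e]
    rw [this]
    exact AlgHomClass.commutes mk _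
  have eadd : ∀ s t, e (add s t) = e s + e t := by
    intro s t
    have : fam A ρ (add s t) = fam A ρ s + fam A ρ t := by
      ext ω : 2
      rfl
    simp only [e]
    rw [this, map_add]
  have emul : ∀ s t, e (mul s t) = e s * e t := by
    intro s t
    have : fam A ρ (mul s t) = fam A ρ s * fam A ρ t := by
      ext ω : 2
      rfl
    simp only [e]
    rw [this, map_mul]
  have est : ∀ t, e (st t) = star (e t) := by
    intro t
    have : fam A ρ (st t) = star (fam A ρ t) := by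
      ext ω : 2
      rfl
    simp only [e]
    rw [this, map_star]
  have emem : ∀ t, e t ∈ closure (Set.range e) := fun t => subset_closure ⟨t, rfl⟩
  let D : StarSubalgebra ℂ Q :=
    { carrier := closure (Set.range e)
      mul_mem' := by
        intro x y hx hy
        refine map_mem_closure₂ continuous_mul hx hy ?_
        rintro _ ⟨s, rfl⟩ _ ⟨t, rfl⟩
        exact ⟨mul s t, emul s t⟩
      one_mem' := by
        refine subset_closure ⟨c 1 0, ?_⟩
        rw [ec]
        simp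
      add_mem' := by
        intro x y hx hy
        refine map_mem_closure₂ continuous_add hx hy ?_
        rintro _ ⟨s, rfl⟩ _ ⟨t, rfl⟩
        exact ⟨add s t, eadd s t⟩
      zero_mem' := by
        refine subset_closure ⟨c 0 0, ?_⟩
        rw [ec]
        simp
      algebraMap_mem' := by
        intro r
        refine map_mem_closure (algebraMapCLM ℂ Q).continuous (dense_gauss r) ?_
        rintro _ ⟨p, rfl⟩
        exact ⟨c p.1 p.2, ec _ _⟩
      star_mem' := by
        intro x hx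
        refine map_mem_closure continuous_star hx ?_
        rintro _ ⟨s, rfl⟩
        exact ⟨st s, est s⟩ }
  have hDc : IsClosed (D : Set Q) := isClosed_closure
  let E : Tm → D := fun t => ⟨e t, emem t⟩
  refine ⟨D, inferInstance, E, ?_, fun a b => Subtype.ext (ec a b),
    fun s t => Subtype.ext (eadd s t), fun s t => Subtype.ext (emul s t),
    fun t => Subtype.ext (est t), ?_, ?_, ?_⟩
  · intro x
    rw [closure_subtype]
    have : (Subtype.val '' Set.range E : Set Q) = Set.range e := by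
      ext y
      constructor
      · rintro ⟨_, ⟨t, rfl⟩, rfl⟩
        exact ⟨t, rfl⟩
      · rintro ⟨t, rfl⟩
        exact ⟨_, ⟨t, rfl⟩, rfl⟩
    rw [this]
    exact x.2
  · intro t c hc
    exact h2 _ _ hc
  · intro t c hc h
    exact h1 _ _ hc h
  · intro h
    obtain ⟨α, hα⟩ := exists_lift mk hs (lsh A (σ h) (θ h)) (by
      intro f hf
      have h3 : ∀ c : ℝ, 0 < c → ‖mk (lsh A (σ h) (θ h) f)‖ ≤ c := by
        intro c hc
        refine h1 _ _ hc.le ?_
        have h4 : ∀ᶠ ω in 𝓕, ‖f ω‖ < c := h2 f c (by rw [hf, norm_zero]; exact hc)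
        refine ((hσ h).eventually h4).mono fun ω hω => ?_
        rw [lsh_apply]
        exact (NonUnitalStarAlgHom.norm_apply_le (θ h ω) _).trans hω.le
      have h5 : ‖mk (lsh A (σ h) (θ h) f)‖ ≤ 0 := le_of_forall_pos_le_add fun c hc => by
        rw [zero_add]; exact h3 c hc
      exact norm_le_zero_iff.1 h5)
    have hE : ∀ t, α (e t) = e (sh h t) := by
      intro t
      rw [hα]
      congr 1
      ext ω : 2
      exact hθ h ω t
    have hαD : ∀ x : D, α x ∈ D := by
      intro x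
      have hc : Continuous α := by
        refine LipschitzWith.continuous (K := 1) ?_
        refine LipschitzWith.of_dist_le_mul fun a b => ?_
        rw [dist_eq_norm, dist_eq_norm, ← map_sub]
        simpa using NonUnitalStarAlgHom.norm_apply_le α (a - b)
      refine map_mem_closure hc x.2 ?_
      rintro _ ⟨t, rfl⟩
      exact ⟨sh h t, (hE t).symm⟩
    refine ⟨(α.comp D.subtype).codRestrict D hαD, fun t => Subtype.ext (hE t)⟩

end Generic

end Pool.Agent.Lib.MP_1cc3c1_an
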