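import Pool.Agent.Lib.MP_1cc3c1_an.Kappa
import Pool.Agent.Lib.MP_1cc3c1_an.Sphere

/-!
Gluing of matrix representations to a representation over a compact space.
-/

namespace Pool.Agent.Lib.MP_1cc3c1_an

open Tm

namespace Asm

section Vector

variable {H : Type*} [NormedAddCommGroup H] [InnerProductSpace ℂ H] [CompleteSpace H]

theorem inner_sum_star {ι : Type*} (s : Finset ι) (R : ι → H →L[ℂ] H) (Q : H →L[ℂ] H) (v w : H) :
    inner ℂ ((∑ j ∈ s, star (R j) * (star Q * Q) * R j) v) w =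
      ∑ j ∈ s, inner ℂ (Q (R j v)) (Q (R j w)) := by
  rw [sum_apply, sum_inner]
  refine Finset.sum_congr rfl fun j _ => ?_
  have : (star (R j) * (star Q * Q) * R j) v =
      ContinuousLinearMap.adjoint (R j) (ContinuousLinearMap.adjoint Q (Q (R j v))) := rfl
  rw [this, ContinuousLinearMap.adjoint_inner_left, ContinuousLinearMap.adjoint_inner_left]

theorem sum_eq_one_iff {ι : Type*} (s : Finset ι) (R : ι → H →L[ℂ] H) (Q : H →L[ℂ] H) :
    (∑ j ∈ s, star (R j) * (star Q * Q) * R j = 1) ↔ ∀ v, ∑ j ∈ s, ‖Q (R j v)‖ ^ 2 = ‖v‖ ^ 2 := by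
  constructor
  · intro h v
    have := inner_sum_star s R Q v v
    rw [h, one_apply_eq_self, inner_self_eq_norm_sq_to_K] at this
    simp only [inner_self_eq_norm_sq_to_K] at this
    have h2 : ((‖v‖ ^ 2 : ℝ) : ℂ) = ((∑ j ∈ s, ‖Q (R j v)‖ ^ 2 : ℝ) : ℂ) := by
      push_cast
      exact this
    exact (Complex.ofReal_injective h2).symm
  · intro h
    have key : ((∑ j ∈ s, star (R j) * (star Q * Q) * R j : H →L[ℂ] H) : H →ₗ[ℂ] H) =
        ((1 : H →L[ℂ] H) : H →ₗ[ℂ] H) := by
      rw [← ext_inner_map]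
      intro v
      have := inner_sum_star s R Q v v
      simp only [ContinuousLinearMap.coe_coe]
      rw [this, one_apply_eq_self]
      simp only [inner_self_eq_norm_sq_to_K]
      have h2 : ((‖v‖ ^ 2 : ℝ) : ℂ) = ((∑ j ∈ s, ‖Q (R j v)‖ ^ 2 : ℝ) : ℂ) := by rw [h v]
      push_cast at h2
      exact h2.symm
    ext v
    exact congrArg (fun T : H →ₗ[ℂ] H => T v) key

theorem norm_sum_le_one_iff {ι : Type*} (s : Finset ι) (R : ι → H →L[ℂ] H) :
    (‖∑ j ∈ s, star (R j) * R j‖ ≤ 1) ↔ ∀ v, ∑ j ∈ s, ‖R j v‖ ^ 2 ≤ ‖v‖ ^ 2 := by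
  have hin : ∀ v w, inner ℂ ((∑ j ∈ s, star (R j) * R j) v) w =
      ∑ j ∈ s, inner ℂ (R j v) (R j w) := by
    intro v w
    have := inner_sum_star s R 1 v w
    simpa using this
  constructor
  · intro h v
    have h1 := hin v v
    have h2 : ‖inner ℂ ((∑ j ∈ s, star (R j) * R j) v) v‖ ≤ ‖v‖ ^ 2 := by
      refine (norm_inner_le_norm _ _).trans ?_
      have := (ContinuousLinearMap.le_opNorm (∑ j ∈ s, star (R j) * R j) v).trans
        (mul_le_mul_of_nonneg_right h (norm_nonneg _))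
      nlinarith [norm_nonneg v]
    rw [h1] at h2
    simp only [inner_self_eq_norm_sq_to_K] at h2
    have h3 : (∑ j ∈ s, ((‖R j v‖ : ℂ)) ^ 2) = ((∑ j ∈ s, ‖R j v‖ ^ 2 : ℝ) : ℂ) := by
      push_cast; rfl
    have h4 : ‖(∑ j ∈ s, ((‖R j v‖ : ℂ)) ^ 2)‖ = ∑ j ∈ s, ‖R j v‖ ^ 2 := by
      rw [h3, Complex.norm_real, Real.norm_eq_abs, abs_of_nonneg]
      exact Finset.sum_nonneg fun _ _ => by positivity
    rw [← h4]
    exact h2
  · intro h
    refine ContinuousLinearMap.opNorm_le_bound _ zero_le_one fun v => ?_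
    rw [one_mul]
    set T := ∑ j ∈ s, star (R j) * R j with hT
    have h1 : ‖T v‖ ^ 2 ≤ ‖v‖ * ‖T v‖ := by
      have e : ((‖T v‖ ^ 2 : ℝ) : ℂ) = ∑ j ∈ s, inner ℂ (R j v) (R j (T v)) := by
        rw [← hin v (T v), inner_self_eq_norm_sq_to_K]
        push_cast; rfl
      have e2 : ‖T v‖ ^ 2 ≤ ∑ j ∈ s, ‖R j v‖ * ‖R j (T v)‖ := by
        have : ‖((‖T v‖ ^ 2 : ℝ) : ℂ)‖ = ‖T v‖ ^ 2 := by
          rw [Complex.norm_real, Real.norm_eq_abs, abs_of_nonneg (by positivity)]
        rw [← this, e]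
        exact (norm_sum_le _ _).trans (Finset.sum_le_sum fun j _ => norm_inner_le_norm _ _)
      refine e2.trans ((Real.sum_mul_le_sqrt_mul_sqrt s _ _).trans ?_)
      refine mul_le_mul ?_ ?_ (Real.sqrt_nonneg _) (norm_nonneg _)
      · rw [Real.sqrt_le_left (norm_nonneg _)]; exact h v
      · rw [Real.sqrt_le_left (norm_nonneg _)]; exact h (T v)
    by_contra hcon
    push Not at hcon
    nlinarith [norm_nonneg v, norm_nonneg (T v)]

end Vector

variable {𝔅 : Type} [Fintype 𝔅] [DecidableEq 𝔅] (H : 𝔅 → Type) [∀ b, NormedAddCommGroup (H b)]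
  [∀ b, InnerProductSpace ℂ (H b)] [∀ b, CompleteSpace (H b)]

/-- The orthogonal sum of the blocks. -/
abbrev TV : Type := PiLp 2 H

variable {H}

/-- inclusion of a block -/
noncomputable def inc (b : 𝔅) : H b →L[ℂ] TV H :=
  ((PiLp.continuousLinearEquiv 2 ℂ H).symm : (∀ i, H i) →L[ℂ] PiLp 2 H) ∘L
    (ContinuousLinearMap.single ℂ H b)

/-- projection to a block -/
noncomputable def prj (b : 𝔅) : TV H →L[ℂ] H b := PiLp.proj 2 H b

theorem prj_apply (b : 𝔅) (v : TV H) : prj b v = v b := rfl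

theorem inc_apply (b b' : 𝔅) (w : H b) : (inc b w : TV H) b' = (Pi.single b w : ∀ i, H i) b' := rfl

theorem inc_same (b : 𝔅) (w : H b) : (inc b w : TV H) b = w := by
  rw [inc_apply, Pi.single_eq_same]

theorem inc_ne {b b' : 𝔅} (h : b' ≠ b) (w : H b) : (inc b w : TV H) b' = 0 := by
  rw [inc_apply, Pi.single_eq_of_ne h]

theorem inner_inc (b : 𝔅) (w : H b) (v : TV H) : inner ℂ (inc b w) v = inner ℂ w (v b) := by
  rw [PiLp.inner_apply, Finset.sum_eq_single b]
  · rw [inc_same]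
  · intro b' _ hb'
    rw [inc_ne hb', inner_zero_left]
  · intro h; exact absurd (Finset.mem_univ b) h

theorem norm_inc (b : 𝔅) (w : H b) : ‖(inc b w : TV H)‖ = ‖w‖ := by
  have h : inner ℂ (inc b w : TV H) (inc b w) = inner ℂ w w := by
    rw [inner_inc, inc_same]
  rw [inner_self_eq_norm_sq_to_K, inner_self_eq_norm_sq_to_K] at h
  have h2 : ‖(inc b w : TV H)‖ ^ 2 = ‖w‖ ^ 2 := by
    exact_mod_cast h
  exact (pow_left_inj₀ (norm_nonneg _) (norm_nonneg _) two_ne_zero).1 h2

theorem sum_inc (v : TV H) : ∑ b, inc b (v b) = v := by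
  ext b
  rw [WithLp.ofLp_sum, Finset.sum_apply, Finset.sum_eq_single b]
  · exact inc_same b _
  · intro b' _ hb'
    exact inc_ne (Ne.symm hb') _
  · intro h; exact absurd (Finset.mem_univ b) h

/-- `T` is reduced by the block `b` and acts there as `S`. -/
def Int (b : 𝔅) (T : TV H →L[ℂ] TV H) (S : H b →L[ℂ] H b) : Prop :=
  (∀ w, T (inc b w) = inc b (S w)) ∧ ∀ v, (T v) b = S (v b)

theorem Int.add {b : 𝔅} {T T' : TV H →L[ℂ] TV H} {S S' : H b →L[ℂ] H b} (h : Int b T S)
    (h' : Int b T' S') : Int b (T + T') (S + S') := by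
  refine ⟨fun w => ?_, fun v => ?_⟩
  · simp [h.1, h'.1]
  · simp [h.2, h'.2]

theorem Int.mul {b : 𝔅} {T T' : TV H →L[ℂ] TV H} {S S' : H b →L[ℂ] H b} (h : Int b T S)
    (h' : Int b T' S') : Int b (T * T') (S * S') := by
  refine ⟨fun w => ?_, fun v => ?_⟩
  · simp [h.1, h'.1]
  · simp [h.2, h'.2]

theorem Int.star {b : 𝔅} {T : TV H →L[ℂ] TV H} {S : H b →L[ℂ] H b} (h : Int b T S) :
    Int b (star T) (star S) := by
  refine ⟨fun w => ?_, fun v => ?_⟩
  · refine ext_inner_right ℂ fun v => ?_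
    rw [ContinuousLinearMap.star_eq_adjoint, ContinuousLinearMap.star_eq_adjoint,
      ContinuousLinearMap.adjoint_inner_left, inner_inc, inner_inc, h.2,
      ContinuousLinearMap.adjoint_inner_left]
  · refine ext_inner_left ℂ fun w => ?_
    rw [ContinuousLinearMap.star_eq_adjoint, ContinuousLinearMap.star_eq_adjoint,
      ContinuousLinearMap.adjoint_inner_right, ← inner_inc, ContinuousLinearMap.adjoint_inner_right,
      h.1, inner_inc]

theorem Int.algebraMap (b : 𝔅) (a : ℂ) :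
    Int b (algebraMap ℂ (TV H →L[ℂ] TV H) a) (algebraMap ℂ (H b →L[ℂ] H b) a) := by
  refine ⟨fun w => ?_, fun v => ?_⟩
  · simp [Algebra.algebraMap_eq_smul_one]
  · simp [Algebra.algebraMap_eq_smul_one]

/-- block diagonal operator -/
noncomputable def dia (S : ∀ b, H b →L[ℂ] H b) : TV H →L[ℂ] TV H :=
  ∑ b, (inc b) ∘L (S b) ∘L (prj b)

theorem dia_apply (S : ∀ b, H b →L[ℂ] H b) (v : TV H) (b : 𝔅) : (dia S v) b = S b (v b) := by
  have : dia S v = ∑ b, inc b (S b (v b)) := by
    simp [dia, prj_apply]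
  rw [this, WithLp.ofLp_sum, Finset.sum_apply, Finset.sum_eq_single b]
  · exact inc_same b _
  · intro b' _ hb'
    exact inc_ne (Ne.symm hb') _
  · intro h; exact absurd (Finset.mem_univ b) h

theorem dia_inc (S : ∀ b, H b →L[ℂ] H b) (b : 𝔅) (w : H b) : dia S (inc b w) = inc b (S b w) := by
  ext b'
  rw [dia_apply]
  by_cases h : b' = b
  · subst h; rw [inc_same, inc_same]
  · rw [inc_ne h, inc_ne h, map_zero]

theorem Int.dia (S : ∀ b, H b →L[ℂ] H b) (b : 𝔅) : Int b (dia S) (S b) :=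
  ⟨fun w => dia_inc S b w, fun v => dia_apply S v b⟩

theorem norm_sq_eq (v : TV H) : ‖v‖ ^ 2 = ∑ b, ‖v b‖ ^ 2 := PiLp.norm_sq_eq_of_L2 _ _

theorem norm_dia_le {S : ∀ b, H b →L[ℂ] H b} (h : ∀ b, ‖S b‖ ≤ 1) : ‖dia S‖ ≤ 1 := by
  refine ContinuousLinearMap.opNorm_le_bound _ zero_le_one fun v => ?_
  rw [one_mul]
  have : ‖dia S v‖ ^ 2 ≤ ‖v‖ ^ 2 := by
    rw [norm_sq_eq, norm_sq_eq]
    refine Finset.sum_le_sum fun b _ => ?_
    rw [dia_apply]
    have h1 := (ContinuousLinearMap.le_opNorm (S b) (v b)).trans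
      (mul_le_mul_of_nonneg_right (h b) (norm_nonneg _))
    rw [one_mul] at h1
    exact pow_le_pow_left₀ (norm_nonneg _) h1 2
  exact (pow_le_pow_iff_left₀ (norm_nonneg _) (norm_nonneg _) two_ne_zero).1 this

theorem norm_sq_comb (P : 𝔅 → Prop) [DecidablePred P] {M : ℕ} {τ : Fin M → 𝔅}
    (hτ : Function.Injective τ) (hP : ∀ m, ¬ P (τ m)) (w : ∀ b, H b) (s : ∀ m, H (τ m))
    (a : Fin M → ℂ) :
    ‖(∑ b, inc b (if P b then w b else 0)) + ∑ m, a m • (inc (τ m) (s m) : TV H)‖ ^ 2 =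
      (∑ b, ‖(if P b then w b else 0 : H b)‖ ^ 2) + ∑ m, ‖a m‖ ^ 2 * ‖s m‖ ^ 2 := by
  set A : TV H := ∑ b, inc b (if P b then w b else 0) with hA
  set B : TV H := ∑ m, a m • (inc (τ m) (s m) : TV H) with hB
  have hAb : ∀ b, A b = if P b then w b else 0 := by
    intro b
    rw [hA, WithLp.ofLp_sum, Finset.sum_apply, Finset.sum_eq_single b]
    · exact inc_same b _
    · intro b' _ hb'
      exact inc_ne (Ne.symm hb') _
    · intro h; exact absurd (Finset.mem_univ b) h
  have hAB : inner ℂ A B = 0 := by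
    rw [hB, inner_sum]
    refine Finset.sum_eq_zero fun m _ => ?_
    rw [inner_smul_right, ← inner_conj_symm, inner_inc, hAb, if_neg (hP m), inner_zero_right,
      map_zero, mul_zero]
  have hsq : ‖A + B‖ ^ 2 = ‖A‖ ^ 2 + ‖B‖ ^ 2 := by
    have := @norm_add_sq ℂ (TV H) _ _ _ A B
    rw [this, hAB]
    simp
  have hBn : ‖B‖ ^ 2 = ∑ m, ‖a m‖ ^ 2 * ‖s m‖ ^ 2 := by
    have h1 : inner ℂ B B = ((∑ m, ‖a m‖ ^ 2 * ‖s m‖ ^ 2 : ℝ) : ℂ) := by
      rw [hB, sum_inner]
      push_cast
      refine Finset.sum_congr rfl fun m _ => ?_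
      rw [inner_smul_left, inner_sum, Finset.sum_eq_single m]
      · rw [inner_smul_right, inner_inc, inc_same, inner_self_eq_norm_sq_to_K, ← mul_assoc,
          mul_comm ((starRingEnd ℂ) (a m)) (a m), Complex.mul_conj, Complex.normSq_eq_norm_sq]
        push_cast; rfl
      · intro m' _ hm'
        rw [inner_smul_right, inner_inc, inc_ne (fun h => hm' (hτ h).symm), inner_zero_right,
          mul_zero]
      · intro h; exact absurd (Finset.mem_univ m) h
    rw [inner_self_eq_norm_sq_to_K] at h1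
    refine Complex.ofReal_injective ?_
    rw [← h1]
    push_cast
    rfl
  rw [hsq, hBn, norm_sq_eq]
  simp only [hAb]

end Asm

open Asm

/-- Input of the gluing construction. -/
structure Glue (X : Type) [TopologicalSpace X] {𝔅 : Type} [Fintype 𝔅] [DecidableEq 𝔅]
    (H : 𝔅 → Type) [∀ b, NormedAddCommGroup (H b)] [∀ b, InnerProductSpace ℂ (H b)]
    [∀ b, CompleteSpace (H b)] where
  F : Set Tm
  ρ : ∀ b, Rep (H b →L[ℂ] H b)
  pure : 𝔅 → Set Tm
  M : Tm → ℕ
  τ : ∀ q, Fin (M q) → 𝔅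
  u : ∀ q (m : Fin (M q)), H (τ q m)
  y : ∀ q, ℕ → Fin (M q) → C(X, TV H)
  pure_of_not : ∀ q b, q ∉ F → q ∈ pure b
  pure_sub : ∀ q b, q ∈ F → q ∈ pure b → sub q ⊆ pure b
  sat : ∀ q b, q ∈ F → q ∈ pure b → Rep.Sat kap (ρ b) q
  kap_pos : ∀ q ∈ F, 0 < kap q
  τ_inj : ∀ q ∈ F, Function.Injective (τ q)
  u_norm : ∀ q ∈ F, ∀ m, ‖u q m‖ ≤ 1
  u_ev : ∀ q ∈ F, ∀ m, ‖(ρ (τ q m)).ev q (u q m)‖ = 1
  τ_sub : ∀ q ∈ F, ∀ m, sub q ⊆ pure (τ q m)
  τ_not : ∀ q ∈ F, ∀ m, q ∉ pure (τ q m)
  frame : ∀ q ∈ F, ∀ z v, ∑ j ∈ Finset.range (kap q), ∑ m, ‖inner ℂ (y q j m z) v‖ ^ 2 = ‖v‖ ^ 2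

namespace Glue

variable {X : Type} [TopologicalSpace X] {𝔅 : Type} [Fintype 𝔅] [DecidableEq 𝔅]
    {H : 𝔅 → Type} [∀ b, NormedAddCommGroup (H b)] [∀ b, InnerProductSpace ℂ (H b)]
    [∀ b, CompleteSpace (H b)] (G : Glue X H)

open Classical in
/-- projection to the blocks which are not pure for `q` -/
noncomputable def Pimp (q : Tm) : TV H →L[ℂ] TV H :=
  dia (fun b => if q ∈ G.pure b then 0 else 1)

open Classical in
/-- the glued operators -/
noncomputable def op (q : Tm) (j : ℕ) (z : X) : TV H →L[ℂ] TV H :=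
  dia (fun b => if q ∈ G.pure b then (G.ρ b).R q j else 0) +
    if q ∈ G.F ∧ j < kap q then
      ∑ m, InnerProductSpace.rankOne ℂ (inc (G.τ q m) (G.u q m)) (G.Pimp q (G.y q j m z))
    else 0

theorem continuous_op (q : Tm) (j : ℕ) : Continuous (G.op q j) := by
  unfold op
  refine continuous_const.add ?_
  split_ifs
  · refine continuous_finsetSum _ fun m _ => ?_
    have h1 : Continuous (fun z => G.Pimp q (G.y q j m z)) :=
      (G.Pimp q).continuous.comp (G.y q j m).continuous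
    exact (ContinuousLinearMap.continuous _).comp h1
  · exact continuous_const

theorem inner_Pimp (q : Tm) (v w : TV H) : inner ℂ (G.Pimp q v) w = inner ℂ v (G.Pimp q w) := by
  classical
  rw [PiLp.inner_apply, PiLp.inner_apply]
  refine Finset.sum_congr rfl fun b _ => ?_
  rw [Pimp, dia_apply, dia_apply]
  split_ifs <;> simp

open Classical in
theorem op_apply_of_mem {q : Tm} {j : ℕ} (hq : q ∈ G.F) (hj : j < kap q) (z : X) (v : TV H) :
    G.op q j z v = (∑ b, inc b (if q ∈ G.pure b then (G.ρ b).R q j (v b) else 0)) +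
      ∑ m, (inner ℂ (G.y q j m z) (G.Pimp q v)) • (inc (G.τ q m) (G.u q m) : TV H) := by
  rw [op, if_pos ⟨hq, hj⟩, add_apply, sum_apply]
  congr 1
  · rw [← sum_inc (dia _ v)]
    refine Finset.sum_congr rfl fun b _ => ?_
    rw [dia_apply]
    split_ifs <;> simp
  · refine Finset.sum_congr rfl fun m _ => ?_
    rw [InnerProductSpace.rankOne_apply, inner_Pimp]

theorem int_op {q : Tm} {b : 𝔅} (hb : q ∈ G.pure b) (j : ℕ) (z : X) :
    Int b (G.op q j z) ((G.ρ b).R q j) := by
  classical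
  have hd := Int.dia (fun b => if q ∈ G.pure b then (G.ρ b).R q j else 0) b
  simp only [if_pos hb] at hd
  by_cases h : q ∈ G.F ∧ j < kap q
  · have hP : ∀ w, G.Pimp q (inc b w) = 0 := by
      intro w
      rw [Pimp, dia_inc, if_pos hb]
      simp
    refine ⟨fun w => ?_, fun v => ?_⟩
    · rw [op, if_pos h, add_apply, hd.1, sum_apply, Finset.sum_eq_zero, add_zero]
      intro m _
      rw [InnerProductSpace.rankOne_apply, inner_Pimp, hP, inner_zero_right, zero_smul]
    · change prj b (G.op q j z v) = _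
      rw [op, if_pos h, add_apply, map_add, sum_apply, map_sum, Finset.sum_eq_zero, add_zero]
      · exact hd.2 v
      intro m _
      rw [InnerProductSpace.rankOne_apply, map_smul]
      have hne : b ≠ G.τ q m := by
        rintro rfl
        exact G.τ_not q h.1 m hb
      change _ • (inc (G.τ q m) (G.u q m) : TV H) b = 0
      rw [inc_ne hne, smul_zero]
  · rw [op, if_neg h, add_zero]
    exact hd

open Classical in
theorem sum_pure_add_imp (q : Tm) (v : TV H) :
    (∑ b, if q ∈ G.pure b then ‖v b‖ ^ 2 else 0) + ‖G.Pimp q v‖ ^ 2 = ‖v‖ ^ 2 := by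
  rw [norm_sq_eq, norm_sq_eq, ← Finset.sum_add_distrib]
  refine Finset.sum_congr rfl fun b _ => ?_
  rw [Pimp, dia_apply]
  split_ifs <;> simp

theorem norm_op_le (q : Tm) (j : ℕ) (z : X) : ‖G.op q j z‖ ≤ 1 := by
  classical
  by_cases h : q ∈ G.F ∧ j < kap q
  · refine ContinuousLinearMap.opNorm_le_bound _ zero_le_one fun v => ?_
    rw [one_mul]
    have key : ‖G.op q j z v‖ ^ 2 ≤ ‖v‖ ^ 2 := by
      rw [G.op_apply_of_mem h.1 h.2, norm_sq_comb (fun b => q ∈ G.pure b) (G.τ_inj q h.1)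
        (G.τ_not q h.1) (fun b => (G.ρ b).R q j (v b)) (G.u q), ← G.sum_pure_add_imp q v]
      refine add_le_add (Finset.sum_le_sum fun b _ => ?_) ?_
      · split_ifs with hb
        · have h1 := (ContinuousLinearMap.le_opNorm ((G.ρ b).R q j) (v b)).trans
            (mul_le_mul_of_nonneg_right ((G.ρ b).hR q j) (norm_nonneg _))
          rw [one_mul] at h1
          exact pow_le_pow_left₀ (norm_nonneg _) h1 2
        · simp
      · rw [← G.frame q h.1 z (G.Pimp q v)]
        refine (Finset.sum_le_sum fun m _ => ?_).trans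
          (Finset.single_le_sum (f := fun j => ∑ m, ‖inner ℂ (G.y q j m z) (G.Pimp q v)‖ ^ 2)
            (fun j _ => Finset.sum_nonneg fun m _ => by positivity) (Finset.mem_range.2 h.2))
        have := G.u_norm q h.1 m
        have h2 : ‖G.u q m‖ ^ 2 ≤ 1 := pow_le_one₀ (norm_nonneg _) this
        nlinarith [sq_nonneg ‖inner ℂ (G.y q j m z) (G.Pimp q v)‖]
    exact (pow_le_pow_iff_left₀ (norm_nonneg _) (norm_nonneg _) two_ne_zero).1 key
  · rw [op, if_neg h, add_zero]
    refine norm_dia_le fun b => ?_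
    split_ifs
    · exact (G.ρ b).hR q j
    · simp

variable [CompactSpace X]

/-- The glued representation. -/
noncomputable def rep : Rep C(X, TV H →L[ℂ] TV H) where
  X h := ContinuousMap.const X (dia (fun b => (G.ρ b).X h))
  R q j := ⟨G.op q j, G.continuous_op q j⟩
  hX h := by
    rw [ContinuousMap.norm_le _ zero_le_one]
    exact fun z => norm_dia_le fun b => (G.ρ b).hX h
  hR q j := by
    rw [ContinuousMap.norm_le _ zero_le_one]
    exact fun z => G.norm_op_le q j z

theorem int_ev {b : 𝔅} (t : Tm) (ht : sub t ⊆ G.pure b) (z : X) :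
    Int b (G.rep.ev t z) ((G.ρ b).ev t) := by
  induction t with
  | x h => exact Int.dia (fun b => (G.ρ b).X h) b
  | c a a' => exact Int.algebraMap b _
  | add s t hs ht' =>
    exact (hs (Set.subset_union_left.trans ht)).add (ht' (Set.subset_union_right.trans ht))
  | mul s t hs ht' =>
    exact (hs (Set.subset_union_left.trans ht)).mul (ht' (Set.subset_union_right.trans ht))
  | st t ht' => exact (ht' ht).star
  | r q j hq => exact G.int_op (ht (Set.mem_insert _ _)) j z

theorem sat_rep {q : Tm} (hq : q ∈ G.F) : Rep.Sat kap G.rep q := by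
  classical
  intro hpos
  constructor
  · ext1 z
    have h1 : (∑ j ∈ Finset.range (kap q), star (G.rep.R q j) * (star (G.rep.ev q) * G.rep.ev q) *
        G.rep.R q j) z = ∑ j ∈ Finset.range (kap q), star (G.op q j z) *
        (star (G.rep.ev q z) * G.rep.ev q z) * G.op q j z := by
      rw [ContinuousMap.sum_apply]
      rfl
    rw [h1]
    change _ = (1 : TV H →L[ℂ] TV H)
    rw [sum_eq_one_iff]
    intro v
    have h2 : ∀ j ∈ Finset.range (kap q), ‖G.rep.ev q z (G.op q j z v)‖ ^ 2 =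
        (∑ b, ‖(if q ∈ G.pure b then (G.ρ b).ev q ((G.ρ b).R q j (v b)) else 0 : H b)‖ ^ 2) +
        ∑ m, ‖inner ℂ (G.y q j m z) (G.Pimp q v)‖ ^ 2 := by
      intro j hj
      rw [Finset.mem_range] at hj
      have e : G.rep.ev q z (G.op q j z v) =
          (∑ b, inc b (if q ∈ G.pure b then (G.ρ b).ev q ((G.ρ b).R q j (v b)) else 0)) +
          ∑ m, (inner ℂ (G.y q j m z) (G.Pimp q v)) •
            (inc (G.τ q m) ((G.ρ (G.τ q m)).ev q (G.u q m)) : TV H) := by
        rw [G.op_apply_of_mem hq hj, map_add, map_sum, map_sum]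
        congr 1
        · refine Finset.sum_congr rfl fun b _ => ?_
          split_ifs with hb
          · rw [(G.int_ev q (G.pure_sub q b hq hb) z).1]
          · rw [map_zero, map_zero]
        · refine Finset.sum_congr rfl fun m _ => ?_
          rw [map_smul, (G.int_ev q (G.τ_sub q hq m) z).1]
      rw [e, norm_sq_comb (fun b => q ∈ G.pure b) (G.τ_inj q hq) (G.τ_not q hq)]
      congr 1
      refine Finset.sum_congr rfl fun m _ => ?_
      rw [G.u_ev q hq m]
      ring
    rw [Finset.sum_congr rfl h2, Finset.sum_add_distrib, G.frame q hq z, Finset.sum_comm,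
      ← G.sum_pure_add_imp q v]
    congr 1
    refine Finset.sum_congr rfl fun b _ => ?_
    split_ifs with hb
    · exact (sum_eq_one_iff _ _ _).1 (G.sat q b hq hb hpos).1 (v b)
    · simp
  · rw [ContinuousMap.norm_le _ zero_le_one]
    intro z
    have h1 : (∑ j ∈ Finset.range (kap q), star (G.rep.R q j) *
        G.rep.R q j) z = ∑ j ∈ Finset.range (kap q), star (G.op q j z) * G.op q j z := by
      rw [ContinuousMap.sum_apply]
      rfl
    rw [h1, norm_sum_le_one_iff]
    intro v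
    have h2 : ∀ j ∈ Finset.range (kap q), ‖G.op q j z v‖ ^ 2 ≤
        (∑ b, ‖(if q ∈ G.pure b then (G.ρ b).R q j (v b) else 0 : H b)‖ ^ 2) +
        ∑ m, ‖inner ℂ (G.y q j m z) (G.Pimp q v)‖ ^ 2 := by
      intro j hj
      rw [Finset.mem_range] at hj
      rw [G.op_apply_of_mem hq hj, norm_sq_comb (fun b => q ∈ G.pure b) (G.τ_inj q hq)
        (G.τ_not q hq) (fun b => (G.ρ b).R q j (v b)) (G.u q)]
      refine add_le_add le_rfl (Finset.sum_le_sum fun m _ => ?_)
      have := G.u_norm q hq m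
      have h3 : ‖G.u q m‖ ^ 2 ≤ 1 := pow_le_one₀ (norm_nonneg _) this
      nlinarith [sq_nonneg ‖inner ℂ (G.y q j m z) (G.Pimp q v)‖]
    refine (Finset.sum_le_sum h2).trans ?_
    rw [Finset.sum_add_distrib, G.frame q hq z, Finset.sum_comm, ← G.sum_pure_add_imp q v]
    refine add_le_add (Finset.sum_le_sum fun b _ => ?_) le_rfl
    split_ifs with hb
    · exact (norm_sum_le_one_iff _ _).1 (G.sat q b hq hb hpos).2 (v b)
    · simp

/-- Block scalars. -/
noncomputable def scal (H : 𝔅 → Type) [∀ b, NormedAddCommGroup (H b)]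
    [∀ b, InnerProductSpace ℂ (H b)] [∀ b, CompleteSpace (H b)] (θ : 𝔅 → ℂ) :
    TV H →L[ℂ] TV H := dia (fun b => θ b • (1 : H b →L[ℂ] H b))

omit [CompactSpace X] in
theorem scal_apply (θ : 𝔅 → ℂ) (v : TV H) (b : 𝔅) : (scal H θ v) b = θ b • v b := by
  rw [scal, dia_apply]
  simp

theorem scal_mul (θ θ' : 𝔅 → ℂ) (h : ∀ b, θ b * θ' b = 1) : scal H θ * scal H θ' = 1 := by
  refine ContinuousLinearMap.ext fun v => ?_
  ext b
  change (scal H θ (scal H θ' v)) b = v b
  rw [scal_apply, scal_apply, smul_smul, h, one_smul]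

theorem star_scal (θ : 𝔅 → ℂ) : star (scal H θ) = scal H (fun b => starRingEnd ℂ (θ b)) := by
  refine ContinuousLinearMap.ext fun v => ?_
  refine ext_inner_left ℂ fun w => ?_
  rw [ContinuousLinearMap.star_eq_adjoint, ContinuousLinearMap.adjoint_inner_right,
    PiLp.inner_apply, PiLp.inner_apply]
  refine Finset.sum_congr rfl fun b _ => ?_
  rw [scal_apply, scal_apply, inner_smul_left, inner_smul_right]

theorem dia_scal (S : ∀ b, H b →L[ℂ] H b) (θ : 𝔅 → ℂ) : dia S * scal H θ = scal H θ * dia S := by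
  refine ContinuousLinearMap.ext fun v => ?_
  ext b
  change (dia S (scal H θ v)) b = (scal H θ (dia S v)) b
  rw [dia_apply, scal_apply, scal_apply, dia_apply, map_smul]

theorem scal_inc (θ : 𝔅 → ℂ) (b : 𝔅) (w : H b) : scal H θ (inc b w) = θ b • inc b w := by
  rw [scal, dia_inc]
  simp

/-- Equivariance of the glued representation. -/
theorem ev_equivariant (θ : 𝔅 → ℂ) (hθ : ∀ b, ‖θ b‖ = 1) (l : ℂ) (hl : ‖l‖ = 1) (z w : X)
    (hτ : ∀ q ∈ G.F, ∀ m, θ (G.τ q m) = l)
    (hy : ∀ q ∈ G.F, ∀ j < kap q, ∀ m b, (G.y q j m w) b =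
      (starRingEnd ℂ l * θ b) • (G.y q j m z) b) (t : Tm) :
    G.rep.ev t w * scal H θ = scal H θ * G.rep.ev t z := by
  have hθ1 : ∀ b, θ b * starRingEnd ℂ (θ b) = 1 := by
    intro b
    rw [Complex.mul_conj, Complex.normSq_eq_norm_sq, hθ b]
    norm_num
  have hl1 : l * starRingEnd ℂ l = 1 := by
    rw [Complex.mul_conj, Complex.normSq_eq_norm_sq, hl]
    norm_num
  induction t with
  | x h => exact dia_scal _ _
  | c a a' =>
    change algebraMap ℂ (TV H →L[ℂ] TV H) _ * _ = _ * algebraMap ℂ (TV H →L[ℂ] TV H) _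
    exact Algebra.commutes _ _
  | add s t hs ht =>
    change (G.rep.ev s w + G.rep.ev t w) * _ = _ * (G.rep.ev s z + G.rep.ev t z)
    rw [add_mul, mul_add, hs, ht]
  | mul s t hs ht =>
    change (G.rep.ev s w * G.rep.ev t w) * _ = _ * (G.rep.ev s z * G.rep.ev t z)
    rw [mul_assoc, ht, ← mul_assoc, hs, mul_assoc]
  | st t ht =>
    change star (G.rep.ev t w) * _ = _ * star (G.rep.ev t z)
    have h1 := congrArg star ht
    rw [star_mul, star_mul, star_scal] at h1
    have h2 : scal H θ * scal H (fun b => starRingEnd ℂ (θ b)) = 1 := scal_mul _ _ hθ1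
    have h3 : scal H (fun b => starRingEnd ℂ (θ b)) * scal H θ = 1 :=
      scal_mul _ _ fun b => by rw [mul_comm]; exact hθ1 b
    calc star (G.rep.ev t w) * scal H θ
        = scal H θ * (scal H (fun b => starRingEnd ℂ (θ b)) * star (G.rep.ev t w)) *
          scal H θ := by rw [← mul_assoc, h2, one_mul]
      _ = scal H θ * star (G.rep.ev t z) := by
          rw [h1, mul_assoc, mul_assoc, h3, mul_one]
  | r q j hq =>
    change G.op q j w * _ = _ * G.op q j z
    by_cases h : q ∈ G.F ∧ j < kap q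
    · unfold op
      rw [if_pos h, if_pos h, add_mul, mul_add, dia_scal]
      congr 1
      rw [Finset.sum_mul, Finset.mul_sum]
      refine Finset.sum_congr rfl fun m _ => ?_
      refine ContinuousLinearMap.ext fun v => ?_
      change InnerProductSpace.rankOne ℂ _ _ (scal H θ v) =
        scal H θ (InnerProductSpace.rankOne ℂ _ _ v)
      rw [InnerProductSpace.rankOne_apply, InnerProductSpace.rankOne_apply, map_smul, scal_inc,
        hτ q h.1 m, smul_smul, inner_Pimp, inner_Pimp]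
      congr 1
      have e1 : G.y q j m w = (starRingEnd ℂ l) • scal H θ (G.y q j m z) := by
        ext b
        change (G.y q j m w) b = (starRingEnd ℂ l) • (scal H θ (G.y q j m z)) b
        rw [hy q h.1 j h.2 m b, scal_apply, smul_smul]
      have e2 : G.Pimp q (scal H θ v) = scal H θ (G.Pimp q v) :=
        congrArg (fun T : TV H →L[ℂ] TV H => T v) (dia_scal _ θ)
      rw [e1, e2, inner_smul_left, starRingEnd_self_apply]
      have e3 : inner ℂ (scal H θ (G.y q j m z)) (scal H θ (G.Pimp q v)) =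
          inner ℂ (G.y q j m z) (G.Pimp q v) := by
        rw [PiLp.inner_apply, PiLp.inner_apply]
        refine Finset.sum_congr rfl fun b _ => ?_
        rw [scal_apply, scal_apply, inner_smul_left, inner_smul_right, ← mul_assoc,
          mul_comm (starRingEnd ℂ (θ b)), hθ1, one_mul]
      rw [e3, mul_comm]
    · unfold op
      rw [if_neg h, if_neg h, add_zero, dia_scal]

end Glue

end Pool.Agent.Lib.MP_1cc3c1_an
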