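import Pool.Agent.Lib.MP_1cc3c1_an.Sphere
import Pool.Agent.Lib.MP_591455_an.Brouwer

/-!
The Borsuk-Ulam theorem for the circle group: a continuous circle equivariant map from the
sphere of complex dimension n + 1 to the complex space of dimension n has a zero.
-/

open Metric Set Topology Filter Module
open scoped ContDiff

namespace Pool.Agent.Lib.MP_1cc3c1_an

namespace BUAux

/-- Brouwer fixed point theorem for the closed unit ball of a complex space. -/
theorem brouwerC {n : ℕ}
    {F : EuclideanSpace ℂ (Fin (n + 1)) → EuclideanSpace ℂ (Fin (n + 1))}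
    (hc : Continuous F) (hm : ∀ x, ‖F x‖ ≤ 1) :
    ∃ x, ‖x‖ ≤ 1 ∧ F x = x := by
  let _ : InnerProductSpace ℝ (EuclideanSpace ℂ (Fin (n + 1))) := InnerProductSpace.complexToReal
  have _ : FiniteDimensional ℝ (EuclideanSpace ℂ (Fin (n + 1))) :=
    FiniteDimensional.complexToReal _
  let L := (stdOrthonormalBasis ℝ (EuclideanSpace ℂ (Fin (n + 1)))).repr
  have hd : 1 ≤ finrank ℝ (EuclideanSpace ℂ (Fin (n + 1))) := by
    have : 0 < finrank ℝ (EuclideanSpace ℂ (Fin (n + 1))) := finrank_pos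
    omega
  obtain ⟨y, hy, hy2⟩ := Pool.Agent.Lib.MP_591455_an.brouwer hd (F := fun y => L (F (L.symm y)))
    (L.continuous.comp (hc.comp L.symm.continuous)).continuousOn (by
      intro y hy
      rw [mem_closedBall, dist_zero_right]
      simpa using hm (L.symm y))
  refine ⟨L.symm y, ?_, ?_⟩
  · rw [mem_closedBall, dist_zero_right] at hy
    simpa using hy
  · apply L.injective
    rw [hy2]
    simp

/-- For every point there is a cap on which the twisted value of the point is close to F. -/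
theorem exists_cap {n : ℕ} (F : C(Sph n, EuclideanSpace ℂ (Fin n)))
    (hF : ∀ (l : ℂ) (z w : Sph n), ‖l‖ = 1 →
      (w : EuclideanSpace ℂ (Fin (n + 1))) = l • (z : EuclideanSpace ℂ (Fin (n + 1))) →
      F w = l • F z) (h0 : ∀ z, F z ≠ 0) (u : Sph n) :
    ∃ c : ℝ, c < 1 ∧ ∀ z : Sph n,
      c < ‖inner ℂ (u : EuclideanSpace ℂ (Fin (n + 1))) (z : EuclideanSpace ℂ (Fin (n + 1)))‖ ^ 2 →
      0 < (inner ℂ (F z) (inner ℂ (u : EuclideanSpace ℂ (Fin (n + 1)))
        (z : EuclideanSpace ℂ (Fin (n + 1))) • F u)).re := by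
  set K : Set (Sph n) := {z | (inner ℂ (F z) (inner ℂ (u : EuclideanSpace ℂ (Fin (n + 1)))
        (z : EuclideanSpace ℂ (Fin (n + 1))) • F u)).re ≤ 0} with hK
  have hcK : IsCompact K := by
    apply IsClosed.isCompact
    apply isClosed_le _ continuous_const
    fun_prop
  have hcont : Continuous (fun z : Sph n => ‖inner ℂ (u : EuclideanSpace ℂ (Fin (n + 1)))
      (z : EuclideanSpace ℂ (Fin (n + 1)))‖ ^ 2) := by
    fun_prop
  rcases K.eq_empty_or_nonempty with hKe | hKn
  · refine ⟨0, one_pos, fun z _ => ?_⟩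
    by_contra hz
    have : z ∈ K := not_lt.1 hz
    rw [hKe] at this
    exact this
  · obtain ⟨z0, hz0, hmax⟩ := hcK.exists_isMaxOn hKn hcont.continuousOn
    refine ⟨‖inner ℂ (u : EuclideanSpace ℂ (Fin (n + 1)))
      (z0 : EuclideanSpace ℂ (Fin (n + 1)))‖ ^ 2, ?_, ?_⟩
    · by_contra hge
      push Not at hge
      have hun : ‖(u : EuclideanSpace ℂ (Fin (n + 1)))‖ = 1 := by
        simp
      have hzn : ‖(z0 : EuclideanSpace ℂ (Fin (n + 1)))‖ = 1 := by
        simp
      set l : ℂ := inner ℂ (u : EuclideanSpace ℂ (Fin (n + 1)))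
        (z0 : EuclideanSpace ℂ (Fin (n + 1))) with hl
      have hle : ‖l‖ ≤ 1 := by
        have := norm_inner_le_norm (𝕜 := ℂ) (u : EuclideanSpace ℂ (Fin (n + 1)))
          (z0 : EuclideanSpace ℂ (Fin (n + 1)))
        rwa [hun, hzn, one_mul] at this
      have hl1 : ‖l‖ = 1 := by
        nlinarith [norm_nonneg l]
      have hzl : (z0 : EuclideanSpace ℂ (Fin (n + 1))) =
          l • (u : EuclideanSpace ℂ (Fin (n + 1))) := by
        have hne : (u : EuclideanSpace ℂ (Fin (n + 1))) ≠ 0 := by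
          intro h; rw [h, norm_zero] at hun; exact zero_ne_one hun
        have := (norm_inner_eq_norm_tfae ℂ (u : EuclideanSpace ℂ (Fin (n + 1)))
          (z0 : EuclideanSpace ℂ (Fin (n + 1)))).out 0 1
        have h2 := (this.1 (by rw [hun, hzn, one_mul]; exact hl1)).resolve_left hne
        rw [h2, ← hl]
        rw [inner_self_eq_norm_sq_to_K, hun]
        simp
      have hFz := hF l u z0 hl1 hzl
      have hz0' : (inner ℂ (F z0) (l • F u)).re ≤ 0 := hz0
      rw [← hFz, inner_self_eq_norm_sq_to_K] at hz0'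
      have : 0 < ‖F z0‖ := norm_pos_iff.2 (h0 z0)
      have h3 : (((‖F z0‖ : ℂ)) ^ 2).re = ‖F z0‖ ^ 2 := by
        rw [← Complex.ofReal_pow, Complex.ofReal_re]
      have h4 : (((‖F z0‖ : ℂ)) ^ 2).re ≤ 0 := hz0'
      rw [h3] at h4
      have : 0 < ‖F z0‖ ^ 2 := by positivity
      linarith
    · intro z hz
      by_contra hz2
      have hzK : z ∈ K := not_lt.1 hz2
      exact absurd (hmax hzK) (not_le.2 hz)

/-- Smoothing of an equivariant map without zeros. -/
theorem smoothing {n : ℕ} (F : C(Sph n, EuclideanSpace ℂ (Fin n)))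
    (hF : ∀ (l : ℂ) (z w : Sph n), ‖l‖ = 1 →
      (w : EuclideanSpace ℂ (Fin (n + 1))) = l • (z : EuclideanSpace ℂ (Fin (n + 1))) →
      F w = l • F z) (h0 : ∀ z, F z ≠ 0) :
    ∃ g : (Fin (n + 1) → ℂ) → (Fin n → ℂ), ContDiff ℝ 1 g ∧
      (∀ (l : ℂ) (z : Fin (n + 1) → ℂ), ‖l‖ = 1 → g (l • z) = l • g z) ∧
      ∀ z : Fin (n + 1) → ℂ, ∑ i, ‖z i‖ ^ 2 = 1 → g z ≠ 0 := by
  choose c hc1 hc using exists_cap F hF h0
  have hcov : ∀ u : Sph n, {z : Sph n | c u < ‖inner ℂ (u : EuclideanSpace ℂ (Fin (n + 1)))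
      (z : EuclideanSpace ℂ (Fin (n + 1)))‖ ^ 2} ∈ 𝓝 u := by
    intro u
    have hcont : Continuous (fun z : Sph n => ‖inner ℂ (u : EuclideanSpace ℂ (Fin (n + 1)))
      (z : EuclideanSpace ℂ (Fin (n + 1)))‖ ^ 2) := by
      fun_prop
    refine (isOpen_lt continuous_const hcont).mem_nhds ?_
    have hun : ‖(u : EuclideanSpace ℂ (Fin (n + 1)))‖ = 1 := by
      simp
    show c u < _
    rw [inner_self_eq_norm_sq_to_K, hun]
    simpa using hc1 u
  obtain ⟨t, ht⟩ := (isCompact_univ (X := Sph n)).elim_nhds_subcover _ (fun u _ => hcov u)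
  have ht' : ∀ z : Sph n, ∃ u ∈ t, c u < ‖inner ℂ (u : EuclideanSpace ℂ (Fin (n + 1)))
      (z : EuclideanSpace ℂ (Fin (n + 1)))‖ ^ 2 := by
    intro z
    have := ht.2 (mem_univ z)
    simpa using this
  let p : Sph n → (Fin (n + 1) → ℂ) → ℂ := fun u z =>
    ∑ i, z i * (starRingEnd ℂ) ((u : EuclideanSpace ℂ (Fin (n + 1))) i)
  have hp : ∀ u z, p u z = inner ℂ (u : EuclideanSpace ℂ (Fin (n + 1))) (WithLp.toLp 2 z) := by
    intro u z
    rw [PiLp.inner_apply]
    simp [p]
  have hpl : ∀ u (l : ℂ) z, p u (l • z) = l * p u z := by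
    intro u l z
    simp only [p, Pi.smul_apply, smul_eq_mul, Finset.mul_sum, mul_assoc]
  have hpd : ∀ u, ContDiff ℝ 1 (p u) := by
    intro u
    simp only [p]
    fun_prop
  refine ⟨fun z i => ∑ u ∈ t, (expNegInvGlue ((p u z).re ^ 2 + (p u z).im ^ 2 - c u) : ℝ) •
    (p u z * (F u) i), ?_, ?_, ?_⟩
  · rw [contDiff_pi]
    intro i
    apply ContDiff.sum
    intro u _
    refine ContDiff.fun_smul ?_ ?_
    · apply (expNegInvGlue.contDiff (n := 1)).comp
      have h1 : ContDiff ℝ 1 (fun z => (p u z).re) := Complex.reCLM.contDiff.comp (hpd u)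
      have h2 : ContDiff ℝ 1 (fun z => (p u z).im) := Complex.imCLM.contDiff.comp (hpd u)
      fun_prop
    · exact (hpd u).mul contDiff_const
  · intro l z hl
    funext i
    simp only [Pi.smul_apply, smul_eq_mul, Finset.mul_sum]
    apply Finset.sum_congr rfl
    intro u _
    have h1 : (p u (l • z)).re ^ 2 + (p u (l • z)).im ^ 2 = (p u z).re ^ 2 + (p u z).im ^ 2 := by
      have e1 : ∀ a : ℂ, a.re ^ 2 + a.im ^ 2 = ‖a‖ ^ 2 := by
        intro a
        rw [← Complex.normSq_eq_norm_sq, Complex.normSq_apply]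
        ring
      rw [e1, e1, hpl, norm_mul, hl, one_mul]
    rw [h1, hpl, Complex.real_smul, Complex.real_smul]
    ring
  · intro z hz hg
    have e1 : ∀ a : ℂ, a.re ^ 2 + a.im ^ 2 = ‖a‖ ^ 2 := by
      intro a
      rw [← Complex.normSq_eq_norm_sq, Complex.normSq_apply]
      ring
    have hz1 : WithLp.toLp 2 z ∈ Metric.sphere (0 : EuclideanSpace ℂ (Fin (n + 1))) 1 := by
      rw [mem_sphere, dist_zero_right, EuclideanSpace.norm_eq]
      simp [hz]
    let zs : Sph n := ⟨WithLp.toLp 2 z, hz1⟩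
    have hzero : (inner ℂ (F zs) (∑ u ∈ t, (expNegInvGlue ((p u z).re ^ 2 + (p u z).im ^ 2 - c u) : ℝ) •
      (p u z • F u))).re = 0 := by
      have : (∑ u ∈ t, (expNegInvGlue ((p u z).re ^ 2 + (p u z).im ^ 2 - c u) : ℝ) •
        (p u z • F u)) = 0 := by
        ext i
        have := congrFun hg i
        simpa using this
      rw [this]
      simp
    rw [inner_sum, Complex.re_sum] at hzero
    have hterm : ∀ u ∈ t, (inner ℂ (F zs)
        ((expNegInvGlue ((p u z).re ^ 2 + (p u z).im ^ 2 - c u) : ℝ) • (p u z • F u))).re =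
        expNegInvGlue (‖p u z‖ ^ 2 - c u) * (inner ℂ (F zs) (p u z • F u)).re := by
      intro u _
      rw [e1]
      have : (expNegInvGlue (‖p u z‖ ^ 2 - c u) : ℝ) • (p u z • F u) =
        ((expNegInvGlue (‖p u z‖ ^ 2 - c u) : ℝ) : ℂ) • (p u z • F u) := by
        ext i
        simp
      rw [this, inner_smul_right, Complex.re_ofReal_mul]
    rw [Finset.sum_congr rfl hterm] at hzero
    have hnn : ∀ u ∈ t, 0 ≤ expNegInvGlue (‖p u z‖ ^ 2 - c u) * (inner ℂ (F zs) (p u z • F u)).re := by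
      intro u _
      rcases le_or_gt (‖p u z‖ ^ 2 - c u) 0 with h | h
      · rw [expNegInvGlue.zero_of_nonpos h, zero_mul]
      · apply mul_nonneg (expNegInvGlue.nonneg _)
        have := hc u zs (by
          rw [show (zs : EuclideanSpace ℂ (Fin (n + 1))) = WithLp.toLp 2 z from rfl, ← hp]
          linarith)
        rw [show (zs : EuclideanSpace ℂ (Fin (n + 1))) = WithLp.toLp 2 z from rfl, ← hp] at this
        exact this.le
    obtain ⟨u, hu, hcu⟩ := ht' zs
    have h0' := (Finset.sum_eq_zero_iff_of_nonneg hnn).1 hzero u hu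
    have hpos := hc u zs hcu
    rw [show (zs : EuclideanSpace ℂ (Fin (n + 1))) = WithLp.toLp 2 z from rfl, ← hp] at hpos hcu
    have := expNegInvGlue.pos_of_pos (sub_pos.2 hcu)
    exact absurd h0' (mul_pos this hpos).ne'

/-- The parametrization of the bad matrices (as families of columns) in the chart j. -/
noncomputable def Phi {m : ℕ} (f : (Fin (m + 1) → ℂ) → (Fin (m + 1) → ℂ)) (j : Fin (m + 1))
    (q : ℝ × (Fin m → ℂ) × (Fin m → Fin (m + 1) → ℂ)) : Fin (m + 1) → Fin (m + 1) → ℂ :=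
  j.insertNth (q.1 • f ((Real.sqrt (1 + ∑ i, ((q.2.1 i).re ^ 2 + (q.2.1 i).im ^ 2)))⁻¹ •
    (j.insertNth (1 : ℂ) q.2.1 : Fin (m + 1) → ℂ)) - ∑ i, q.2.1 i • q.2.2 i) q.2.2

theorem contDiff_insertNth {m : ℕ} {X Y : Type*} [NormedAddCommGroup X] [NormedSpace ℝ X]
    [NormedAddCommGroup Y] [NormedSpace ℝ Y] (j : Fin (m + 1)) {a : X → Y} {b : X → Fin m → Y}
    (ha : ContDiff ℝ 1 a) (hb : ContDiff ℝ 1 b) :
    ContDiff ℝ 1 (fun x => (j.insertNth (a x) (b x) : Fin (m + 1) → Y)) := by
  rw [contDiff_pi]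
  intro i
  rcases Fin.eq_self_or_eq_succAbove j i with rfl | ⟨k, rfl⟩
  · simpa using ha
  · simpa using (contDiff_pi.1 hb k)

theorem contDiff_Phi {m : ℕ} {f : (Fin (m + 1) → ℂ) → (Fin (m + 1) → ℂ)} (hf : ContDiff ℝ 1 f)
    (j : Fin (m + 1)) : ContDiff ℝ 1 (Phi f j) := by
  unfold Phi
  apply contDiff_insertNth
  · apply ContDiff.sub
    · apply ContDiff.fun_smul
      · fun_prop
      · apply hf.comp
        apply ContDiff.fun_smul
        · apply ContDiff.inv
          · apply ContDiff.sqrt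
            · have h1 : ∀ i, ContDiff ℝ 1 (fun q : ℝ × (Fin m → ℂ) × (Fin m → Fin (m + 1) → ℂ) =>
                  (q.2.1 i).re) := fun i => Complex.reCLM.contDiff.comp (by fun_prop)
              have h2 : ∀ i, ContDiff ℝ 1 (fun q : ℝ × (Fin m → ℂ) × (Fin m → Fin (m + 1) → ℂ) =>
                  (q.2.1 i).im) := fun i => Complex.imCLM.contDiff.comp (by fun_prop)
              fun_prop
            · intro q
              have : 0 ≤ ∑ i, ((q.2.1 i).re ^ 2 + (q.2.1 i).im ^ 2) :=
                Finset.sum_nonneg (fun i _ => by positivity)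
              linarith
          · intro q
            have : 0 ≤ ∑ i, ((q.2.1 i).re ^ 2 + (q.2.1 i).im ^ 2) :=
              Finset.sum_nonneg (fun i _ => by positivity)
            exact (Real.sqrt_pos.2 (by linarith)).ne'
        · apply contDiff_insertNth
          · fun_prop
          · fun_prop
    · apply ContDiff.sum
      intro i _
      apply ContDiff.fun_smul
      · fun_prop
      · fun_prop
  · fun_prop

/-- A linear map near the identity which avoids the real multiples of f on the sphere. -/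
theorem exists_linear {m : ℕ} {f : (Fin (m + 1) → ℂ) → (Fin (m + 1) → ℂ)} (hf : ContDiff ℝ 1 f)
    (hl : ∀ (l : ℂ) (y : Fin (m + 1) → ℂ), ‖l‖ = 1 → f (l • y) = l • f y) :
    ∃ M : Fin (m + 1) → Fin (m + 1) → ℂ,
      (∀ (y : Fin (m + 1) → ℂ) (r : ℝ), 0 ≤ r → y ≠ 0 → ∑ i, y i • M i ≠ -(r • y)) ∧
      ∀ (y : Fin (m + 1) → ℂ) (τ : ℝ), ∑ i, ‖y i‖ ^ 2 = 1 → ∑ i, y i • M i ≠ τ • f y := by
  have hdim : dimH (⋃ j, range (Phi f j)) < finrank ℝ (Fin (m + 1) → Fin (m + 1) → ℂ) := by
    rw [dimH_iUnion]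
    have h1 : ∀ j, dimH (range (Phi f j)) ≤
        ((finrank ℝ (ℝ × (Fin m → ℂ) × (Fin m → Fin (m + 1) → ℂ)) : ℕ) : ENNReal) :=
      fun j => (contDiff_Phi hf j).dimH_range_le
    refine lt_of_le_of_lt (iSup_le h1) ?_
    rw [Nat.cast_lt]
    simp only [finrank_prod, finrank_pi_fintype, finrank_self, Complex.finrank_real_complex,
      Finset.sum_const, Finset.card_univ, Fintype.card_fin, smul_eq_mul]
    nlinarith
  have hdense := dense_compl_of_dimH_lt_finrank hdim
  set ε : ℝ := 1 / (m + 2) with hε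
  have hε0 : 0 < ε := by positivity
  obtain ⟨M, hM, hMd⟩ := hdense.exists_dist_lt (fun i => (Pi.single i 1 : Fin (m + 1) → ℂ)) hε0
  refine ⟨M, ?_, ?_⟩
  · intro y r hr hy heq
    have h1 : ∑ i, y i • (M i - (Pi.single i 1 : Fin (m + 1) → ℂ)) = -((r + 1) • y) := by
      simp only [smul_sub, Finset.sum_sub_distrib, heq]
      have : ∑ i, y i • (Pi.single i 1 : Fin (m + 1) → ℂ) = y := by
        ext k
        simp [Finset.sum_apply, Pi.single_apply]
      rw [this, add_smul, one_smul]
      abel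
    have h2 : ‖∑ i, y i • (M i - (Pi.single i 1 : Fin (m + 1) → ℂ))‖ ≤ (m + 1) * (‖y‖ * ε) := by
      calc ‖∑ i, y i • (M i - (Pi.single i 1 : Fin (m + 1) → ℂ))‖
          ≤ ∑ i, ‖y i • (M i - (Pi.single i 1 : Fin (m + 1) → ℂ))‖ := norm_sum_le _ _
        _ ≤ ∑ _i : Fin (m + 1), ‖y‖ * ε := by
            apply Finset.sum_le_sum
            intro i _
            rw [norm_smul]
            apply mul_le_mul (norm_le_pi_norm y i) _ (norm_nonneg _) (norm_nonneg _)
            have := dist_le_pi_dist (fun i => (Pi.single i 1 : Fin (m + 1) → ℂ)) M i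
            rw [dist_comm, dist_eq_norm] at this
            linarith
        _ = (m + 1) * (‖y‖ * ε) := by simp
    rw [h1, norm_neg, norm_smul, Real.norm_eq_abs, abs_of_pos (by linarith)] at h2
    have hy0 : 0 < ‖y‖ := norm_pos_iff.2 hy
    have h3 : (m + 1) * (‖y‖ * ε) < ‖y‖ := by
      have : ((m : ℝ) + 1) * ε < 1 := by
        rw [hε, mul_one_div, div_lt_one (by positivity)]
        linarith
      nlinarith
    nlinarith
  · intro y τ hy heq
    apply hM
    rw [mem_iUnion]
    obtain ⟨j, hj⟩ : ∃ j, y j ≠ 0 := by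
      by_contra hno
      push Not at hno
      simp [hno] at hy
    refine ⟨j, ?_⟩
    set t : ℝ := ‖y j‖ with ht
    have ht0 : 0 < t := norm_pos_iff.2 hj
    set l : ℂ := y j / t with hldef
    have htc : (t : ℂ) ≠ 0 := by exact_mod_cast ht0.ne'
    have hl1 : ‖l‖ = 1 := by
      rw [hldef, norm_div, Complex.norm_real, Real.norm_eq_abs, abs_of_pos ht0, ← ht,
        div_self ht0.ne']
    set w : Fin m → ℂ := fun i => y (j.succAbove i) / y j with hw
    have hsqrt : (Real.sqrt (1 + ∑ i, ((w i).re ^ 2 + (w i).im ^ 2)))⁻¹ = t := by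
      have e1 : ∀ a : ℂ, a.re ^ 2 + a.im ^ 2 = ‖a‖ ^ 2 := by
        intro a
        rw [← Complex.normSq_eq_norm_sq, Complex.normSq_apply]
        ring
      have e2 : 1 + ∑ i, ((w i).re ^ 2 + (w i).im ^ 2) = (t⁻¹) ^ 2 := by
        rw [Fin.sum_univ_succAbove _ j] at hy
        simp only [e1, hw, norm_div, div_pow, ← Finset.sum_div]
        rw [← ht]
        rw [← ht] at hy
        field_simp
        linarith
      rw [e2, Real.sqrt_sq (by positivity), inv_inv]
    have hyw : (l * t) • (j.insertNth (1 : ℂ) w : Fin (m + 1) → ℂ) = y := by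
      have hlt : l * t = y j := by
        rw [hldef]; field_simp
      rw [hlt]
      ext i
      rcases Fin.eq_self_or_eq_succAbove j i with rfl | ⟨k, rfl⟩
      · simp
      · simp [hw]
        field_simp
    have hfy : f y = l • f (t • (j.insertNth (1 : ℂ) w : Fin (m + 1) → ℂ)) := by
      rw [← hl l _ hl1]
      congr 1
      conv_lhs => rw [← hyw]
      rw [mul_smul]
      congr 1
    refine ⟨(τ / t, w, fun i => M (j.succAbove i)), ?_⟩
    ext i k
    unfold Phi
    rcases Fin.eq_self_or_eq_succAbove j i with rfl | ⟨i', rfl⟩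
    · simp only [Fin.insertNth_apply_same]
      rw [hsqrt]
      have h1 := congrFun heq k
      rw [Fin.sum_univ_succAbove _ i] at h1
      rw [hfy] at h1
      simp only [Pi.add_apply, Pi.smul_apply, Finset.sum_apply, smul_eq_mul,
        Complex.real_smul] at h1
      simp only [Pi.sub_apply, Pi.smul_apply, Finset.sum_apply, smul_eq_mul, Complex.real_smul]
      generalize f (t • (i.insertNth (1 : ℂ) w : Fin (m + 1) → ℂ)) k = X at h1 ⊢
      simp only [hw]
      have hlt : y i = l * t := by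
        rw [hldef]; field_simp
      have hl0 : l ≠ 0 := by
        intro h; rw [h, norm_zero] at hl1; exact zero_ne_one hl1
      have h2 : ∑ c, y (i.succAbove c) / y i * M (i.succAbove c) k =
          (∑ c, y (i.succAbove c) * M (i.succAbove c) k) / y i := by
        rw [Finset.sum_div]
        apply Finset.sum_congr rfl
        intro c _
        ring
      rw [h2, hlt]
      rw [hlt] at h1
      push_cast
      field_simp
      linear_combination (-1 : ℂ) * h1
    · simp only [Fin.insertNth_apply_succAbove]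

/-- The complex Euclidean space. -/
abbrev Vc (m : ℕ) : Type := EuclideanSpace ℂ (Fin (m + 1))

/-- The final argument with Brouwer's theorem. -/
theorem no_smooth {m : ℕ} {g : (Fin (m + 2) → ℂ) → (Fin (m + 1) → ℂ)} (hg : ContDiff ℝ 1 g)
    (hl : ∀ (l : ℂ) (z : Fin (m + 2) → ℂ), ‖l‖ = 1 → g (l • z) = l • g z)
    (h0 : ∀ z : Fin (m + 2) → ℂ, ∑ i, ‖z i‖ ^ 2 = 1 → g z ≠ 0) : False := by
  set f : (Fin (m + 1) → ℂ) → (Fin (m + 1) → ℂ) := fun y => g (Fin.cons 0 y) with hf
  have hfC : ContDiff ℝ 1 f := by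
    apply hg.comp
    rw [contDiff_pi]
    intro i
    refine Fin.cases ?_ (fun k => ?_) i
    · simp only [Fin.cons_zero]
      fun_prop
    · simp only [Fin.cons_succ]
      fun_prop
  have hfl : ∀ (l : ℂ) (y : Fin (m + 1) → ℂ), ‖l‖ = 1 → f (l • y) = l • f y := by
    intro l y h
    simp only [hf]
    rw [← hl l _ h]
    congr 1
    ext i
    refine Fin.cases ?_ (fun k => ?_) i <;> simp
  obtain ⟨M, hM1, hM2⟩ := exists_linear hfC hfl
  -- the scalars
  let s : Vc m → ℝ := fun x => max 0 (2 * ‖x‖ - 1)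
  let b : Vc m → ℝ := fun x => Real.sqrt (1 - 4 * ‖x‖ ^ 2)
  let k : Vc m → ℝ := fun x => 2 / max 1 (2 * ‖x‖)
  let H : Vc m → (Fin (m + 1) → ℂ) := fun x =>
    (1 - s x) • g (Fin.cons (b x : ℂ) (k x • (x : Fin (m + 1) → ℂ))) +
      s x • ∑ i, x i • M i
  have hkc : Continuous k := by
    apply Continuous.div continuous_const (by fun_prop)
    intro x
    exact (lt_of_lt_of_le one_pos (le_max_left _ _)).ne'
  have hbc : Continuous b := by
    apply Continuous.sqrt
    fun_prop
  have hsc : Continuous s := by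
    simp only [s]
    fun_prop
  have hHc : Continuous H := by
    apply Continuous.add
    · refine Continuous.fun_smul (by fun_prop) ?_
      apply hg.continuous.comp
      apply continuous_pi
      intro i
      refine Fin.cases ?_ (fun k => ?_) i
      · simp only [Fin.cons_zero]
        fun_prop
      · simp only [Fin.cons_succ, Pi.smul_apply]
        fun_prop
    · refine Continuous.fun_smul hsc ?_
      fun_prop
  have hnsq : ∀ x : Vc m, ∑ i, ‖x i‖ ^ 2 = ‖x‖ ^ 2 := by
    intro x
    rw [EuclideanSpace.norm_sq_eq]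
  have hH0 : ∀ x, H x ≠ 0 := by
    intro x hx
    rcases le_or_gt (2 * ‖x‖) 1 with h | h
    · have hs : s x = 0 := max_eq_left (by linarith)
      have hk : k x = 2 := by
        simp only [k]
        rw [max_eq_left h]
        norm_num
      simp only [H, hs, hk, sub_zero, one_smul, zero_smul, add_zero] at hx
      refine h0 _ ?_ hx
      rw [Fin.sum_univ_succ]
      simp only [Fin.cons_zero, Fin.cons_succ, Pi.smul_apply, norm_smul, Complex.norm_real,
        Real.norm_eq_abs, sq_abs, mul_pow, ← Finset.mul_sum, hnsq]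
      simp only [b]
      rw [Real.sq_sqrt (by nlinarith [norm_nonneg x])]
      ring
    · have hx0 : 0 < ‖x‖ := by linarith
      have hs : s x = 2 * ‖x‖ - 1 := max_eq_right (by linarith)
      have hs0 : 0 < s x := by rw [hs]; linarith
      have hk : k x = ‖x‖⁻¹ := by
        simp only [k]
        rw [max_eq_right h.le]
        field_simp
      have hb : b x = 0 := by
        simp only [b]
        apply Real.sqrt_eq_zero_of_nonpos
        nlinarith
      simp only [H, hk, hb, Complex.ofReal_zero] at hx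
      have hy : ∑ i, ‖(‖x‖⁻¹ • (x : Fin (m + 1) → ℂ)) i‖ ^ 2 = 1 := by
        simp only [Pi.smul_apply, norm_smul, Real.norm_eq_abs, mul_pow, ← Finset.mul_sum, hnsq,
          sq_abs]
        rw [← mul_pow, inv_mul_cancel₀ hx0.ne', one_pow]
      have h2 := hM2 (‖x‖⁻¹ • (x : Fin (m + 1) → ℂ)) (-((1 - s x) / (s x * ‖x‖))) hy
      apply h2
      have hx' : s x • ∑ i, x i • M i =
          -((1 - s x) • g (Fin.cons 0 (‖x‖⁻¹ • (x : Fin (m + 1) → ℂ)))) := by
        rw [eq_neg_iff_add_eq_zero]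
        rw [← hx]
        exact add_comm _ _
      have h3 : ∑ i, (‖x‖⁻¹ • (x : Fin (m + 1) → ℂ)) i • M i = ‖x‖⁻¹ • ∑ i, x i • M i := by
        rw [Finset.smul_sum]
        apply Finset.sum_congr rfl
        intro i _
        rw [Pi.smul_apply, smul_assoc]
      rw [h3]
      have h4 : ∑ i, x i • M i = (s x)⁻¹ • (s x • ∑ i, x i • M i) := by
        rw [smul_smul, inv_mul_cancel₀ hs0.ne', one_smul]
      rw [h4, hx', smul_neg, smul_neg, neg_smul, smul_smul, smul_smul]
      congr 2
      field_simp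
  -- the fixed point
  let N : Vc m → ℝ := fun x => ‖(WithLp.toLp 2 (H x) : Vc m)‖
  have hN0 : ∀ x, 0 < N x := by
    intro x
    apply norm_pos_iff.2
    intro h
    apply hH0 x
    have := congrArg WithLp.ofLp h
    simpa using this
  have htc : Continuous (fun x => (WithLp.toLp 2 (H x) : Vc m)) :=
    (PiLp.continuous_toLp 2 _).comp hHc
  have hNc : Continuous N := htc.norm
  obtain ⟨x, hx1, hx2⟩ := brouwerC (F := fun x : Vc m => ((-(N x)⁻¹ : ℝ) : ℂ) • (WithLp.toLp 2 (H x) : Vc m))
    (by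
      refine Continuous.fun_smul ?_ htc
      apply Complex.continuous_ofReal.comp
      exact (hNc.inv₀ (fun x => (hN0 x).ne')).neg)
    (by
      intro x
      rw [norm_smul, Complex.norm_real, Real.norm_eq_abs, abs_neg, abs_of_pos (inv_pos.2 (hN0 x))]
      exact (inv_mul_cancel₀ (hN0 x).ne').le)
  have hxn : ‖x‖ = 1 := by
    rw [← hx2, norm_smul, Complex.norm_real, Real.norm_eq_abs, abs_neg,
      abs_of_pos (inv_pos.2 (hN0 x))]
    exact inv_mul_cancel₀ (hN0 x).ne'
  have hs : s x = 1 := by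
    simp only [s, hxn]
    norm_num
  have hH : H x = ∑ i, x i • M i := by
    simp only [H, hs, sub_self, zero_smul, zero_add, one_smul]
  have hxf : (x : Fin (m + 1) → ℂ) ≠ 0 := by
    intro h
    have : x = 0 := by ext i; exact congrFun h i
    rw [this, norm_zero] at hxn
    exact zero_ne_one hxn
  apply hM1 x (N x) (hN0 x).le hxf
  rw [← hH]
  have hN0' := (hN0 x).ne'
  have h5 := congrArg WithLp.ofLp hx2
  simp only [WithLp.ofLp_smul] at h5
  rw [← h5]
  ext i
  simp only [Pi.smul_apply, Pi.neg_apply, Complex.real_smul, smul_eq_mul]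
  have hNc' : (N x : ℂ) ≠ 0 := by exact_mod_cast hN0'
  push_cast
  field_simp

end BUAux

/-- The Borsuk-Ulam theorem for circle equivariant maps. -/
theorem exists_zero_of_equivariant (n : ℕ) (F : C(Sph n, EuclideanSpace ℂ (Fin n)))
    (hF : ∀ (l : ℂ) (z w : Sph n), ‖l‖ = 1 →
      (w : EuclideanSpace ℂ (Fin (n + 1))) = l • (z : EuclideanSpace ℂ (Fin (n + 1))) →
      F w = l • F z) : ∃ z, F z = 0 := by
  by_contra hno
  push Not at hno
  cases n with
  | zero =>
    obtain ⟨z⟩ : Nonempty (Sph 0) := inferInstance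
    exact hno z (Subsingleton.elim _ _)
  | succ m =>
    obtain ⟨g, h1, h2, h3⟩ := BUAux.smoothing F hF hno
    exact BUAux.no_smooth h1 h2 h3

end Pool.Agent.Lib.MP_1cc3c1_an
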