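import Pool.Agent.Lib.MP_1cc3c1_an.Test

/-!
The two consequences of the gluing construction which are used for the algebra.
-/

namespace Pool.Agent.Lib.MP_1cc3c1_an

open Tm Asm

theorem norm_eq_of_pointwise {X A B : Type} [TopologicalSpace X] [CompactSpace X]
    [NormedAddCommGroup A] [NormedAddCommGroup B] (a : C(X, A)) (b : C(X, B))
    (h : ∀ x, ‖b x‖ = ‖a x‖) : ‖b‖ = ‖a‖ := by
  refine le_antisymm ?_ ?_
  · rw [ContinuousMap.norm_le _ (norm_nonneg _)]
    intro x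
    rw [h]
    exact ContinuousMap.norm_coe_le_norm _ x
  · rw [ContinuousMap.norm_le _ (norm_nonneg _)]
    intro x
    rw [← h]
    exact ContinuousMap.norm_coe_le_norm b x

/-- Transfer to matrix algebras. -/
theorem exists_transfer (X V : Type) [TopologicalSpace X] [CompactSpace X] [NormedAddCommGroup V]
    [InnerProductSpace ℂ V] [FiniteDimensional ℂ V] [CompleteSpace V] (N : ℕ)
    (hN : Module.finrank ℂ V = N + 1) :
    ∃ φ : C(X, V →L[ℂ] V) →⋆ₐ[ℂ] C(X, BH N), ∀ a, ‖φ a‖ = ‖a‖ := by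
  let e : V ≃ₗᵢ[ℂ] Hs N := (stdOrthonormalBasis ℂ V).equiv (EuclideanSpace.basisFun _ ℂ)
    (finCongr hN)
  let ψ : (V →L[ℂ] V) →⋆ₐ[ℂ] BH N := (e.conjStarAlgEquiv : (V →L[ℂ] V) ≃⋆ₐ[ℂ] BH N)
  have hψ : Function.Injective ψ := e.conjStarAlgEquiv.injective
  have hn : ∀ a, ‖ψ a‖ = ‖a‖ := fun a => NonUnitalStarAlgHom.norm_map ψ hψ a
  have hc : Continuous ψ := by
    have : LipschitzWith 1 ψ := by
      refine LipschitzWith.of_dist_le_mul fun a b => ?_
      rw [dist_eq_norm, dist_eq_norm, ← map_sub, hn]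
      simp
    exact this.continuous
  refine ⟨ContinuousMap.compStarAlgHom X ψ hc, fun a => ?_⟩
  exact norm_eq_of_pointwise _ _ fun x => hn (a x)

theorem exists_push {A B : Type} [CStarAlgebra A] [CStarAlgebra B] (ρ : Rep A)
    (φ : A →⋆ₐ[ℂ] B) : ∃ ρ' : Rep B, (∀ q, Rep.Sat kap ρ q → Rep.Sat kap ρ' q) ∧
      ∀ t, ρ'.ev t = φ (ρ.ev t) :=
  ⟨ρ.push φ, fun _ h => h.push φ, fun _ => Rep.ev_push _ _ _⟩

namespace Glue

variable {X : Type} [TopologicalSpace X] [CompactSpace X] {𝔅 : Type} [Fintype 𝔅] [DecidableEq 𝔅]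
    {H : 𝔅 → Type} [∀ b, NormedAddCommGroup (H b)] [∀ b, InnerProductSpace ℂ (H b)]
    [∀ b, CompleteSpace (H b)] [∀ b, FiniteDimensional ℂ (H b)] (G : Glue X H)

theorem exists_matrix_rep (b0 : 𝔅) [Nontrivial (H b0)] : ∃ (N : ℕ) (ρ : Rep C(X, BH N))
    (φ : C(X, TV H →L[ℂ] TV H) →⋆ₐ[ℂ] C(X, BH N)),
    (∀ a, ‖φ a‖ = ‖a‖) ∧ (∀ q ∈ G.F, Rep.Sat kap ρ q) ∧ ∀ t, ρ.ev t = φ (G.rep.ev t) := by
  have hpos : 0 < Module.finrank ℂ (TV H) := by
    rw [Module.finrank_pos_iff]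
    obtain ⟨v, hv⟩ := exists_ne (0 : H b0)
    refine ⟨⟨inc b0 v, 0, fun h => hv ?_⟩⟩
    have h1 := norm_inc b0 v
    rw [h, norm_zero] at h1
    exact norm_eq_zero.1 h1.symm
  obtain ⟨d, hd⟩ : ∃ d, Module.finrank ℂ (TV H) = d + 1 :=
    ⟨Module.finrank ℂ (TV H) - 1, by omega⟩
  obtain ⟨φ, hφ⟩ := exists_transfer X (TV H) d hd
  obtain ⟨ρ, h1, h2⟩ := exists_push (B := C(X, BH d)) G.rep φ
  exact ⟨d, ρ, φ, hφ, fun q hq => h1 q (G.sat_rep hq), h2⟩

end Glue

theorem exists_test_nonempty {F0 : Set Tm} (hF : F0.Finite) :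
    ∃ (n N : ℕ) (ρ : Rep C(Sph n, BH N)), (∀ q ∈ F0, Rep.Sat kap ρ q) ∧ 1 ≤ ‖ρ.ev (x 0)‖ := by
  let F : Set Tm := {q | q ∈ F0 ∧ 0 < kap q}
  let ρ0 : Rep (BH 0) :=
    { X := fun _ => 1
      R := fun _ _ => 0
      hX := fun _ => ContinuousLinearMap.norm_id_le
      hR := fun _ _ => by simp }
  obtain ⟨β, _, _, N, G, hGF, hGρ, -, -⟩ := exists_glue (F := F) (hF.subset fun q hq => hq.1)
    (fun q hq => hq.2) 0 ρ0 {q | q ∉ F} (fun q hq => hq) (fun q hq hq' => absurd hq hq')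
    (fun q hq hq' => absurd hq hq')
  have hnt : Nontrivial (Hs ((none : Option β).elim 0 N)) := by
    change Nontrivial (Hs 0)
    infer_instance
  obtain ⟨d, ρ, φ, hφ, hs, he⟩ := G.exists_matrix_rep none
  refine ⟨_, d, ρ, fun q hq => ?_, ?_⟩
  · by_cases h : 0 < kap q
    · exact hs q (by rw [hGF]; exact ⟨hq, h⟩)
    · intro h'; exact absurd h' h
  · rw [he, hφ]
    obtain ⟨z⟩ : Nonempty (Sph (∑ b, (N b + 1))) := inferInstance
    refine le_trans ?_ (ContinuousMap.norm_coe_le_norm _ z)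
    obtain ⟨v, hv⟩ := exists_ne (0 : Hs ((none : Option β).elim 0 N))
    have h1 := (G.int_ev (b := none) (x 0) (by simp [sub]) z).1 v
    have h2 := ContinuousLinearMap.le_opNorm (G.rep.ev (x 0) z) (inc none v)
    have h3 : (G.ρ none).ev (x 0) = 1 := by rw [hGρ]; rfl
    rw [h1, h3, norm_inc, norm_inc, one_apply_eq_self] at h2
    have h4 : 0 < ‖v‖ := norm_pos_iff.2 hv
    nlinarith

/-- Killing one generator. -/
def killX {A : Type*} [CStarAlgebra A] (ρ : Rep A) (g : ℤ) : Rep A where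
  X h := if h = g then 0 else ρ.X h
  R := ρ.R
  hX h := by
    split_ifs
    · simp
    · exact ρ.hX h
  hR := ρ.hR

theorem ev_killX {A : Type*} [CStarAlgebra A] (ρ : Rep A) (g : ℤ) (t : Tm) (ht : g ∉ supp t) :
    (killX ρ g).ev t = ρ.ev t := by
  induction t with
  | x h =>
    have : h ≠ g := fun hh => ht (by simp [supp, hh])
    simp [Rep.ev, killX, this]
  | c a b => rfl
  | add s t hs ht' =>
    simp only [supp, Set.mem_union, not_or] at ht
    simp only [Rep.ev, hs ht.1, ht' ht.2]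
  | mul s t hs ht' =>
    simp only [supp, Set.mem_union, not_or] at ht
    simp only [Rep.ev, hs ht.1, ht' ht.2]
  | st t ht' =>
    simp only [Rep.ev, ht' ht]
  | r q j hq => rfl

namespace Glue

variable {β : Type} [Fintype β] [DecidableEq β] {n : ℕ}
    {H : Option β → Type} [∀ b, NormedAddCommGroup (H b)] [∀ b, InnerProductSpace ℂ (H b)]
    [∀ b, CompleteSpace (H b)] (G : Glue (Sph n) H)

theorem one_le_norm (cl : TV H →L[ℂ] EuclideanSpace ℂ (Fin n))
    (hcl0 : ∀ w : TV H, cl w = 0 → w none = 0 → w = 0)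
    (hclU : ∀ (l : ℂ) (w : TV H), cl (scal H (fun b => b.elim 1 fun _ => l) w) = l • cl w)
    (hGe : ∀ l : ℂ, ‖l‖ = 1 → ∀ z w : Sph n,
        (w : EuclideanSpace ℂ (Fin (n + 1))) = l • (z : EuclideanSpace ℂ (Fin (n + 1))) →
        ∀ t, G.rep.ev t w * scal H (fun b => b.elim 1 fun _ => l) =
          scal H (fun b => b.elim 1 fun _ => l) * G.rep.ev t z)
    (s t : Tm) (g : ℤ) (hX : (G.ρ none).ev (x g) = 0) (hsub : sub t ⊆ G.pure none) (u : H none)
    (hu : ‖u‖ ≤ 1) (hu2 : ‖(G.ρ none).ev t u‖ = 1) :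
    1 ≤ ‖G.rep.ev s * (star (G.rep.ev (x g)) * G.rep.ev (x g)) * star (G.rep.ev s) -
        star (G.rep.ev t) * G.rep.ev t‖ := by
  let v : TV H := inc none u
  have hv : ‖v‖ ≤ 1 := (norm_inc none u).le.trans hu
  let W : Tm := mul (x g) (st s)
  let f : Sph n → TV H := fun z => G.rep.ev W z v
  have hf : Continuous f := ((G.rep.ev W).continuous).clm_apply continuous_const
  let Φ : C(Sph n, EuclideanSpace ℂ (Fin n)) := ⟨fun z => cl (f z), cl.continuous.comp hf⟩
  obtain ⟨z, hz⟩ := exists_zero_of_equivariant n Φ (by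
    intro l z w hl hw
    have h1 := hGe l hl z w hw W
    have h2 : f w = scal H (fun b => b.elim 1 fun _ => l) (f z) := by
      have h3 : scal H (fun b => b.elim 1 fun _ => l) v = v := by
        rw [scal_inc]
        simp [v]
      have h4 := congrArg (fun T : TV H →L[ℂ] TV H => T v) h1
      change G.rep.ev W w (scal H (fun b => b.elim 1 fun _ => l) v) =
        scal H (fun b => b.elim 1 fun _ => l) (G.rep.ev W z v) at h4
      rw [h3] at h4
      exact h4
    change cl (f w) = l • cl (f z)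
    rw [h2, hclU])
  have hfz : f z = 0 := by
    refine hcl0 _ hz ?_
    have h1 : (G.rep.ev (x g) z (G.rep.ev (st s) z v)) none =
        (G.ρ none).ev (x g) ((G.rep.ev (st s) z v) none) :=
      (G.int_ev (b := none) (x g) (by simp [sub]) z).2 _
    rw [hX] at h1
    exact h1
  refine le_trans ?_ (ContinuousMap.norm_coe_le_norm _ z)
  set A := (G.rep.ev s * (star (G.rep.ev (x g)) * G.rep.ev (x g)) * star (G.rep.ev s) -
    star (G.rep.ev t) * G.rep.ev t) z with hA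
  have hAv : A v = - (star (G.rep.ev t z)) (G.rep.ev t z v) := by
    have : A v = G.rep.ev s z (star (G.rep.ev (x g) z) (f z)) -
      star (G.rep.ev t z) (G.rep.ev t z v) := rfl
    rw [this, hfz, map_zero, map_zero, zero_sub]
  have htv : G.rep.ev t z v = inc none ((G.ρ none).ev t u) :=
    (G.int_ev (b := none) t hsub z).1 u
  have hin : inner ℂ (A v) v = -1 := by
    rw [hAv, inner_neg_left, ContinuousLinearMap.star_eq_adjoint,
      ContinuousLinearMap.adjoint_inner_left, htv, inner_self_eq_norm_sq_to_K, norm_inc, hu2]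
    simp
  have h1 : ‖inner ℂ (A v) v‖ ≤ ‖A‖ := by
    refine (norm_inner_le_norm _ _).trans ?_
    have h2 := ContinuousLinearMap.le_opNorm A v
    have h3 : ‖A‖ * ‖v‖ ≤ ‖A‖ := mul_le_of_le_one_right (norm_nonneg _) hv
    calc ‖A v‖ * ‖v‖ ≤ ‖A‖ * 1 :=
          mul_le_mul (h2.trans h3) hv (norm_nonneg _) (norm_nonneg _)
      _ = ‖A‖ := mul_one _
  rw [hin] at h1
  simpa using h1

end Glue

/-- Collecting the coordinates of the blocks with index `some b`. -/
noncomputable def collect {β : Type} [Fintype β] [DecidableEq β] (N0 : ℕ) (N : β → ℕ)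
    (ε : (Σ b : β, Fin (N b + 1)) ≃ Fin (∑ b, (N b + 1))) :
    TV (fun b : Option β => Hs (b.elim N0 N)) →ₗ[ℂ] EuclideanSpace ℂ (Fin (∑ b, (N b + 1))) where
  toFun w := WithLp.toLp 2 fun k => (w (some (ε.symm k).1) : Hs (N (ε.symm k).1)) (ε.symm k).2
  map_add' v w := by ext k; rfl
  map_smul' a w := by ext k; rfl

theorem exists_test_obstruct {F0 : Set Tm} (hF : F0.Finite) {N0 : ℕ} (ρ0 : Rep (BH N0))
    (h0 : ∀ q ∈ F0, Rep.Sat kap ρ0 q) (s t : Tm) (g : ℤ) (hg : g ∉ supp t)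
    (ht : 1 < ‖ρ0.ev t‖) :
    ∃ (n N : ℕ) (ρ : Rep C(Sph n, BH N)), (∀ q ∈ F0, Rep.Sat kap ρ q) ∧
      1 ≤ ‖ρ.ev s * (star (ρ.ev (x g)) * ρ.ev (x g)) * star (ρ.ev s) -
        star (ρ.ev t) * ρ.ev t‖ := by
  let F : Set Tm := {q | q ∈ F0 ∧ 0 < kap q}
  let P0 : Set Tm := {q | q ∉ F ∨ g ∉ supp q}
  have hsub : ∀ q, g ∉ supp q → sub q ⊆ P0 := fun q hq q' hq' =>
    Or.inr fun hh => hq (supp_subset_of_mem hq' hh)
  obtain ⟨β, _, _, N, G, hGF, hGρ, hGp, hGe⟩ := exists_glue (F := F)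
    (hF.subset fun q hq => hq.1) (fun q hq => hq.2) N0 (killX ρ0 g) P0 (fun q hq => Or.inl hq)
    (fun q hq hq' => by
      rcases hq' with h | h
      · exact absurd hq h
      · exact hsub q h)
    (fun q hq hq' => by
      rcases hq' with h | h
      · exact absurd hq h
      · intro hpos
        have := h0 q hq.1 hpos
        rw [ev_killX ρ0 g q h]
        exact this)
  obtain ⟨u, hu1, hu2⟩ := exists_unit_image ht
  have hnt : Nontrivial (Hs ((none : Option β).elim N0 N)) := by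
    change Nontrivial (Hs N0)
    infer_instance
  obtain ⟨d, ρ, φ, hφ, hs, he⟩ := G.exists_matrix_rep none
  refine ⟨_, d, ρ, fun q hq => ?_, ?_⟩
  · by_cases h : 0 < kap q
    · exact hs q (by rw [hGF]; exact ⟨hq, h⟩)
    · intro h'; exact absurd h' h
  rw [he, he, he, ← map_star, ← map_star, ← map_star, ← map_mul, ← map_mul, ← map_mul, ← map_mul,
    ← map_sub, hφ]
  let ε : (Σ b : β, Fin (N b + 1)) ≃ Fin (∑ b, (N b + 1)) := Fintype.equivFinOfCardEq (by simp)
  refine G.one_le_norm (LinearMap.toContinuousLinearMap (collect N0 N ε)) ?_ ?_ hGe s t g ?_ ?_ u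
    hu1 ?_
  · intro w hw hw0
    refine PiLp.ext fun b => ?_
    cases b with
    | none => exact hw0
    | some b =>
      change w (some b) = 0
      have h2 : ∀ i : Fin (N b + 1), (w (some b) : Hs (N b)) i = 0 := by
        intro i
        have h3 : collect N0 N ε w (ε ⟨b, i⟩) = 0 := by
          have : collect N0 N ε w = 0 := hw
          rw [this]; rfl
        change (w (some (ε.symm (ε ⟨b, i⟩)).1) : Hs (N (ε.symm (ε ⟨b, i⟩)).1))
          (ε.symm (ε ⟨b, i⟩)).2 = 0 at h3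
        rw [ε.symm_apply_apply] at h3
        exact h3
      ext i
      exact h2 i
  · intro l w
    change collect N0 N ε _ = l • collect N0 N ε w
    ext k
    change ((Glue.scal _ (fun b : Option β => b.elim 1 fun _ => l) w) (some (ε.symm k).1) :
      Hs (N (ε.symm k).1)) (ε.symm k).2 = l * (w (some (ε.symm k).1) : Hs (N (ε.symm k).1))
      (ε.symm k).2
    rw [Glue.scal_apply]
    rfl
  · have h5 : (killX ρ0 g).ev (x g) = 0 := by simp [Rep.ev, killX]
    rw [hGρ]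
    exact h5
  · rw [hGp]
    exact hsub t hg
  · have h5 : ‖(killX ρ0 g).ev t u‖ = 1 := by rw [ev_killX ρ0 g t hg]; exact hu2
    rw [hGρ]
    exact h5

end Pool.Agent.Lib.MP_1cc3c1_an
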