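import Pool.Agent.Lib.MP_1cc3c1_an.Alg
import Pool.Agent.Lib.MP_1cc3c1_an.Obstr

/-!
The concrete algebra and its properties.
-/

open scoped ENNReal

namespace Pool.Agent.Lib.MP_1cc3c1_an

open Tm

/-- All test representations. -/
structure Om : Type where
  n : ℕ
  N : ℕ
  ρ : Rep C(Sph n, BH N)

/-- The algebra of a test representation. -/
def OA (ω : Om) : Type := C(Sph ω.n, BH ω.N)

noncomputable instance (ω : Om) : CStarAlgebra (OA ω) :=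
  inferInstanceAs (CStarAlgebra C(Sph ω.n, BH ω.N))

instance (ω : Om) : Nontrivial (OA ω) := by
  obtain ⟨z⟩ : Nonempty (Sph ω.n) := inferInstance
  refine ⟨⟨(0 : C(Sph ω.n, BH ω.N)), (1 : C(Sph ω.n, BH ω.N)), fun h => ?_⟩⟩
  have h1 : (0 : BH ω.N) = 1 := congrArg (fun f : C(Sph ω.n, BH ω.N) => f z) h
  exact zero_ne_one h1

/-- The representation of a test representation. -/
noncomputable def orep (ω : Om) : Rep (OA ω) := ω.ρ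

/-- The filter generated by the relations. -/
def relFilter : Filter Om where
  sets := {U | ∃ F0 : Set Tm, F0.Finite ∧ ∀ ω : Om, (∀ q ∈ F0, Rep.Sat kap ω.ρ q) → ω ∈ U}
  univ_sets := ⟨∅, Set.finite_empty, fun _ _ => trivial⟩
  sets_of_superset := by
    rintro U V ⟨F0, h1, h2⟩ hUV
    exact ⟨F0, h1, fun ω hω => hUV (h2 ω hω)⟩
  inter_sets := by
    rintro U V ⟨F0, h1, h2⟩ ⟨F1, h3, h4⟩
    exact ⟨F0 ∪ F1, h1.union h3, fun ω hω =>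
      ⟨h2 ω fun q hq => hω q (Or.inl hq), h4 ω fun q hq => hω q (Or.inr hq)⟩⟩

/-- The interface to the algebra. -/
theorem exists_algebra : ∃ (D : Type) (_ : CStarAlgebra D) (E : Tm → D), DenseRange E ∧
    (∀ a b : ℚ, E (c a b) = algebraMap ℂ D (a + b * Complex.I)) ∧
    (∀ s t, E (add s t) = E s + E t) ∧ (∀ s t, E (mul s t) = E s * E t) ∧
    (∀ t, E (st t) = star (E t)) ∧
    (∀ (t : Tm) (c : ℝ), ‖E t‖ < c → ∃ F0 : Set Tm, F0.Finite ∧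
      ∀ (n N : ℕ) (ρ : Rep C(Sph n, BH N)), (∀ q ∈ F0, Rep.Sat kap ρ q) → ‖ρ.ev t‖ < c) ∧
    (∀ (t : Tm) (c : ℝ), 0 ≤ c → (∃ F0 : Set Tm, F0.Finite ∧
      ∀ (n N : ℕ) (ρ : Rep C(Sph n, BH N)), (∀ q ∈ F0, Rep.Sat kap ρ q) → ‖ρ.ev t‖ ≤ c) →
      ‖E t‖ ≤ c) ∧
    ∀ h : ℤ, ∃ φ : D →⋆ₐ[ℂ] D, ∀ t, φ (E t) = E (sh h t) := by
  have hev : ∀ (P : Om → Prop), (∀ᶠ ω in relFilter, P ω) ↔ ∃ F0 : Set Tm, F0.Finite ∧
      ∀ ω : Om, (∀ q ∈ F0, Rep.Sat kap ω.ρ q) → P ω := fun P => Iff.rfl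
  have hnorm : ∀ (ω : Om) (t : Tm), ‖(orep ω).ev t‖ = ‖ω.ρ.ev t‖ := fun ω t => rfl
  obtain ⟨D, hD, E, h1, h2, h3, h4, h5, h6, h7, h8⟩ := exists_generic OA orep relFilter
    (fun h ω => ⟨ω.n, ω.N, ω.ρ.pull fun k => k + h⟩) (by
      rintro h U ⟨F0, hF, hU⟩
      refine ⟨sh h '' F0, hF.image _, fun ω hω => ?_⟩
      refine hU _ fun q hq => ?_
      have h3 := hω (sh h q) (Set.mem_image_of_mem _ hq)
      exact (Rep.sat_pull_iff (kap_sh h q)).2 h3)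
    (fun h ω => StarAlgHom.id ℂ _) (fun h ω t => Rep.ev_pull _ _ _)
  refine ⟨D, hD, E, h1, h2, h3, h4, h5, ?_, ?_, h8⟩
  · intro t c hc
    obtain ⟨F0, hF, h⟩ := (hev _).1 (h6 t c hc)
    refine ⟨F0, hF, fun n N ρ hρ => ?_⟩
    have h9 := h ⟨n, N, ρ⟩ hρ
    rw [hnorm] at h9
    exact h9
  · intro t c hc h
    obtain ⟨F0, hF, h⟩ := h
    refine h7 t c hc ((hev _).2 ⟨F0, hF, fun ω hω => ?_⟩)
    rw [hnorm]
    exact h ω.n ω.N ω.ρ hω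

end Pool.Agent.Lib.MP_1cc3c1_an
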