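import Pool.Agent.Lib.MP_1cc3c1_an.Sphere

/-!
Continuous, phase equivariant Parseval frames over the odd dimensional spheres
(polar decomposition of the multiplication by a polynomial).
-/

open scoped InnerProductSpace NNReal Topology ComplexConjugate
open ContinuousLinearMap

namespace Pool.Agent.Lib.MP_1cc3c1_an

namespace Emb

/-- `C^m`. -/
abbrev E (m : ℕ) : Type := EuclideanSpace ℂ (Fin m)

/-- Multiplication of polynomials of degree `< R` by the polynomial with coefficients `z`,
as a bilinear map. -/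
noncomputable def mulPoly₀ (n R : ℕ) : E (n + 1) →ₗ[ℂ] E R →ₗ[ℂ] E (R + n) :=
  LinearMap.mk₂ ℂ
    (fun z v => WithLp.toLp 2 fun k : Fin (R + n) =>
      ∑ i : Fin (n + 1), ∑ j : Fin R, if (i : ℕ) + j = k then z i * v j else 0)
    (by
      intro z z' v
      ext k
      simp only [PiLp.add_apply]
      rw [← Finset.sum_add_distrib]
      refine Finset.sum_congr rfl fun i _ => ?_
      rw [← Finset.sum_add_distrib]
      refine Finset.sum_congr rfl fun j _ => ?_
      split_ifs <;> ring)
    (by
      intro c z v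
      ext k
      simp only [PiLp.smul_apply, smul_eq_mul]
      rw [Finset.mul_sum]
      refine Finset.sum_congr rfl fun i _ => ?_
      rw [Finset.mul_sum]
      refine Finset.sum_congr rfl fun j _ => ?_
      split_ifs <;> ring)
    (by
      intro z v v'
      ext k
      simp only [PiLp.add_apply]
      rw [← Finset.sum_add_distrib]
      refine Finset.sum_congr rfl fun i _ => ?_
      rw [← Finset.sum_add_distrib]
      refine Finset.sum_congr rfl fun j _ => ?_
      split_ifs <;> ring)
    (by
      intro c z v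
      ext k
      simp only [PiLp.smul_apply, smul_eq_mul]
      rw [Finset.mul_sum]
      refine Finset.sum_congr rfl fun i _ => ?_
      rw [Finset.mul_sum]
      refine Finset.sum_congr rfl fun j _ => ?_
      split_ifs <;> ring)

lemma mulPoly₀_apply (n R : ℕ) (z : E (n + 1)) (v : E R) (k : Fin (R + n)) :
    mulPoly₀ n R z v k =
      ∑ i : Fin (n + 1), ∑ j : Fin R, if (i : ℕ) + j = k then z i * v j else 0 := rfl

lemma mulPoly₀_inj (n R : ℕ) (z : E (n + 1)) (hz : z ≠ 0) (v : E R)
    (h : mulPoly₀ n R z v = 0) : v = 0 := by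
  classical
  set P : Polynomial ℂ := ∑ i : Fin (n + 1), Polynomial.monomial (i : ℕ) (z i) with hP
  set Q : Polynomial ℂ := ∑ j : Fin R, Polynomial.monomial (j : ℕ) (v j) with hQ
  have hcoef : ∀ k, (P * Q).coeff k =
      ∑ i : Fin (n + 1), ∑ j : Fin R, if (i : ℕ) + j = k then z i * v j else 0 := by
    intro k
    rw [hP, hQ, Finset.sum_mul_sum, Polynomial.finsetSum_coeff]
    refine Finset.sum_congr rfl fun i _ => ?_
    rw [Polynomial.finsetSum_coeff]
    refine Finset.sum_congr rfl fun j _ => ?_
    rw [Polynomial.monomial_mul_monomial, Polynomial.coeff_monomial]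
  have hPQ : P * Q = 0 := by
    ext k
    rw [hcoef, Polynomial.coeff_zero]
    by_cases hk : k < R + n
    · have := congrArg (fun w : E (R + n) => w ⟨k, hk⟩) h
      simpa [mulPoly₀_apply] using this
    · refine Finset.sum_eq_zero fun i _ => Finset.sum_eq_zero fun j _ => ?_
      rw [if_neg]
      have := i.2
      have := j.2
      omega
  have hPc : ∀ i : Fin (n + 1), P.coeff i = z i := by
    intro i
    rw [hP, Polynomial.finsetSum_coeff, Finset.sum_eq_single i]
    · simp [Polynomial.coeff_monomial]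
    · intro b _ hb
      rw [Polynomial.coeff_monomial, if_neg]
      intro h'
      exact hb (Fin.ext h')
    · simp
  have hQc : ∀ j : Fin R, Q.coeff j = v j := by
    intro i
    rw [hQ, Polynomial.finsetSum_coeff, Finset.sum_eq_single i]
    · simp [Polynomial.coeff_monomial]
    · intro b _ hb
      rw [Polynomial.coeff_monomial, if_neg]
      intro h'
      exact hb (Fin.ext h')
    · simp
  rcases mul_eq_zero.mp hPQ with h0 | h0
  · exfalso
    apply hz
    ext i
    rw [← hPc i, h0]
    simp
  · ext j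
    rw [← hQc j, h0]
    simp

/-- The multiplication as a linear map with values in the continuous linear maps. -/
noncomputable def T (n R : ℕ) : E (n + 1) →ₗ[ℂ] (E R →L[ℂ] E (R + n)) :=
  (LinearMap.toContinuousLinearMap : (E R →ₗ[ℂ] E (R + n)) ≃ₗ[ℂ] _).toLinearMap ∘ₗ mulPoly₀ n R

lemma T_apply (n R : ℕ) (z : E (n + 1)) (v : E R) : T n R z v = mulPoly₀ n R z v := rfl

lemma continuous_T (n R : ℕ) : Continuous (T n R) :=
  (T n R).continuous_of_finiteDimensional

/-- The Gram operator. -/
noncomputable def G (n R : ℕ) (z : E (n + 1)) : E R →L[ℂ] E R :=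
  adjoint (T n R z) ∘L T n R z

lemma continuous_G (n R : ℕ) : Continuous (G n R) := by
  unfold G
  have h1 : Continuous fun z => adjoint (T n R z) :=
    (adjoint (𝕜 := ℂ) (E := E R) (F := E (R + n))).continuous.comp (continuous_T n R)
  exact h1.clm_comp (continuous_T n R)

lemma G_nonneg (n R : ℕ) (z : E (n + 1)) : 0 ≤ G n R z := by
  rw [ContinuousLinearMap.nonneg_iff_isPositive]
  exact ContinuousLinearMap.isPositive_adjoint_comp_self _

lemma G_isUnit (n R : ℕ) (z : E (n + 1)) (hz : z ≠ 0) : IsUnit (G n R z) := by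
  have hinj : Function.Injective (G n R z) := by
    rw [injective_iff_map_eq_zero]
    intro v hv
    have h1 : ⟪G n R z v, v⟫_ℂ = 0 := by rw [hv, inner_zero_left]
    unfold G at h1
    rw [ContinuousLinearMap.comp_apply, ContinuousLinearMap.adjoint_inner_left] at h1
    exact mulPoly₀_inj n R z hz v (inner_self_eq_zero.mp h1)
  rw [ContinuousLinearMap.isUnit_iff_bijective]
  exact ⟨hinj, (LinearMap.injective_iff_surjective (f := (G n R z : E R →ₗ[ℂ] E R))).mp hinj⟩

/-- The inverse square root of the Gram operator. -/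
noncomputable def B (n R : ℕ) (z : E (n + 1)) : E R →L[ℂ] E R := (G n R z) ^ (-(1 / 2) : ℝ)

lemma B_selfAdjoint (n R : ℕ) (z : E (n + 1)) : adjoint (B n R z) = B n R z := by
  have h : 0 ≤ B n R z := CFC.rpow_nonneg
  exact (IsSelfAdjoint.of_nonneg h)

lemma BGB (n R : ℕ) (z : E (n + 1)) (hz : z ≠ 0) :
    B n R z * G n R z * B n R z = 1 := by
  have hu := G_isUnit n R z hz
  have h0 := G_nonneg n R z
  have h1 : G n R z = (G n R z) ^ (1 : ℝ) := (CFC.rpow_one (G n R z) h0).symm
  unfold B
  conv_lhs =>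
    enter [1, 2]
    rw [h1]
  rw [← CFC.rpow_add hu, ← CFC.rpow_add hu]
  have : (-(1 / 2) + 1 + -(1 / 2) : ℝ) = 0 := by norm_num
  rw [this]
  exact CFC.rpow_zero (G n R z) h0

lemma continuous_B (n R : ℕ) : Continuous fun z : Sph n => B n R (z : E (n + 1)) := by
  unfold B
  simp only [CFC.rpow_def]
  refine Continuous.cfc_nnreal_of_mem_nhdsSet (s := Set.Ioi 0) (fun x : ℝ≥0 => x ^ (-(1 / 2) : ℝ))
    ?_ ((continuous_G n R).comp continuous_subtype_val) (fun z => G_nonneg n R _) ?_
  · rw [mem_nhdsSet_iff_forall]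
    intro x hx
    rw [Set.mem_iUnion] at hx
    obtain ⟨z, hz⟩ := hx
    refine isOpen_Ioi.mem_nhds ?_
    rw [Set.mem_Ioi, pos_iff_ne_zero]
    rintro rfl
    refine spectrum.zero_notMem ℝ≥0 (G_isUnit n R (z : E (n + 1)) ?_) hz
    intro h0
    have := z.2
    rw [mem_sphere_zero_iff_norm, h0, norm_zero] at this
    exact zero_ne_one this
  · intro x hx
    exact (NNReal.continuousAt_rpow_const (Or.inl (ne_of_gt hx))).continuousWithinAt

/-- The isometric part. -/
noncomputable def A (n R : ℕ) (z : E (n + 1)) : E R →L[ℂ] E (R + n) := T n R z ∘L B n R z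

lemma adjoint_A_comp (n R : ℕ) (z : E (n + 1)) (hz : z ≠ 0) (v : E R) :
    adjoint (A n R z) (A n R z v) = v := by
  have h := congrArg (fun f : E R →L[ℂ] E R => f v) (BGB n R z hz)
  simp only [ContinuousLinearMap.mul_apply', ContinuousLinearMap.one_apply] at h
  unfold A
  rw [ContinuousLinearMap.adjoint_comp, B_selfAdjoint]
  exact h

lemma G_smul (n R : ℕ) (z : E (n + 1)) (l : ℂ) (hl : ‖l‖ = 1) : G n R (l • z) = G n R z := by
  unfold G
  rw [map_smul, map_smulₛₗ]
  ext v : 1
  simp only [ContinuousLinearMap.comp_apply, ContinuousLinearMap.smul_apply, map_smul, smul_smul]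
  have : l * (starRingEnd ℂ) l = 1 := by
    rw [Complex.mul_conj, Complex.normSq_eq_norm_sq, hl]
    norm_num
  rw [this, one_smul]

lemma A_smul (n R : ℕ) (z : E (n + 1)) (l : ℂ) (hl : ‖l‖ = 1) :
    A n R (l • z) = l • A n R z := by
  unfold A B
  rw [G_smul n R z l hl, map_smul, ContinuousLinearMap.smul_comp]

lemma continuous_A (n R : ℕ) : Continuous fun z : Sph n => A n R (z : E (n + 1)) := by
  unfold A
  exact ((continuous_T n R).comp continuous_subtype_val).clm_comp (continuous_B n R)

end Emb

open Emb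

theorem exists_frame (n R : ℕ) : ∃ y : Fin (R + n) → C(Sph n, EuclideanSpace ℂ (Fin R)),
    (∀ k (l : ℂ) (z w : Sph n), ‖l‖ = 1 →
      (w : EuclideanSpace ℂ (Fin (n + 1))) = l • (z : EuclideanSpace ℂ (Fin (n + 1))) →
      y k w = conj l • y k z) ∧
    ∀ z v, ∑ k, ‖inner ℂ (y k z) v‖ ^ 2 = ‖v‖ ^ 2 := by
  have hcont : ∀ k : Fin (R + n), Continuous fun z : Sph n =>
      adjoint (A n R (z : E (n + 1))) (EuclideanSpace.single k (1 : ℂ)) := by
    intro k
    have h1 : Continuous fun z : Sph n => adjoint (A n R (z : E (n + 1))) :=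
      (adjoint (𝕜 := ℂ) (E := E R) (F := E (R + n))).continuous.comp (continuous_A n R)
    exact h1.clm_apply continuous_const
  refine ⟨fun k => ⟨fun z => adjoint (A n R (z : E (n + 1))) (EuclideanSpace.single k (1 : ℂ)),
    hcont k⟩, ?_, ?_⟩
  · intro k l z w hl hw
    simp only [ContinuousMap.coe_mk]
    rw [hw, A_smul n R _ l hl, map_smulₛₗ]
    rfl
  · intro z v
    simp only [ContinuousMap.coe_mk]
    have hz : (z : E (n + 1)) ≠ 0 := by
      intro h0
      have := z.2
      rw [mem_sphere_zero_iff_norm, h0, norm_zero] at this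
      exact zero_ne_one this
    have h1 : ∀ k : Fin (R + n), inner ℂ (adjoint (A n R (z : E (n + 1)))
        (EuclideanSpace.single k (1 : ℂ))) v = A n R (z : E (n + 1)) v k := by
      intro k
      rw [ContinuousLinearMap.adjoint_inner_left, EuclideanSpace.inner_single_left]
      simp
    simp only [h1]
    have h2 : ‖A n R (z : E (n + 1)) v‖ ^ 2 = ‖v‖ ^ 2 := by
      have h3 : ⟪A n R (z : E (n + 1)) v, A n R (z : E (n + 1)) v⟫_ℂ = ⟪v, v⟫_ℂ := by
        rw [← ContinuousLinearMap.adjoint_inner_left, adjoint_A_comp n R _ hz]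
      rw [inner_self_eq_norm_sq_to_K, inner_self_eq_norm_sq_to_K] at h3
      exact_mod_cast h3
    rw [← h2, EuclideanSpace.norm_sq_eq]

end Pool.Agent.Lib.MP_1cc3c1_an
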