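import Pool.Agent.Lib.MP_1cc3c1_an.Terms

/-!
The function `kap` which fixes the number of witnesses for every term.
-/

namespace Pool.Agent.Lib.MP_1cc3c1_an

open Tm _root_.Pool.Agent.Lib.MP_1cc3c1_an.Rep

/-- The Hilbert space of dimension `N + 1`. -/
abbrev Hs (N : ℕ) : Type := EuclideanSpace ℂ (Fin (N + 1))

/-- The matrix algebra, as operators on `Hs N`. -/
abbrev BH (N : ℕ) : Type := Hs N →L[ℂ] Hs N

/-- The admissible numbers of witnesses. -/
def KSet (κ : Tm → ℕ) (q : Tm) : Set ℕ :=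
  {K | ∃ C N : ℕ, 10 * (C * (N + 1)) * 2 ^ code q ≤ K ∧
    ∃ π : Fin C → Rep (BH N), ∀ h : ℤ, ∃ i, (∀ q' ∈ sub q, Sat κ (π i) (sh h q')) ∧
      1 < ‖(π i).ev (sh h q)‖}

theorem KSet_congr {κ κ' : Tm → ℕ} {q : Tm} (h : ∀ q', size q' < size q → κ q' = κ' q') :
    KSet κ q = KSet κ' q := by
  have key : ∀ (N : ℕ) (ρ : Rep (BH N)) (k : ℤ), ∀ q' ∈ sub q,
      (Sat κ ρ (sh k q') ↔ Sat κ' ρ (sh k q')) := by
    intro N ρ k q' hq'
    have : κ (sh k q') = κ' (sh k q') := h _ (by rw [size_sh]; exact size_lt_of_mem_sub hq')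
    unfold Sat
    rw [this]
  ext K
  simp only [KSet, Set.mem_ofPred_eq]
  constructor
  · rintro ⟨C, N, hK, π, hπ⟩
    refine ⟨C, N, hK, π, fun k => ?_⟩
    obtain ⟨i, h1, h2⟩ := hπ k
    exact ⟨i, fun q' hq' => (key N _ k q' hq').1 (h1 q' hq'), h2⟩
  · rintro ⟨C, N, hK, π, hπ⟩
    refine ⟨C, N, hK, π, fun k => ?_⟩
    obtain ⟨i, h1, h2⟩ := hπ k
    exact ⟨i, fun q' hq' => (key N _ k q' hq').2 (h1 q' hq'), h2⟩

/-- The number of witnesses attached to a term; the value zero means that no relation is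
imposed. -/
noncomputable def kap : Tm → ℕ :=
  WellFounded.fix (measure size).wf (fun q rec =>
    sInf (KSet (fun q' => if h : size q' < size q then rec q' h else 0) q))

theorem kap_eq (q : Tm) : kap q = sInf (KSet kap q) := by
  unfold kap
  rw [WellFounded.fix_eq]
  congr 1
  refine KSet_congr fun q' hq' => ?_
  rw [dif_pos hq']

theorem KSet_sh (k : ℤ) (q : Tm) : KSet kap (sh k q) = KSet kap q := by
  ext K
  simp only [KSet, Set.mem_ofPred_eq, code_sh, sub_sh]
  constructor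
  · rintro ⟨C, N, hK, π, hπ⟩
    refine ⟨C, N, hK, π, fun h => ?_⟩
    obtain ⟨i, h1, h2⟩ := hπ (h - k)
    refine ⟨i, fun q' hq' => ?_, ?_⟩
    · have := h1 (sh k q') (Set.mem_image_of_mem _ hq')
      rwa [sh_sh, sub_add_cancel] at this
    · rwa [sh_sh, sub_add_cancel] at h2
  · rintro ⟨C, N, hK, π, hπ⟩
    refine ⟨C, N, hK, π, fun h => ?_⟩
    obtain ⟨i, h1, h2⟩ := hπ (h + k)
    refine ⟨i, ?_, ?_⟩
    · rintro _ ⟨q', hq', rfl⟩
      rw [sh_sh]
      exact h1 q' hq'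
    · rwa [sh_sh]

theorem kap_sh (k : ℤ) (q : Tm) : kap (sh k q) = kap q := by
  rw [kap_eq, kap_eq q, KSet_sh]

theorem kap_mem {q : Tm} (h : 0 < kap q) : kap q ∈ KSet kap q := by
  have hne : (KSet kap q).Nonempty := by
    rw [Set.nonempty_iff_ne_empty]
    intro he
    rw [kap_eq, he, Nat.sInf_empty] at h
    exact lt_irrefl _ h
  have := Nat.sInf_mem hne
  rwa [← kap_eq] at this

theorem kap_pos_of_mem {q : Tm} {K : ℕ} (h : K ∈ KSet kap q) : 0 < kap q := by
  have hmem := Nat.sInf_mem ⟨K, h⟩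
  rw [← kap_eq] at hmem
  obtain ⟨C, N, hK, π, hπ⟩ := hmem
  obtain ⟨i, -⟩ := hπ 0
  have hC : 0 < C := i.pos
  refine lt_of_lt_of_le ?_ hK
  positivity

/-- If a term has norm larger than one in a matrix representation which satisfies all relations
of the labels of the term, then it gets a relation itself. -/
theorem kap_pos {N : ℕ} (ρ : Rep (BH N)) {q : Tm} (h1 : ∀ q' ∈ sub q, Sat kap ρ q')
    (h2 : 1 < ‖ρ.ev q‖) : 0 < kap q := by
  obtain ⟨M, hM⟩ : ∃ M : ℕ, ∀ k ∈ supp q, |k| ≤ M := by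
    obtain ⟨b, hb⟩ := ((supp_finite q).image (fun k : ℤ => |k|)).bddAbove
    refine ⟨b.toNat, fun k hk => ?_⟩
    have := hb (Set.mem_image_of_mem _ hk)
    exact this.trans (Int.self_le_toNat b)
  set P : ℕ := 2 * M + 1 with hP
  let c : Fin P → ℤ → ℤ := fun i k => (k - i + M) % P - M
  have hP0 : (0 : ℤ) < P := by omega
  have key : ∀ h : ℤ, ∃ i : Fin P, ∀ k ∈ supp q, c i (k + h) = k := by
    intro h
    have hlt : (h % P).toNat < P := by
      have := Int.emod_lt_of_pos h hP0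
      have := Int.emod_nonneg h hP0.ne'
      omega
    refine ⟨⟨(h % P).toNat, hlt⟩, fun k hk => ?_⟩
    have hk' := hM k hk
    rw [abs_le] at hk'
    have e : (((h % P).toNat : ℕ) : ℤ) = h % P :=
      Int.toNat_of_nonneg (Int.emod_nonneg h hP0.ne')
    simp only [c, e]
    have : (k + h - h % P + M) % P = (k + M) % P := by
      have h3 : k + h - h % P + M = (k + M) + P * (h / P) := by
        have := Int.emod_add_mul_ediv h P
        linarith
      rw [h3, Int.add_mul_emod_self_left]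
    rw [this, Int.emod_eq_of_lt (by omega) (by omega)]
    ring
  have hmap : ∀ (h : ℤ) (i : Fin P), (∀ k ∈ supp q, c i (k + h) = k) → ∀ t, supp t ⊆ supp q →
      Tm.map (c i) (sh h t) = t := by
    intro h i hi t ht
    rw [sh, Tm.map_map]
    exact map_eq_self fun k hk => hi k (ht hk)
  refine kap_pos_of_mem (K := 10 * (P * (N + 1)) * 2 ^ code q)
    ⟨P, N, le_rfl, fun i => ρ.pull (c i), fun h => ?_⟩
  obtain ⟨i, hi⟩ := key h
  refine ⟨i, fun q' hq' => ?_, ?_⟩
  · have hm := hmap h i hi q' (supp_subset_of_mem hq')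
    rw [sat_pull_iff (by rw [hm, kap_sh]), hm]
    exact h1 q' hq'
  · rw [ev_pull, hmap h i hi q subset_rfl]
    exact h2

end Pool.Agent.Lib.MP_1cc3c1_an
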