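import Pool.Agent.Lib.MP_1cc3c1_an.Conc

/-!
Simplicity and the failure of pseudoperiodicity.
-/

namespace Pool.Agent.Lib.MP_1cc3c1_an

open Tm Filter Topology

/-- The left hand side of the relation as a term. -/
def relT (q : Tm) : ℕ → Tm
  | 0 => c 0 0
  | K + 1 => add (relT q K) (mul (mul (st (r q K)) (mul (st q) q)) (r q K))

/-- The column norm as a term. -/
def relS (q : Tm) : ℕ → Tm
  | 0 => c 0 0
  | K + 1 => add (relS q K) (mul (st (r q K)) (r q K))

/-- Evaluation maps, given by rules. -/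
structure Evals {D : Type*} [CStarAlgebra D] (E : Tm → D) : Prop where
  c : ∀ a b : ℚ, E (c a b) = algebraMap ℂ D (a + b * Complex.I)
  add : ∀ s t, E (add s t) = E s + E t
  mul : ∀ s t, E (mul s t) = E s * E t
  st : ∀ t, E (st t) = star (E t)

theorem evals_ev {D : Type*} [CStarAlgebra D] (ρ : Rep D) : Evals ρ.ev :=
  ⟨fun _ _ => rfl, fun _ _ => rfl, fun _ _ => rfl, fun _ => rfl⟩

theorem Evals.relT {D : Type*} [CStarAlgebra D] {E : Tm → D} (h : Evals E) (q : Tm) (K : ℕ) :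
    E (relT q K) = ∑ j ∈ Finset.range K, star (E (r q j)) * (star (E q) * E q) * E (r q j) := by
  induction K with
  | zero => simp [MP_1cc3c1_an.relT, h.c]
  | succ K ih =>
    rw [MP_1cc3c1_an.relT, h.add, ih, Finset.sum_range_succ, h.mul, h.mul, h.mul, h.st, h.st]

theorem Evals.relS {D : Type*} [CStarAlgebra D] {E : Tm → D} (h : Evals E) (q : Tm) (K : ℕ) :
    E (relS q K) = ∑ j ∈ Finset.range K, star (E (r q j)) * E (r q j) := by
  induction K with
  | zero => simp [MP_1cc3c1_an.relS, h.c]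
  | succ K ih =>
    rw [MP_1cc3c1_an.relS, h.add, ih, Finset.sum_range_succ, h.mul, h.st]

/-- The order theoretic core of simplicity. -/
theorem isUnit_of_rel {D : Type*} [CStarAlgebra D] (K : ℕ) (w : ℕ → D) (t y : D)
    (h1 : ∑ j ∈ Finset.range K, star (w j) * (star t * t) * w j = 1)
    (h2 : ‖∑ j ∈ Finset.range K, star (w j) * w j‖ ≤ 1)
    (h3 : ‖star t * t - star y * y‖ ≤ 1 / 2) :
    IsUnit (∑ j ∈ Finset.range K, star (w j) * (star y * y) * w j) := by
  letI := CStarAlgebra.spectralOrder D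
  letI := CStarAlgebra.spectralOrderedRing D
  set c := star t * t - star y * y with hc
  have hcs : IsSelfAdjoint c := (IsSelfAdjoint.star_mul_self t).sub (IsSelfAdjoint.star_mul_self y)
  have e1 : c ≤ algebraMap ℝ D (1 / 2) := by
    refine hcs.le_algebraMap_norm_self.trans ?_
    have : algebraMap ℝ D (1 / 2) - algebraMap ℝ D ‖c‖ = algebraMap ℝ D (1 / 2 - ‖c‖) := by
      rw [map_sub]
    rw [← sub_nonneg, this]
    exact algebraMap_nonneg D (by linarith)
  have e2 : ∑ j ∈ Finset.range K, star (w j) * w j ≤ 1 := by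
    have hs : IsSelfAdjoint (∑ j ∈ Finset.range K, star (w j) * w j) :=
      isSelfAdjoint_sum _ fun j _ => IsSelfAdjoint.star_mul_self _
    refine hs.le_algebraMap_norm_self.trans ?_
    have : (1 : D) - algebraMap ℝ D ‖∑ j ∈ Finset.range K, star (w j) * w j‖ =
        algebraMap ℝ D (1 - ‖∑ j ∈ Finset.range K, star (w j) * w j‖) := by
      rw [map_sub, map_one]
    rw [← sub_nonneg, this]
    exact algebraMap_nonneg D (by linarith)
  have e3 : ∑ j ∈ Finset.range K, star (w j) * c * w j ≤ algebraMap ℝ D (1 / 2) := by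
    have h4 : ∑ j ∈ Finset.range K, star (w j) * c * w j ≤
        ∑ j ∈ Finset.range K, (1 / 2 : ℝ) • (star (w j) * w j) := by
      refine Finset.sum_le_sum fun j _ => ?_
      refine (star_left_conjugate_le_conjugate e1 (w j)).trans (le_of_eq ?_)
      rw [Algebra.algebraMap_eq_smul_one]
      simp
    refine h4.trans ?_
    rw [← Finset.smul_sum, Algebra.algebraMap_eq_smul_one]
    exact smul_le_smul_of_nonneg_left e2 (by norm_num)
  have e4 : ∑ j ∈ Finset.range K, star (w j) * c * w j =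
      1 - ∑ j ∈ Finset.range K, star (w j) * (star y * y) * w j := by
    rw [← h1, ← Finset.sum_sub_distrib]
    refine Finset.sum_congr rfl fun j _ => ?_
    rw [hc]
    noncomm_ring
  have e5 : algebraMap ℝ D (1 / 2) ≤
      ∑ j ∈ Finset.range K, star (w j) * (star y * y) * w j := by
    rw [e4] at e3
    have : algebraMap ℝ D (1 / 2) = 1 - algebraMap ℝ D (1 / 2) := by
      rw [← map_one (algebraMap ℝ D), ← map_sub]
      norm_num
    rw [this]
    exact sub_le_comm.1 e3
  refine CStarAlgebra.isUnit_of_le _ e5 ?_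
  refine ⟨algebraMap_nonneg D (by norm_num), ?_⟩
  exact (isUnit_iff_ne_zero.2 (by norm_num : (1 / 2 : ℝ) ≠ 0)).map (algebraMap ℝ D)

theorem ev_rel_eq_zero {A : Type*} [CStarAlgebra A] (ρ : Rep A) {q : Tm}
    (h : Rep.Sat kap ρ q) (hq : 0 < kap q) :
    ρ.ev (add (MP_1cc3c1_an.relT q (kap q)) (c (-1) 0)) = 0 := by
  rw [(evals_ev ρ).add, (evals_ev ρ).relT, (evals_ev ρ).c]
  have h4 : ∑ j ∈ Finset.range (kap q), star (ρ.ev (r q j)) * (star (ρ.ev q) * ρ.ev q) *
      ρ.ev (r q j) = 1 := (h hq).1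
  rw [h4]
  simp

theorem norm_ev_relS {A : Type*} [CStarAlgebra A] (ρ : Rep A) {q : Tm}
    (h : Rep.Sat kap ρ q) (hq : 0 < kap q) :
    ‖ρ.ev (MP_1cc3c1_an.relS q (kap q))‖ ≤ 1 := by
  rw [(evals_ev ρ).relS]
  exact (h hq).2

/-- Evaluation at a point. -/
def evalHom (X A : Type) [TopologicalSpace X] [CompactSpace X] [CStarAlgebra A] (z : X) :
    C(X, A) →⋆ₐ[ℂ] A where
  toFun f := f z
  map_one' := rfl
  map_mul' _ _ := rfl
  map_zero' := rfl
  map_add' _ _ := rfl
  commutes' _ := rfl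
  map_star' _ := rfl

/-- Passing to a point of the sphere. -/
theorem exists_point {F0 : Set Tm} {t : Tm}
    (h : ∃ (n N : ℕ) (ρ : Rep C(Sph n, BH N)), (∀ q ∈ F0, Rep.Sat kap ρ q) ∧ 1 < ‖ρ.ev t‖) :
    ∃ (N : ℕ) (ρ : Rep (BH N)), (∀ q ∈ F0, Rep.Sat kap ρ q) ∧ 1 < ‖ρ.ev t‖ := by
  obtain ⟨n, N, ρ, h1, h2⟩ := h
  obtain ⟨z, hz⟩ : ∃ z, 1 < ‖ρ.ev t z‖ := by
    by_contra hcon
    push Not at hcon
    have := (ContinuousMap.norm_le (ρ.ev t) zero_le_one).2 hcon
    linarith
  obtain ⟨ρ', h3, h4⟩ := exists_push (B := BH N) ρ (evalHom (Sph n) (BH N) z)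
  refine ⟨N, ρ', fun q hq => h3 q (h1 q hq), ?_⟩
  rw [h4]
  exact hz

/-- Additivity in the approximation arguments. -/
theorem norm_star_mul_sub {D : Type*} [CStarAlgebra D] {y t : D} (hy : ‖y‖ = 2)
    (h : ‖y - t‖ ≤ 1 / 100) : ‖star t * t - star y * y‖ ≤ 1 / 20 := by
  have ht : ‖t‖ ≤ 2 + 1 / 100 := by
    have : t = y - (y - t) := by abel
    rw [this]
    exact (norm_sub_le _ _).trans (by rw [hy]; linarith)
  have e : star t * t - star y * y = -(star t * (y - t) + star (y - t) * y) := by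
    rw [star_sub]
    noncomm_ring
  rw [e, norm_neg]
  refine (norm_add_le _ _).trans ?_
  have h1 : ‖star t * (y - t)‖ ≤ (2 + 1 / 100) * (1 / 100) := by
    refine (norm_mul_le _ _).trans ?_
    rw [norm_star]
    exact mul_le_mul ht h (norm_nonneg _) (by norm_num)
  have h2 : ‖star (y - t) * y‖ ≤ (1 / 100) * 2 := by
    refine (norm_mul_le _ _).trans ?_
    rw [norm_star, hy]
    exact mul_le_mul_of_nonneg_right h (by norm_num)
  linarith

theorem main : ∃ (D : Type) (_ : CStarAlgebra D) (_ : PartialOrder D) (_ : StarOrderedRing D),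
    TopologicalSpace.SeparableSpace D ∧ IsSimpleRing D ∧
    ∃ (σ : D ≃⋆ₐ[ℂ] D) (a : D), 0 ≤ a ∧ a ≠ 0 ∧ ∀ b : D, 0 ≤ b → b ≠ 0 →
      ∃ n : ℕ, ¬ ∃ v : ℕ → D, Tendsto (fun k => ‖v k * (σ^[n] a) * star (v k) - b‖) atTop (𝓝 0) := by
  obtain ⟨D, hD, E, hE0, hE1, hE2, hE3, hE4, hN1, hN2, hsh⟩ := exists_algebra
  have hE : Evals E := ⟨hE1, hE2, hE3, hE4⟩
  let _ := CStarAlgebra.spectralOrder D
  let _ := CStarAlgebra.spectralOrderedRing D
  have hcount := countable_tm
  have hsep : TopologicalSpace.SeparableSpace D := ⟨⟨Set.range E, Set.countable_range E, hE0⟩⟩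
  -- the first generator is not small
  have hx0 : 1 ≤ ‖E (x 0)‖ := by
    by_contra hcon
    push Not at hcon
    obtain ⟨F0, hF, h⟩ := hN1 _ _ hcon
    obtain ⟨n, N, ρ, h1, h2⟩ := exists_test_nonempty hF
    exact absurd (h n N ρ h1) (not_lt.2 h2)
  have hnt : Nontrivial D := by
    refine ⟨⟨E (x 0), 0, fun h => ?_⟩⟩
    rw [h, norm_zero] at hx0
    linarith
  -- large terms have large test values
  have hlarge : ∀ t : Tm, 1 < ‖E t‖ → ∀ F0 : Set Tm, F0.Finite →
      ∃ (N : ℕ) (ρ : Rep (BH N)), (∀ q ∈ F0, Rep.Sat kap ρ q) ∧ 1 < ‖ρ.ev t‖ := by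
    intro t ht F0 hF
    refine exists_point ?_
    by_contra hcon
    push Not at hcon
    exact absurd (hN2 t 1 zero_le_one ⟨F0, hF, hcon⟩) (not_le.2 ht)
  have hkap : ∀ t : Tm, 1 < ‖E t‖ → 0 < kap t := by
    intro t ht
    obtain ⟨N, ρ, h1, h2⟩ := hlarge t ht (sub t) (sub_finite t)
    exact kap_pos ρ h1 h2
  -- the relations hold in D
  have hrel1 : ∀ q, 0 < kap q →
      ∑ j ∈ Finset.range (kap q), star (E (r q j)) * (star (E q) * E q) * E (r q j) = 1 := by
    intro q hq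
    have h1 : ‖E (add (relT q (kap q)) (c (-1) 0))‖ ≤ 0 := by
      refine hN2 _ 0 le_rfl ⟨{q}, Set.finite_singleton q, fun n N ρ hρ => ?_⟩
      rw [ev_rel_eq_zero ρ (hρ q rfl) hq]
      exact (norm_zero (E := C(Sph n, BH N))).le
    have h2 := norm_le_zero_iff.1 h1
    rw [hE.add, hE.relT, hE.c] at h2
    have h3 : algebraMap ℂ D (((-1 : ℚ) : ℂ) + ((0 : ℚ) : ℂ) * Complex.I) = -1 := by simp
    rw [h3] at h2
    exact add_neg_eq_zero.1 h2
  have hrel2 : ∀ q, 0 < kap q →
      ‖∑ j ∈ Finset.range (kap q), star (E (r q j)) * E (r q j)‖ ≤ 1 := by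
    intro q hq
    rw [← hE.relS]
    refine hN2 _ 1 zero_le_one ⟨{q}, Set.finite_singleton q, fun n N ρ hρ => ?_⟩
    exact norm_ev_relS ρ (hρ q rfl) hq
  -- scaling and approximation
  have happrox : ∀ y : D, ‖y‖ = 2 → ∃ t : Tm, ‖y - E t‖ ≤ 1 / 100 ∧ 1 < ‖E t‖ := by
    intro y hy
    obtain ⟨t, ht⟩ := hE0.exists_dist_lt y (by norm_num : (0 : ℝ) < 1 / 100)
    rw [dist_eq_norm] at ht
    refine ⟨t, ht.le, ?_⟩
    have : ‖y‖ ≤ ‖y - E t‖ + ‖E t‖ := by
      calc ‖y‖ = ‖(y - E t) + E t‖ := by congr 1; abel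
        _ ≤ _ := norm_add_le _ _
    linarith
  -- simplicity
  have hsimple : IsSimpleRing D := by
    refine IsSimpleRing.of_eq_bot_or_eq_top fun I => ?_
    rw [or_iff_not_imp_left, ← I.one_mem_iff]
    intro hI
    obtain ⟨y0, hy0, hy1 : y0 ≠ 0⟩ := SetLike.exists_of_lt (bot_lt_iff_ne_bot.mpr hI : ⊥ < I)
    have hy2 : 0 < ‖y0‖ := norm_pos_iff.2 hy1
    set y : D := algebraMap ℂ D ((2 / ‖y0‖ : ℝ) : ℂ) * y0 with hy
    have hyI : y ∈ I := I.mul_mem_left _ _ hy0
    have hyn : ‖y‖ = 2 := by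
      rw [hy, ← Algebra.smul_def, norm_smul, Complex.norm_real, Real.norm_eq_abs,
        abs_of_pos (by positivity)]
      field_simp
    obtain ⟨t, ht1, ht2⟩ := happrox y hyn
    have hk := hkap t ht2
    have hu := isUnit_of_rel (kap t) (fun j => E (r t j)) (E t) y (hrel1 t hk) (hrel2 t hk)
      ((norm_star_mul_sub hyn ht1).trans (by norm_num))
    have hmem : ∑ j ∈ Finset.range (kap t), star (E (r t j)) * (star y * y) * E (r t j) ∈ I := by
      refine sum_mem fun j _ => ?_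
      exact I.mul_mem_right _ _ (I.mul_mem_left _ _ (I.mul_mem_left _ _ hyI))
    obtain ⟨u, hu⟩ := hu
    rw [← hu] at hmem
    have := I.mul_mem_left (↑u⁻¹ : D) _ hmem
    rwa [Units.inv_mul] at this
  -- the automorphism
  choose φ hφ using hsh
  have hφc : ∀ h, Continuous (φ h) := by
    intro h
    refine LipschitzWith.continuous (K := 1) ?_
    refine LipschitzWith.of_dist_le_mul fun a b => ?_
    rw [dist_eq_norm, dist_eq_norm, ← map_sub]
    simpa using NonUnitalStarAlgHom.norm_apply_le (φ h) (a - b)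
  have hinv : ∀ h k, h + k = 0 → ∀ y, φ h (φ k y) = y := by
    intro h k hk y
    have : (fun y => φ h (φ k y)) = id := by
      refine hE0.equalizer ((hφc h).comp (hφc k)) continuous_id ?_
      funext t
      simp only [Function.comp, id]
      rw [hφ, hφ, sh_sh, hk, sh_zero]
    exact congrFun this y
  let σ : D ≃⋆ₐ[ℂ] D :=
    { toFun := φ 1
      invFun := φ (-1)
      left_inv := hinv (-1) 1 (by norm_num)
      right_inv := hinv 1 (-1) (by norm_num)
      map_mul' := map_mul (φ 1)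
      map_add' := map_add (φ 1)
      map_star' := map_star (φ 1)
      map_smul' := map_smul (φ 1) }
  have hσ : ∀ (n : ℕ) (t : Tm), σ^[n] (E t) = E (sh n t) := by
    intro n
    induction n with
    | zero => intro t; simp [sh_zero]
    | succ n ih =>
      intro t
      rw [Function.iterate_succ_apply', ih]
      change φ 1 (E (sh n t)) = _
      rw [hφ, sh_sh]
      congr 2
      push_cast
      ring
  refine ⟨D, hD, inferInstance, inferInstance, hsep, hsimple, σ, E (mul (st (x 0)) (x 0)), ?_, ?_,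
    ?_⟩
  · rw [hE.mul, hE.st]
    exact star_mul_self_nonneg _
  · rw [hE.mul, hE.st]
    intro h
    have h1 := CStarRing.norm_star_mul_self (x := E (x 0))
    rw [h, norm_zero] at h1
    nlinarith
  intro b hb hb0
  by_contra hcon
  push Not at hcon
  obtain ⟨y0, hy0⟩ := CStarAlgebra.nonneg_iff_eq_star_mul_self.1 hb
  have hy1 : y0 ≠ 0 := by
    rintro rfl
    exact hb0 (by rw [hy0]; simp)
  have hy2 : 0 < ‖y0‖ := norm_pos_iff.2 hy1
  set l : ℝ := 2 / ‖y0‖ with hl
  have hlpos : 0 < l := by positivity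
  set y : D := (l : ℂ) • y0 with hy
  have hyn : ‖y‖ = 2 := by
    rw [hy, norm_smul, Complex.norm_real, Real.norm_eq_abs, abs_of_pos hlpos, hl]
    field_simp
  have hyb : star y * y = ((l : ℂ) * l) • b := by
    rw [hy, star_smul, smul_mul_smul_comm, hy0]
    simp
  obtain ⟨t, ht1, ht2⟩ := happrox y hyn
  -- a fresh index
  obtain ⟨n, hn⟩ : ∃ n : ℕ, (n : ℤ) ∉ supp t := by
    have hinf : (Set.range (fun n : ℕ => (n : ℤ))).Infinite :=
      Set.infinite_range_of_injective Nat.cast_injective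
    obtain ⟨_, ⟨n, rfl⟩, hn⟩ := hinf.exists_notMem_finite (supp_finite t)
    exact ⟨n, hn⟩
  set a : D := star (E (x n)) * E (x n) with ha
  have han : σ^[n] (E (mul (st (x 0)) (x 0))) = a := by
    rw [hσ]
    have : sh n (mul (st (x 0)) (x 0)) = mul (st (x n)) (x n) := by
      simp [sh, Tm.map]
    rw [this, hE.mul, hE.st]
  obtain ⟨v, hv⟩ := hcon n
  rw [han] at hv
  have hv2 : Tendsto (fun k => ‖((l : ℂ) • v k) * a * star ((l : ℂ) • v k) - star y * y‖) atTop
      (𝓝 0) := by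
    have h1 := hv.const_mul (l * l)
    rw [mul_zero] at h1
    refine h1.congr fun k => ?_
    have h2 : ((l : ℂ) • v k) * a * star ((l : ℂ) • v k) - star y * y =
        ((l : ℂ) * l) • (v k * a * star (v k) - b) := by
      rw [hyb, star_smul, smul_sub]
      congr 1
      simp only [smul_mul_assoc, mul_smul_comm, smul_smul]
      simp
    rw [h2, norm_smul]
    congr 1
    rw [norm_mul, Complex.norm_real, Real.norm_eq_abs, abs_of_pos hlpos]
  obtain ⟨k, hk⟩ := (hv2.eventually (gt_mem_nhds (by norm_num : (0 : ℝ) < 1 / 20))).exists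
  have hopen : IsOpen {w : D | ‖w * a * star w - star y * y‖ < 1 / 20} := by
    refine isOpen_lt ?_ continuous_const
    fun_prop
  obtain ⟨s, hs⟩ := hE0.exists_mem_open hopen ⟨_, hk⟩
  -- the critical term
  let W : Tm := add (mul (mul s (mul (st (x n)) (x n))) (st s)) (mul (c (-1) 0) (mul (st t) t))
  have hW : ∀ {A : Type} [CStarAlgebra A] (G : Tm → A), Evals G →
      G W = G s * (star (G (x n)) * G (x n)) * star (G s) - star (G t) * G t := by
    intro A _ G hG
    simp only [W]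
    rw [hG.add, hG.mul, hG.mul, hG.mul, hG.mul, hG.mul, hG.c, hG.st, hG.st, hG.st]
    have h3 : algebraMap ℂ A (((-1 : ℚ) : ℂ) + ((0 : ℚ) : ℂ) * Complex.I) = -1 := by simp
    rw [h3]
    noncomm_ring
  have hEW : ‖E W‖ < 1 := by
    rw [hW E hE]
    have h4 := norm_star_mul_sub hyn ht1
    have h5 : E s * (star (E (x n)) * E (x n)) * star (E s) - star (E t) * E t =
        (E s * a * star (E s) - star y * y) - (star (E t) * E t - star y * y) := by
      rw [ha]; abel
    rw [h5]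
    have h6 : ‖E s * a * star (E s) - star y * y‖ < 1 / 20 := hs
    refine (norm_sub_le _ _).trans_lt ?_
    linarith
  obtain ⟨F0, hF, h6⟩ := hN1 _ _ hEW
  obtain ⟨N, ρ, h7, h8⟩ := hlarge t ht2 F0 hF
  obtain ⟨m, N', ρ', h9, h10⟩ := exists_test_obstruct hF ρ h7 s t n hn h8
  have h11 := h6 m N' ρ' h9
  rw [hW ρ'.ev (evals_ev ρ')] at h11
  exact absurd h11 (not_lt.2 h10)

end Pool.Agent.Lib.MP_1cc3c1_an
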