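import Mathlib

/-!
Terms (formal star polynomials with Skolem symbols) for the problem MP_1cc3c1_an.
-/

namespace Pool.Agent.Lib.MP_1cc3c1_an

/-- Formal terms: generators `x h` (h an integer), scalars from the Gaussian rationals, sums,
products, adjoints and for every term `q` and every index `j` a further generator `r q j`. -/
inductive Tm : Type
  | x : ℤ → Tm
  | c : ℚ → ℚ → Tm
  | add : Tm → Tm → Tm
  | mul : Tm → Tm → Tm
  | st : Tm → Tm
  | r : Tm → ℕ → Tm

namespace Tm

/-- Renaming of the indices of the basic generators, also inside of labels. -/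
def map (f : ℤ → ℤ) : Tm → Tm
  | x h => x (f h)
  | c a b => c a b
  | add s t => add (map f s) (map f t)
  | mul s t => mul (map f s) (map f t)
  | st t => st (map f t)
  | r q j => r (map f q) j

/-- The size of a term. -/
def size : Tm → ℕ
  | x _ => 1
  | c _ _ => 1
  | add s t => size s + size t + 1
  | mul s t => size s + size t + 1
  | st t => size t + 1
  | r q _ => size q + 1

/-- The indices which occur in a term, also inside of labels. -/
def supp : Tm → Set ℤ
  | x h => {h}
  | c _ _ => ∅
  | add s t => supp s ∪ supp t
  | mul s t => supp s ∪ supp t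
  | st t => supp t
  | r q _ => supp q

/-- The hereditary set of labels of a term. -/
def sub : Tm → Set Tm
  | x _ => ∅
  | c _ _ => ∅
  | add s t => sub s ∪ sub t
  | mul s t => sub s ∪ sub t
  | st t => sub t
  | r q _ => insert q (sub q)

/-- Translation by an integer. -/
def sh (h : ℤ) : Tm → Tm := map (fun k => k + h)

theorem size_pos (t : Tm) : 0 < size t := by
  cases t <;> simp [size]

theorem supp_finite (t : Tm) : (supp t).Finite := by
  induction t with
  | x h => simp [supp]
  | c a b => simp [supp]
  | add s t hs ht => exact hs.union ht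
  | mul s t hs ht => exact hs.union ht
  | st t ht => exact ht
  | r q j hq => exact hq

theorem sub_finite (t : Tm) : (sub t).Finite := by
  induction t with
  | x h => simp [sub]
  | c a b => simp [sub]
  | add s t hs ht => exact hs.union ht
  | mul s t hs ht => exact hs.union ht
  | st t ht => exact ht
  | r q j hq => exact hq.insert q

theorem size_lt_of_mem_sub {q t : Tm} (h : q ∈ sub t) : size q < size t := by
  induction t with
  | x h => simp [sub] at h
  | c a b => simp [sub] at h
  | add s t hs ht =>
    rcases h with h | h
    · have := hs h; simp only [size]; omega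
    · have := ht h; simp only [size]; omega
  | mul s t hs ht =>
    rcases h with h | h
    · have := hs h; simp only [size]; omega
    · have := ht h; simp only [size]; omega
  | st t ht => have := ht h; simp only [size]; omega
  | r p j hp =>
    rcases h with h | h
    · subst h; simp [size]
    · have := hp h; simp only [size]; omega

theorem sub_subset_of_mem {q t : Tm} (h : q ∈ sub t) : sub q ⊆ sub t := by
  induction t with
  | x h => simp [sub] at h
  | c a b => simp [sub] at h
  | add s t hs ht =>
    rcases h with h | h
    · exact (hs h).trans Set.subset_union_left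
    · exact (ht h).trans Set.subset_union_right
  | mul s t hs ht =>
    rcases h with h | h
    · exact (hs h).trans Set.subset_union_left
    · exact (ht h).trans Set.subset_union_right
  | st t ht => exact ht h
  | r p j hp =>
    rcases h with h | h
    · subst h; exact Set.subset_insert _ _
    · exact (hp h).trans (Set.subset_insert _ _)

theorem supp_subset_of_mem {q t : Tm} (h : q ∈ sub t) : supp q ⊆ supp t := by
  induction t with
  | x h => simp [sub] at h
  | c a b => simp [sub] at h
  | add s t hs ht =>
    rcases h with h | h
    · exact (hs h).trans Set.subset_union_left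
    · exact (ht h).trans Set.subset_union_right
  | mul s t hs ht =>
    rcases h with h | h
    · exact (hs h).trans Set.subset_union_left
    · exact (ht h).trans Set.subset_union_right
  | st t ht => exact ht h
  | r p j hp =>
    rcases h with h | h
    · subst h; exact Set.Subset.rfl
    · exact hp h

theorem map_map (f g : ℤ → ℤ) (t : Tm) : map f (map g t) = map (f ∘ g) t := by
  induction t with
  | x h => rfl
  | c a b => rfl
  | add s t hs ht => simp [map, hs, ht]
  | mul s t hs ht => simp [map, hs, ht]
  | st t ht => simp [map, ht]
  | r q j hq => simp [map, hq]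

theorem map_congr {f g : ℤ → ℤ} {t : Tm} (h : ∀ k ∈ supp t, f k = g k) : map f t = map g t := by
  induction t with
  | x k => simp [map, h k (by simp [supp])]
  | c a b => rfl
  | add s t hs ht =>
    simp only [map]
    rw [hs (fun k hk => h k (Or.inl hk)), ht (fun k hk => h k (Or.inr hk))]
  | mul s t hs ht =>
    simp only [map]
    rw [hs (fun k hk => h k (Or.inl hk)), ht (fun k hk => h k (Or.inr hk))]
  | st t ht => simp only [map]; rw [ht h]
  | r q j hq => simp only [map]; rw [hq h]

theorem map_id' (t : Tm) : map (fun k => k) t = t := by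
  induction t with
  | x h => rfl
  | c a b => rfl
  | add s t hs ht => simp [map, hs, ht]
  | mul s t hs ht => simp [map, hs, ht]
  | st t ht => simp [map, ht]
  | r q j hq => simp [map, hq]

theorem map_eq_self {f : ℤ → ℤ} {t : Tm} (h : ∀ k ∈ supp t, f k = k) : map f t = t := by
  rw [map_congr (g := fun k => k) h, map_id']

theorem size_map (f : ℤ → ℤ) (t : Tm) : size (map f t) = size t := by
  induction t with
  | x h => rfl
  | c a b => rfl
  | add s t hs ht => simp [map, size, hs, ht]
  | mul s t hs ht => simp [map, size, hs, ht]
  | st t ht => simp [map, size, ht]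
  | r q j hq => simp [map, size, hq]

theorem sub_map (f : ℤ → ℤ) (t : Tm) : sub (map f t) = map f '' sub t := by
  induction t with
  | x h => simp [map, sub]
  | c a b => simp [map, sub]
  | add s t hs ht => simp [map, sub, hs, ht, Set.image_union]
  | mul s t hs ht => simp [map, sub, hs, ht, Set.image_union]
  | st t ht => simp [map, sub, ht]
  | r q j hq => simp [map, sub, hq, Set.image_insert_eq]

theorem sh_zero (t : Tm) : sh 0 t = t := by
  simp only [sh, add_zero]; exact map_id' t

theorem sh_sh (h k : ℤ) (t : Tm) : sh h (sh k t) = sh (h + k) t := by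
  simp only [sh, map_map]
  congr 1
  funext l
  simp only [Function.comp]
  ring

theorem size_sh (h : ℤ) (t : Tm) : size (sh h t) = size t := size_map _ t

theorem sub_sh (h : ℤ) (t : Tm) : sub (sh h t) = sh h '' sub t := sub_map _ t

/-- An injective coding of terms by lists of natural numbers. -/
theorem countable_tm : Countable Tm := by
  let f : ℕ → Set Tm := fun n => {t | size t ≤ n}
  have hf : ∀ n, (f n).Countable := by
    intro n
    induction n with
    | zero =>
      have : f 0 = ∅ := by
        ext t
        simp only [f, Set.mem_ofPred_eq, Set.mem_empty_iff_false, iff_false, not_le]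
        exact size_pos t
      rw [this]; exact Set.countable_empty
    | succ n ih =>
      have : f (n + 1) ⊆ (Set.range Tm.x) ∪ (Set.range (fun p : ℚ × ℚ => Tm.c p.1 p.2)) ∪
          (Set.image2 Tm.add (f n) (f n)) ∪ (Set.image2 Tm.mul (f n) (f n)) ∪
          (Tm.st '' (f n)) ∪ (Set.image2 Tm.r (f n) Set.univ) := by
        intro t ht
        simp only [f, Set.mem_ofPred_eq] at ht
        cases t with
        | x h => simp
        | c a b => simp
        | add s t =>
          simp only [size] at ht
          left; left; left; right
          exact ⟨s, by simp only [f, Set.mem_ofPred_eq]; omega, t,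
            by simp only [f, Set.mem_ofPred_eq]; omega, rfl⟩
        | mul s t =>
          simp only [size] at ht
          left; left; right
          exact ⟨s, by simp only [f, Set.mem_ofPred_eq]; omega, t,
            by simp only [f, Set.mem_ofPred_eq]; omega, rfl⟩
        | st t =>
          simp only [size] at ht
          left; right
          exact ⟨t, by simp only [f, Set.mem_ofPred_eq]; omega, rfl⟩
        | r q j =>
          simp only [size] at ht
          right
          exact ⟨q, by simp only [f, Set.mem_ofPred_eq]; omega, j, trivial, rfl⟩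
      refine Set.Countable.mono this ?_
      refine (((((Set.countable_range _).union (Set.countable_range _)).union
        (ih.image2 ih _)).union (ih.image2 ih _)).union (ih.image _)).union
        (ih.image2 (Set.to_countable _) _)
  have h : (Set.univ : Set Tm).Countable := by
    have : (Set.univ : Set Tm) = ⋃ n, f n := by
      ext t
      simp only [Set.mem_univ, Set.mem_iUnion, true_iff]
      exact ⟨size t, (le_refl (size t) : size t ≤ size t)⟩
    rw [this]
    exact Set.countable_iUnion hf
  exact Set.countable_univ_iff.1 h

/-- There is a coding of terms by natural numbers which separates exactly the orbits of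
the translations. -/
theorem exists_code : ∃ code : Tm → ℕ, (∀ h q, code (sh h q) = code q) ∧
    ∀ q q', code q = code q' → ∃ h, q' = sh h q := by
  classical
  have := countable_tm
  let s : Setoid Tm :=
    { r := fun q q' => ∃ h, q' = sh h q
      iseqv := ⟨fun q => ⟨0, (sh_zero q).symm⟩,
        fun {q q'} ⟨h, hh⟩ => ⟨-h, by rw [hh, sh_sh]; simp [sh_zero]⟩,
        fun {q q' q''} ⟨h, hh⟩ ⟨k, hk⟩ => ⟨k + h, by rw [hk, hh, sh_sh]⟩⟩ }
  have : Countable (Quotient s) := Quotient.countable
  obtain ⟨f, hf⟩ := exists_injective_nat (Quotient s)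
  refine ⟨fun q => f (Quotient.mk s q), ?_, ?_⟩
  · intro h q
    have : Quotient.mk s (sh h q) = Quotient.mk s q :=
      (Quotient.sound (show s.r q (sh h q) from ⟨h, rfl⟩)).symm
    simp only [this]
  · intro q q' h
    exact Quotient.exact (hf h)

/-- A fixed coding of the orbits. -/
noncomputable def code : Tm → ℕ := exists_code.choose

theorem code_sh (h : ℤ) (q : Tm) : code (sh h q) = code q := exists_code.choose_spec.1 h q

theorem eq_sh_of_code {q q' : Tm} (h : code q = code q') : ∃ k, q' = sh k q :=
  exists_code.choose_spec.2 q q' h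

end Tm

open Tm

/-- A representation of the generators by contractions of a unital C*-algebra. -/
structure Rep (A : Type*) [CStarAlgebra A] where
  X : ℤ → A
  R : Tm → ℕ → A
  hX : ∀ h, ‖X h‖ ≤ 1
  hR : ∀ q j, ‖R q j‖ ≤ 1

namespace Rep

variable {A B : Type*} [CStarAlgebra A] [CStarAlgebra B]

/-- Evaluation of terms. -/
noncomputable def ev (ρ : Rep A) : Tm → A
  | x h => ρ.X h
  | c a b => algebraMap ℂ A (a + b * Complex.I)
  | add s t => ev ρ s + ev ρ t
  | mul s t => ev ρ s * ev ρ t
  | st t => star (ev ρ t)
  | r q j => ρ.R q j

/-- Pull back of a representation along a renaming of the indices. -/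
def pull (ρ : Rep A) (f : ℤ → ℤ) : Rep A where
  X h := ρ.X (f h)
  R q j := ρ.R (Tm.map f q) j
  hX _ := ρ.hX _
  hR _ _ := ρ.hR _ _

theorem ev_pull (ρ : Rep A) (f : ℤ → ℤ) (t : Tm) : (ρ.pull f).ev t = ρ.ev (Tm.map f t) := by
  induction t with
  | x h => rfl
  | c a b => rfl
  | add s t hs ht => simp [Tm.map, ev, hs, ht]
  | mul s t hs ht => simp [Tm.map, ev, hs, ht]
  | st t ht => simp [Tm.map, ev, ht]
  | r q j hq => rfl

/-- Push forward of a representation along a star homomorphism. -/
def push (ρ : Rep A) (φ : A →⋆ₐ[ℂ] B) : Rep B where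
  X h := φ (ρ.X h)
  R q j := φ (ρ.R q j)
  hX h := (NonUnitalStarAlgHom.norm_apply_le φ _).trans (ρ.hX h)
  hR q j := (NonUnitalStarAlgHom.norm_apply_le φ _).trans (ρ.hR q j)

theorem ev_push (ρ : Rep A) (φ : A →⋆ₐ[ℂ] B) (t : Tm) : (ρ.push φ).ev t = φ (ρ.ev t) := by
  induction t with
  | x h => rfl
  | c a b => simp only [ev]; exact (AlgHomClass.commutes φ _).symm
  | add s t hs ht => simp [ev, hs, ht]
  | mul s t hs ht => simp [ev, hs, ht]
  | st t ht => simp only [ev, ht]; exact (map_star φ _).symm
  | r q j hq => rfl

/-- A bound for the norm of a term. -/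
noncomputable def bd : Tm → ℝ
  | x _ => 1
  | c a b => ‖(a + b * Complex.I : ℂ)‖
  | add s t => bd s + bd t
  | mul s t => bd s * bd t
  | st t => bd t
  | r _ _ => 1

theorem bd_nonneg (t : Tm) : 0 ≤ bd t := by
  induction t with
  | x h => simp [bd]
  | c a b => simp [bd]
  | add s t hs ht => simp only [bd]; positivity
  | mul s t hs ht => simp only [bd]; positivity
  | st t ht => exact ht
  | r q j hq => simp [bd]

theorem norm_ev_le (ρ : Rep A) (t : Tm) : ‖ρ.ev t‖ ≤ bd t := by
  induction t with
  | x h => exact ρ.hX h
  | c a b =>
    simp only [ev, bd]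
    rcases subsingleton_or_nontrivial A with h | h
    · rw [Subsingleton.elim (algebraMap ℂ A _) 0, norm_zero]; positivity
    · rw [norm_algebraMap']
  | add s t hs ht => exact (norm_add_le _ _).trans (add_le_add hs ht)
  | mul s t hs ht =>
    exact (norm_mul_le _ _).trans (mul_le_mul hs ht (norm_nonneg _) (bd_nonneg _))
  | st t ht => simpa [ev, bd] using ht
  | r q j hq => exact ρ.hR q j

/-- The relation attached to the label `q`: with `K = κ q > 0` the elements `r q j`, `j < K`,
witness that the ideal generated by `q` is everything, with a uniform bound. -/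
def Sat (κ : Tm → ℕ) (ρ : Rep A) (q : Tm) : Prop :=
  0 < κ q → (∑ j ∈ Finset.range (κ q), star (ρ.R q j) * (star (ρ.ev q) * ρ.ev q) * ρ.R q j = 1) ∧
    ‖∑ j ∈ Finset.range (κ q), star (ρ.R q j) * ρ.R q j‖ ≤ 1

theorem Sat.push {κ : Tm → ℕ} {ρ : Rep A} {q : Tm} (h : Sat κ ρ q) (φ : A →⋆ₐ[ℂ] B) :
    Sat κ (ρ.push φ) q := by
  intro hq
  obtain ⟨h1, h2⟩ := h hq
  constructor
  · have := congrArg φ h1
    simp only [map_sum, map_mul, map_star, map_one] at this
    rw [ev_push]
    exact this
  · have : ∑ j ∈ Finset.range (κ q), star ((ρ.push φ).R q j) * (ρ.push φ).R q j =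
        φ (∑ j ∈ Finset.range (κ q), star (ρ.R q j) * ρ.R q j) := by
      simp only [map_sum, map_mul, map_star]; rfl
    rw [this]
    exact (NonUnitalStarAlgHom.norm_apply_le φ _).trans h2

theorem sat_pull_iff {κ : Tm → ℕ} {ρ : Rep A} {f : ℤ → ℤ} {q : Tm}
    (hκ : κ (Tm.map f q) = κ q) : Sat κ (ρ.pull f) q ↔ Sat κ ρ (Tm.map f q) := by
  unfold Sat
  rw [ev_pull, hκ]
  rfl

end Rep

end Pool.Agent.Lib.MP_1cc3c1_an
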