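import Pool.Agent.Lib.MP_1cc3c1_an.Assemble
import Pool.Agent.Lib.MP_1cc3c1_an.Emb
import Pool.Agent.Lib.MP_1cc3c1_an.BU

/-!
Existence of the test representations.
-/

namespace Pool.Agent.Lib.MP_1cc3c1_an

open Tm Asm

/-- Distribution of a Parseval frame into a rectangular scheme. -/
theorem distribute {ι X V : Type} [Fintype ι] [TopologicalSpace X] [NormedAddCommGroup V]
    [InnerProductSpace ℂ V] (Y : ι → C(X, V)) (K M : ℕ) (h : Fintype.card ι ≤ K * M) :
    ∃ y : ℕ → Fin M → C(X, V), (∀ j m, y j m = 0 ∨ ∃ i, y j m = Y i) ∧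
      ∀ z v, ∑ j ∈ Finset.range K, ∑ m, ‖inner ℂ (y j m z) v‖ ^ 2 =
        ∑ i, ‖inner ℂ (Y i z) v‖ ^ 2 := by
  classical
  have hc : Fintype.card ι ≤ Fintype.card (Fin K × Fin M) := by
    simpa using h
  obtain ⟨e⟩ := Function.Embedding.nonempty_of_card_le hc
  let y : ℕ → Fin M → C(X, V) := fun j m =>
    if h : ∃ i, ((e i).1 : ℕ) = j ∧ (e i).2 = m then Y h.choose else 0
  have hy : ∀ i, y (e i).1 (e i).2 = Y i := by
    intro i
    have h : ∃ i', ((e i').1 : ℕ) = (e i).1 ∧ (e i').2 = (e i).2 := ⟨i, rfl, rfl⟩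
    simp only [y]
    rw [dif_pos h]
    congr 1
    apply e.injective
    exact Prod.ext (Fin.ext h.choose_spec.1) h.choose_spec.2
  refine ⟨y, fun j m => ?_, fun z v => ?_⟩
  · by_cases h : ∃ i, ((e i).1 : ℕ) = j ∧ (e i).2 = m
    · right
      exact ⟨h.choose, dif_pos h⟩
    · left
      exact dif_neg h
  · rw [Finset.sum_range, ← Fintype.sum_prod_type' (f := fun (j : Fin K) m =>
      ‖inner ℂ (y j m z) v‖ ^ 2)]
    symm
    refine Fintype.sum_of_injective e e.injective _ _ ?_ ?_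
    · rintro ⟨j, m⟩ hjm
      have : y j m = 0 := by
        refine dif_neg ?_
        rintro ⟨i, hi1, hi2⟩
        exact hjm ⟨i, Prod.ext (Fin.ext hi1) hi2⟩
      simp only [this]
      simp
    · intro i
      simp only [hy]

theorem sum_le_two_mul {s : Finset ℕ} {a : ℕ → ℕ} {T : ℕ} (h : ∀ k ∈ s, a k * 2 ^ k = T) :
    ∑ k ∈ s, a k ≤ 2 * T := by
  have h1 : ∑ k ∈ s, ((1 / 2 : ℝ)) ^ k ≤ 2 := by
    have h0 := summable_geometric_two.sum_le_tsum s fun k _ => by positivity
    rwa [tsum_geometric_two] at h0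
  have h2 : (∑ k ∈ s, (a k : ℝ)) = T * ∑ k ∈ s, ((1 / 2 : ℝ)) ^ k := by
    rw [Finset.mul_sum]
    refine Finset.sum_congr rfl fun k hk => ?_
    rw [← h k hk]
    push_cast
    rw [mul_assoc, ← mul_pow]
    norm_num
  have h3 : (∑ k ∈ s, (a k : ℝ)) ≤ 2 * T := by
    rw [h2]
    have : (0 : ℝ) ≤ T := by positivity
    nlinarith
  exact_mod_cast h3

theorem exists_unit_image {E : Type} [NormedAddCommGroup E] [InnerProductSpace ℂ E]
    {T : E →L[ℂ] E} (h : 1 < ‖T‖) : ∃ u : E, ‖u‖ ≤ 1 ∧ ‖T u‖ = 1 := by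
  by_contra hcon
  push Not at hcon
  have : ‖T‖ ≤ 1 := by
    refine ContinuousLinearMap.opNorm_le_bound _ zero_le_one fun v => ?_
    rw [one_mul]
    by_contra hv
    push Not at hv
    have hpos : 0 < ‖T v‖ := lt_of_le_of_lt (norm_nonneg _) hv
    refine hcon (((‖T v‖ : ℂ))⁻¹ • v) ?_ ?_
    · rw [norm_smul, norm_inv, Complex.norm_real, norm_norm, inv_mul_le_iff₀ hpos, mul_one]
      exact hv.le
    · rw [map_smul, norm_smul, norm_inv, Complex.norm_real, norm_norm, inv_mul_cancel₀ hpos.ne']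
  linarith

theorem exists_data {F : Set Tm} (h1 : ∀ q ∈ F, 0 < kap q) (n : ℕ) :
    ∃ (C N : ℕ) (π : Fin C → Rep (BH N)), ∀ q ∈ F, code q = n →
      10 * (C * (N + 1)) * 2 ^ n ≤ kap q ∧
      ∃ i, (∀ q' ∈ sub q, Rep.Sat kap (π i) q') ∧ 1 < ‖(π i).ev q‖ := by
  by_cases hn : ∃ q ∈ F, code q = n
  · obtain ⟨q0, hq0, hc0⟩ := hn
    obtain ⟨C, N, hK, π, hπ⟩ := kap_mem (h1 q0 hq0)
    refine ⟨C, N, π, fun q hq hc => ?_⟩
    obtain ⟨k, hk⟩ := eq_sh_of_code (hc0.trans hc.symm)
    subst hk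
    refine ⟨by rw [kap_sh, ← hc0]; exact hK, ?_⟩
    obtain ⟨i, h2, h3⟩ := hπ k
    refine ⟨i, ?_, h3⟩
    rw [sub_sh]
    rintro _ ⟨q', hq', rfl⟩
    exact h2 q' hq'
  · refine ⟨0, 0, fun i => i.elim0, fun q hq hc => absurd ⟨q, hq, hc⟩ hn⟩

section FrameOption

variable {β X : Type} [Fintype β] [DecidableEq β] [TopologicalSpace X] {H : Option β → Type}
  [∀ b, NormedAddCommGroup (H b)] [∀ b, InnerProductSpace ℂ (H b)] [∀ b, CompleteSpace (H b)]
  {κ : Type} [Fintype κ] {ι : β → Type} [∀ b, Fintype (ι b)]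

/-- A frame of the sum of the blocks. -/
noncomputable def frameY (y0 : κ → C(X, H none)) (e : ∀ b, OrthonormalBasis (ι b) ℂ (H (some b))) :
    (κ ⊕ (Σ b, ι b)) → C(X, TV H)
  | Sum.inl k => ⟨fun z => inc none (y0 k z), (inc none).continuous.comp (y0 k).continuous⟩
  | Sum.inr p => ContinuousMap.const _ (inc (some p.1) (e p.1 p.2))

theorem frameY_parseval (y0 : κ → C(X, H none))
    (e : ∀ b, OrthonormalBasis (ι b) ℂ (H (some b)))
    (hy0 : ∀ z v, ∑ k, ‖inner ℂ (y0 k z) v‖ ^ 2 = ‖v‖ ^ 2) (z : X) (v : TV H) :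
    ∑ i, ‖inner ℂ (frameY y0 e i z) v‖ ^ 2 = ‖v‖ ^ 2 := by
  rw [Fintype.sum_sum_type, norm_sq_eq, Fintype.sum_option]
  congr 1
  · rw [← hy0 z (v none)]
    refine Finset.sum_congr rfl fun k _ => ?_
    simp only [frameY, ContinuousMap.coe_mk, inner_inc]
  · rw [Fintype.sum_sigma]
    refine Finset.sum_congr rfl fun b _ => ?_
    rw [← (e b).sum_sq_norm_inner_right]
    refine Finset.sum_congr rfl fun i _ => ?_
    simp only [frameY, ContinuousMap.const_apply, inner_inc]

theorem frameY_equivariant (y0 : κ → C(X, H none))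
    (e : ∀ b, OrthonormalBasis (ι b) ℂ (H (some b))) (l : ℂ) (hl : starRingEnd ℂ l * l = 1)
    (z w : X) (h : ∀ k, y0 k w = starRingEnd ℂ l • y0 k z) (i : κ ⊕ (Σ b, ι b)) (b : Option β) :
    (frameY y0 e i w) b = (starRingEnd ℂ l * b.elim 1 fun _ => l) • (frameY y0 e i z) b := by
  cases i with
  | inl k =>
    change (inc none (y0 k w) : TV H) b = _ • (inc none (y0 k z) : TV H) b
    cases b with
    | none =>
      rw [inc_same, inc_same, h k]
      simp
    | some b =>
      rw [inc_ne (by simp), inc_ne (by simp), smul_zero]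
  | inr p =>
    change (inc (some p.1) _ : TV H) b = _ • (inc (some p.1) _ : TV H) b
    cases b with
    | none =>
      rw [inc_ne (by simp), smul_zero]
    | some b =>
      change _ = (starRingEnd ℂ l * l) • _
      rw [hl, one_smul]

end FrameOption

/-- Existence of glued representations. -/
theorem exists_glue {F : Set Tm} (hF : F.Finite) (h1 : ∀ q ∈ F, 0 < kap q) (N0 : ℕ)
    (ρ0 : Rep (BH N0)) (P0 : Set Tm) (p0 : ∀ q, q ∉ F → q ∈ P0)
    (p1 : ∀ q ∈ F, q ∈ P0 → sub q ⊆ P0) (p2 : ∀ q ∈ F, q ∈ P0 → Rep.Sat kap ρ0 q) :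
    ∃ (β : Type) (_ : Fintype β) (_ : DecidableEq β) (N : β → ℕ)
      (G : Glue (Sph (∑ b, (N b + 1))) (fun b : Option β => Hs (b.elim N0 N))),
      G.F = F ∧ G.ρ none = ρ0 ∧ G.pure none = P0 ∧
      ∀ l : ℂ, ‖l‖ = 1 → ∀ z w : Sph (∑ b, (N b + 1)),
        (w : EuclideanSpace ℂ (Fin ((∑ b, (N b + 1)) + 1))) = l • (z : EuclideanSpace ℂ _) →
        ∀ t, G.rep.ev t w * Glue.scal _ (fun b => b.elim 1 fun _ => l) =
          Glue.scal _ (fun b => b.elim 1 fun _ => l) * G.rep.ev t z := by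
  classical
  choose C N π hπ using exists_data h1
  let codes : Finset ℕ := hF.toFinset.image code
  have hcodes : ∀ q ∈ F, code q ∈ codes := fun q hq =>
    Finset.mem_image_of_mem _ (hF.mem_toFinset.2 hq)
  have hCpos : ∀ n ∈ codes, 0 < C n := by
    intro n hn
    obtain ⟨q, hq, hc⟩ := Finset.mem_image.1 hn
    obtain ⟨i, -⟩ := (hπ n q (hF.mem_toFinset.1 hq) hc).2
    exact i.pos
  choose ix hix using fun (q : Tm) (hq : q ∈ F) => (hπ (code q) q hq rfl).2
  -- multiplicities
  let Λ : ℕ := ∏ n ∈ codes, (C n * (N n + 1) * 2 ^ n)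
  let T : ℕ := (N0 + 1) * Λ
  have hΛ : 0 < Λ := Finset.prod_pos fun n hn => by
    have := hCpos n hn
    positivity
  have hT : N0 + 1 ≤ T := Nat.le_mul_of_pos_right _ hΛ
  let M : ℕ → ℕ := fun n => T / (C n * (N n + 1) * 2 ^ n)
  have hM : ∀ n ∈ codes, C n * M n * (N n + 1) * 2 ^ n = T := by
    intro n hn
    have hd : C n * (N n + 1) * 2 ^ n ∣ T :=
      (Finset.dvd_prod_of_mem (fun n => C n * (N n + 1) * 2 ^ n) hn).mul_left _
    have := Nat.mul_div_cancel' hd
    calc C n * M n * (N n + 1) * 2 ^ n = C n * (N n + 1) * 2 ^ n * M n := by ring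
      _ = T := this
  -- blocks
  let tg : ∀ q, q ∈ F → (Σ n : codes, Fin (C n)) := fun q hq => ⟨⟨code q, hcodes q hq⟩, ix q hq⟩
  let β : Type := Σ p : (Σ n : codes, Fin (C n)), Fin (M p.1)
  let Nβ : β → ℕ := fun b => N b.1.1
  let H : Option β → Type := fun b : Option β => Hs (b.elim N0 Nβ)
  let πs : ∀ p : (Σ n : codes, Fin (C n)), Rep (BH (N p.1)) := fun p => π p.1 p.2
  have htg : ∀ q (hq : q ∈ F), (∀ q' ∈ sub q, Rep.Sat kap (πs (tg q hq)) q') ∧
      1 < ‖(πs (tg q hq)).ev q‖ := fun q hq => hix q hq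
  let ρ : ∀ b : Option β, Rep (H b →L[ℂ] H b) := fun b =>
    match b with
    | none => ρ0
    | some b => πs b.1
  let pure : Option β → Set Tm := fun b =>
    match b with
    | none => P0
    | some b => {q' | q' ∉ F ∨ ∃ q, ∃ h : q ∈ F, tg q h = b.1 ∧ q' ∈ sub q}
  -- targets
  choose ξ hξ1 hξ2 using fun (q : Tm) (hq : q ∈ F) => exists_unit_image (htg q hq).2
  let τu : ∀ q, Fin (M (code q)) → Σ b : Option β, H b := fun q m =>
    if h : q ∈ F then ⟨some ⟨tg q h, m⟩, ξ q h⟩ else ⟨none, 0⟩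
  have hτu : ∀ q (h : q ∈ F) m, τu q m = ⟨some ⟨tg q h, m⟩, ξ q h⟩ := fun q h m => dif_pos h
  -- dimension count
  let n : ℕ := ∑ b, (Nβ b + 1)
  have hn : n ≤ 2 * T := by
    have e : n = ∑ k ∈ codes, C k * M k * (N k + 1) := by
      simp only [n, Nβ]
      rw [Fintype.sum_sigma, Fintype.sum_sigma, ← Finset.sum_coe_sort codes]
      refine Finset.sum_congr rfl fun k _ => ?_
      simp only [Finset.sum_const, Finset.card_univ, Fintype.card_fin, smul_eq_mul]
      ring
    rw [e]
    exact sum_le_two_mul hM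
  have hcard : ∀ q ∈ F, (N0 + 1 + n) + n ≤ kap q * M (code q) := by
    intro q hq
    have h2 := (hπ (code q) q hq rfl).1
    have h3 : 10 * T ≤ kap q * M (code q) := by
      rw [← hM _ (hcodes q hq)]
      calc 10 * (C (code q) * M (code q) * (N (code q) + 1) * 2 ^ code q)
          = (10 * (C (code q) * (N (code q) + 1)) * 2 ^ code q) * M (code q) := by ring
        _ ≤ kap q * M (code q) := Nat.mul_le_mul_right _ h2
    omega
  -- the frame
  obtain ⟨y0, hy0, hy0'⟩ := exists_frame n (N0 + 1)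
  let y1 : Fin (N0 + 1 + n) → C(Sph n, H none) := y0
  let e1 : ∀ b : β, OrthonormalBasis (Fin (Nβ b + 1)) ℂ (H (some b)) := fun b =>
    EuclideanSpace.basisFun (Fin (Nβ b + 1)) ℂ
  let Y : (Fin (N0 + 1 + n) ⊕ (Σ b : β, Fin (Nβ b + 1))) → C(Sph n, TV H) := frameY y1 e1
  have hY : ∀ z v, ∑ i, ‖inner ℂ (Y i z) v‖ ^ 2 = ‖v‖ ^ 2 := frameY_parseval y1 e1 hy0'
  have hYcard : ∀ q ∈ F, Fintype.card (Fin (N0 + 1 + n) ⊕ (Σ b : β, Fin (Nβ b + 1))) ≤
      kap q * M (code q) := by
    intro q hq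
    simp only [Fintype.card_sum, Fintype.card_fin, Fintype.card_sigma]
    exact hcard q hq
  choose yq hyq1 hyq2 using fun (q : Tm) (hq : q ∈ F) => distribute Y _ _ (hYcard q hq)
  let y : ∀ q, ℕ → Fin (M (code q)) → C(Sph n, TV H) := fun q =>
    if h : q ∈ F then yq q h else fun _ _ => 0
  have hyF : ∀ q (h : q ∈ F), y q = yq q h := fun q h => dif_pos h
  let G : Glue (Sph n) H :=
    { F := F
      ρ := ρ
      pure := pure
      M := fun q => M (code q)
      τ := fun q m => (τu q m).1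
      u := fun q m => (τu q m).2
      y := y
      pure_of_not := by
        intro q b hq
        cases b with
        | none => exact p0 q hq
        | some b => exact Or.inl hq
      pure_sub := by
        intro q b hq hb
        cases b with
        | none => exact p1 q hq hb
        | some b =>
          rcases hb with hb | ⟨q2, h2, h3, h4⟩
          · exact absurd hq hb
          · exact fun q' hq' => Or.inr ⟨q2, h2, h3, sub_subset_of_mem h4 hq'⟩
      sat := by
        intro q b hq hb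
        cases b with
        | none => exact p2 q hq hb
        | some b =>
          rcases hb with hb | ⟨q2, h2, h3, h4⟩
          · exact absurd hq hb
          · change Rep.Sat kap (πs b.1) q
            rw [← h3]
            exact (htg q2 h2).1 q h4
      kap_pos := h1
      τ_inj := by
        intro q hq m m' hmm
        simp only [hτu q hq] at hmm
        have := Option.some.inj hmm
        exact eq_of_heq (Sigma.mk.inj this).2
      u_norm := by
        intro q hq m
        rw [hτu q hq]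
        exact hξ1 q hq
      u_ev := by
        intro q hq m
        rw [hτu q hq]
        exact hξ2 q hq
      τ_sub := by
        intro q hq m
        rw [hτu q hq]
        exact fun q' hq' => Or.inr ⟨q, hq, rfl, hq'⟩
      τ_not := by
        intro q hq m
        rw [hτu q hq]
        rintro (hb | ⟨q2, h2, h3, h4⟩)
        · exact hb hq
        · have hc : code q2 = code q := by
            have := congrArg (fun p : (Σ n : codes, Fin (C n)) => (p.1 : ℕ)) h3
            exact this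
          obtain ⟨k, hk⟩ := eq_sh_of_code hc
          have h5 := size_lt_of_mem_sub h4
          rw [hk, size_sh] at h5
          exact lt_irrefl _ h5
      frame := by
        intro q hq z v
        rw [hyF q hq, hyq2 q hq z v]
        exact hY z v }
  refine ⟨β, inferInstance, inferInstance, Nβ, G, rfl, rfl, rfl, ?_⟩
  intro l hl z w hw t
  have hl1 : starRingEnd ℂ l * l = 1 := by
    rw [mul_comm, Complex.mul_conj, Complex.normSq_eq_norm_sq, hl]
    norm_num
  refine G.ev_equivariant (fun b => b.elim 1 fun _ => l) ?_ l hl z w ?_ ?_ t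
  · intro b
    cases b with
    | none => simp
    | some b => exact hl
  · intro q hq m
    change ((τu q m).1).elim 1 (fun _ => l) = l
    rw [hτu q hq]
    rfl
  · intro q hq j _ m b
    change (y q j m w) b = _ • (y q j m z) b
    rw [hyF q hq]
    rcases hyq1 q hq j m with h0 | ⟨i, hi⟩
    · rw [h0]; simp
    · rw [hi]
      exact frameY_equivariant y1 e1 l hl1 z w (fun k => hy0 k l z w hl hw) i b

end Pool.Agent.Lib.MP_1cc3c1_an
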